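import Pool.Agent.N400.CZ.SplitMain
import Pool.Agent.N717.CZ.Local

/-!
# Abelian extensions of a number field with conductor dividing `𝔮` (helper92)
-/

set_option autoImplicit false

open NumberField IsDedekindDomain Complex

namespace Pool.Agent.Helper92.CM

open Pool.Agent.Y773 (TPos)
open Pool.Agent.Y767 (Mq Cls cls Mq_cop Mq_cancel Mq_ne_bot cls_eq_one cls_of_mul cls_pi
  card_dual finite_dual)
open Pool.Agent.N784.AD (pi1 pi1_coe T1 exists_compl exists_rep cls_card_le)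
open Pool.Agent.N784.HC (Dn)

/-- `K/M` is an abelian extension whose conductor divides `𝔮`; `art` is the Artin map. -/
structure IsAb {M : Type} [Field M] [NumberField M] (𝔮 : Ideal (𝓞 M)) (K : Type) [Field K]
    [NumberField K] (ι : 𝓞 M →+* 𝓞 K) (art : Ideal (𝓞 M) → (𝓞 K ≃+* 𝓞 K)) : Prop where
  mul : ∀ 𝔞 𝔟 : Ideal (𝓞 M), IsCoprime 𝔞 𝔮 → IsCoprime 𝔟 𝔮 → art (𝔞 * 𝔟) = art 𝔞 * art 𝔟
  invariants : ∀ x : 𝓞 K, (∀ 𝔞 : Ideal (𝓞 M), IsCoprime 𝔞 𝔮 → art 𝔞 x = x) ↔ x ∈ ι.range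
  ray : ∀ 𝔞 : Ideal (𝓞 M), IsCoprime 𝔞 𝔮 → (∃ a b : 𝓞 M, a - 1 ∈ 𝔮 ∧ b - 1 ∈ 𝔮 ∧
    TPos M a ∧ TPos M b ∧ Ideal.span {a} * 𝔞 = Ideal.span {b}) → art 𝔞 = 1
  unramified : ∀ v : HeightOneSpectrum (𝓞 K), ¬ 𝔮.map ι ≤ v.asIdeal →
    ∀ 𝔞 : Ideal (𝓞 M), IsCoprime 𝔞 𝔮 → (∀ x, art 𝔞 x - x ∈ v.asIdeal) → art 𝔞 = 1
  frobenius : ∀ 𝔭 : Ideal (𝓞 M), 𝔭.IsPrime → IsCoprime 𝔭 𝔮 → ∀ v : HeightOneSpectrum (𝓞 K),
    𝔭.map ι ≤ v.asIdeal → ∀ x : 𝓞 K, art 𝔭 x - x ^ Ideal.absNorm 𝔭 ∈ v.asIdeal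

section

variable {M : Type} [Field M] [NumberField M] {𝔮 : Ideal (𝓞 M)} {K : Type} [Field K]
  [NumberField K] {ι : 𝓞 M →+* 𝓞 K} {art : Ideal (𝓞 M) → (𝓞 K ≃+* 𝓞 K)}

theorem ab_one (htop : 𝔮 ≠ ⊤) (h : IsAb 𝔮 K ι art) {𝔞 : Mq 𝔮} (hc : cls (pi1 htop) 𝔞 = 1) :
    art (𝔞 : Ideal (𝓞 M)) = 1 := by
  have := Mq_cancel htop
  obtain ⟨a, b, hab⟩ := cls_eq_one hc
  refine h.ray _ 𝔞.2 ⟨a, b, a.2.1, b.2.1, a.2.2, b.2.2, ?_⟩
  have := congrArg (fun x : Mq 𝔮 => (x : Ideal (𝓞 M))) hab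
  simp only [Submonoid.coe_mul, pi1_coe] at this
  exact this

theorem ab_eq (hbot : 𝔮 ≠ ⊥) (htop : 𝔮 ≠ ⊤) (h : IsAb 𝔮 K ι art) {𝔞 𝔟 : Mq 𝔮}
    (hc : cls (pi1 htop) 𝔞 = cls (pi1 htop) 𝔟) :
    art (𝔞 : Ideal (𝓞 M)) = art (𝔟 : Ideal (𝓞 M)) := by
  obtain ⟨-, 𝔠, -, -, -, h1⟩ := exists_compl hbot htop 𝔟
  have h2 : cls (pi1 htop) (𝔟 * 𝔠) = 1 := by rw [map_mul, h1]
  have h3 : cls (pi1 htop) (𝔞 * 𝔠) = 1 := by rw [map_mul, hc, h1]
  have h4 := ab_one htop h h2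
  have h5 := ab_one htop h h3
  rw [Submonoid.coe_mul, h.mul _ _ 𝔟.2 𝔠.2] at h4
  rw [Submonoid.coe_mul, h.mul _ _ 𝔞.2 𝔠.2] at h5
  exact mul_right_cancel (h5.trans h4.symm)

/-- the Artin map on the ray class group -/
noncomputable def Phi (hbot : 𝔮 ≠ ⊥) (htop : 𝔮 ≠ ⊤) (h : IsAb 𝔮 K ι art) :
    Cls (pi1 htop) →* (𝓞 K ≃+* 𝓞 K) where
  toFun c := art ((exists_rep hbot htop c).choose : Mq 𝔮)
  map_one' := ab_one htop h (exists_rep hbot htop (1 : Cls (pi1 htop))).choose_spec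
  map_mul' c c' := by
    rw [← h.mul _ _ (exists_rep hbot htop c).choose.2 (exists_rep hbot htop c').choose.2,
      ← Submonoid.coe_mul]
    refine ab_eq hbot htop h ?_
    rw [(exists_rep hbot htop (c * c')).choose_spec, map_mul,
      (exists_rep hbot htop c).choose_spec, (exists_rep hbot htop c').choose_spec]

theorem Phi_cls (hbot : 𝔮 ≠ ⊥) (htop : 𝔮 ≠ ⊤) (h : IsAb 𝔮 K ι art) (𝔞 : Mq 𝔮) :
    Phi hbot htop h (cls (pi1 htop) 𝔞) = art (𝔞 : Ideal (𝓞 M)) :=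
  ab_eq hbot htop h (exists_rep hbot htop (cls (pi1 htop) 𝔞)).choose_spec

/-- the Galois group of `K/M` as a quotient of the ray class group -/
abbrev GQ (hbot : 𝔮 ≠ ⊥) (htop : 𝔮 ≠ ⊤) (h : IsAb 𝔮 K ι art) : Type :=
  Cls (pi1 htop) ⧸ (Phi hbot htop h).ker

theorem order_GQ (hbot : 𝔮 ≠ ⊥) (htop : 𝔮 ≠ ⊤) (h : IsAb 𝔮 K ι art) (c : Cls (pi1 htop)) :
    orderOf (QuotientGroup.mk' (Phi hbot htop h).ker c) = orderOf (Phi hbot htop h c) := by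
  rw [orderOf_eq_orderOf_iff]
  intro n
  rw [← map_pow, ← map_pow, QuotientGroup.mk'_apply, QuotientGroup.eq_one_iff, MonoidHom.mem_ker]

theorem finite_GQ (hbot : 𝔮 ≠ ⊥) (htop : 𝔮 ≠ ⊤) (h : IsAb 𝔮 K ι art) :
    Finite (GQ hbot htop h) := by
  have := (cls_card_le hbot htop).1
  infer_instance

theorem card_GQ (hbot : 𝔮 ≠ ⊥) (htop : 𝔮 ≠ ⊤) (h : IsAb 𝔮 K ι art) :
    Nat.card (GQ hbot htop h) = Nat.card (Phi hbot htop h).range :=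
  Nat.card_congr (QuotientGroup.quotientKerEquivRange (Phi hbot htop h)).toEquiv

theorem iota_inj (ι : 𝓞 M →+* 𝓞 K) : Function.Injective ι := by
  rw [injective_iff_map_eq_zero]
  intro a ha
  have h1 := Ideal.absNorm_mem (Ideal.span {a})
  obtain ⟨c, hc'⟩ := Ideal.mem_span_singleton'.1 h1
  have h2 := congrArg ι hc'
  rw [map_mul, ha, mul_zero, map_natCast] at h2
  have h3 : Ideal.absNorm (Ideal.span {a}) = 0 := by exact_mod_cast h2.symm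
  rw [Ideal.absNorm_eq_zero_iff, Ideal.span_singleton_eq_bot] at h3
  exact h3

/-- splitting of the primes -/
theorem ab_split (hbot : 𝔮 ≠ ⊥) (htop : 𝔮 ≠ ⊤) (H : IsAb 𝔮 K ι art)
    (𝔭 : Ideal (𝓞 M)) (hp : 𝔭.IsPrime) (hp0 : 𝔭 ≠ ⊥) (hc : IsCoprime 𝔭 𝔮) :
    (∀ v : HeightOneSpectrum (𝓞 K), 𝔭.map ι ≤ v.asIdeal →
      Ideal.absNorm v.asIdeal = Ideal.absNorm 𝔭 ^
        orderOf (Phi hbot htop H (cls (pi1 htop) ⟨𝔭, hc⟩))) ∧
    Nat.card {v : HeightOneSpectrum (𝓞 K) // 𝔭.map ι ≤ v.asIdeal} *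
      orderOf (Phi hbot htop H (cls (pi1 htop) ⟨𝔭, hc⟩)) = Nat.card (GQ hbot htop H) := by
  classical
  have hfC := (cls_card_le hbot htop).1
  have hfQ := finite_GQ hbot htop H
  rw [card_GQ]
  set G := (Phi hbot htop H).range with hG
  have hfG : Finite G :=
    Finite.of_equiv _ (QuotientGroup.quotientKerEquivRange (Phi hbot htop H)).toEquiv
  have hfix : ∀ (c : Cls (pi1 htop)) (x : 𝓞 M), Phi hbot htop H c (ι x) = ι x := fun c x =>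
    (H.invariants (ι x)).2 ⟨x, rfl⟩ _ (exists_rep hbot htop c).choose.2
  letI : Algebra (𝓞 M) (𝓞 K) := ι.toAlgebra
  have halg : ∀ a : 𝓞 M, algebraMap (𝓞 M) (𝓞 K) a = ι a := fun _ => rfl
  have hgi : ∀ (g : G) (a : 𝓞 M), g • (ι a) = ι a := by
    rintro ⟨g, c, rfl⟩ a
    exact hfix c a
  have hcomm : SMulCommClass G (𝓞 M) (𝓞 K) := by
    constructor
    intro g a x
    rw [Algebra.smul_def, Algebra.smul_def, halg, smul_mul', hgi]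
  have hinv : Algebra.IsInvariant (𝓞 M) (𝓞 K) G := by
    constructor
    intro b hb
    obtain ⟨a, ha⟩ := (H.invariants b).1 (fun 𝔞 h𝔞 => by
      have h1 := hb ⟨Phi hbot htop H (cls (pi1 htop) ⟨𝔞, h𝔞⟩), ⟨_, rfl⟩⟩
      have h2 : Phi hbot htop H (cls (pi1 htop) ⟨𝔞, h𝔞⟩) b = b := h1
      rw [Phi_cls] at h2
      exact h2)
    exact ⟨a, ha⟩
  have hmax : 𝔭.IsMaximal := hp.isMaximal hp0
  have hfz : Finite (𝓞 M ⧸ 𝔭) := Ideal.finiteQuotientOfFreeOfNeBot 𝔭 hp0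
  have hcardz : Nat.card (𝓞 M ⧸ 𝔭) = Ideal.absNorm 𝔭 := by
    rw [Ideal.absNorm_apply, Submodule.cardQuot_apply]
  have hιinj : Function.Injective ι := iota_inj ι
  have hunder : ∀ P : Ideal (𝓞 K), P.IsPrime → 𝔭.map ι ≤ P → P.LiesOver 𝔭 := by
    intro P hP hle
    constructor
    refine hmax.eq_of_le ?_ ?_
    · exact (inferInstance : (P.under (𝓞 M)).IsPrime).ne_top
    · exact Ideal.map_le_iff_le_comap.1 hle
  -- one place
  have key : ∀ v : HeightOneSpectrum (𝓞 K), 𝔭.map ι ≤ v.asIdeal →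
      Ideal.absNorm v.asIdeal = Ideal.absNorm 𝔭 ^
        orderOf (Phi hbot htop H (cls (pi1 htop) ⟨𝔭, hc⟩)) ∧
      (𝔭.primesOver (𝓞 K)).ncard *
        orderOf (Phi hbot htop H (cls (pi1 htop) ⟨𝔭, hc⟩)) = Nat.card G := by
    intro v hv
    have hvmax : v.asIdeal.IsMaximal := v.isPrime.isMaximal v.ne_bot
    have hfv : Finite (𝓞 K ⧸ v.asIdeal) := Ideal.finiteQuotientOfFreeOfNeBot v.asIdeal v.ne_bot
    have hover : v.asIdeal.LiesOver 𝔭 := hunder _ v.isPrime hv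
    have hqv : ¬ 𝔮.map ι ≤ v.asIdeal := by
      intro hq
      apply v.isPrime.ne_top
      rw [eq_top_iff, ← Ideal.map_top ι, ← (Ideal.isCoprime_iff_sup_eq.1 hc), Ideal.map_sup]
      exact sup_le hv hq
    obtain ⟨g, hg⟩ : ∃ g : G, (g : 𝓞 K ≃+* 𝓞 K) = Phi hbot htop H (cls (pi1 htop) ⟨𝔭, hc⟩) :=
      ⟨⟨_, ⟨_, rfl⟩⟩, rfl⟩
    have h5 := Pool.Agent.W164.RC.split_abs G 𝔭 v.asIdeal (by
      rintro ⟨g, c, rfl⟩ hg
      apply Subtype.ext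
      obtain ⟨𝔞, rfl⟩ := exists_rep hbot htop c
      have h1 : ∀ x, art (𝔞 : Ideal (𝓞 M)) x - x ∈ v.asIdeal := by
        intro x
        have h2 : Phi hbot htop H (cls (pi1 htop) 𝔞) x - x ∈ v.asIdeal := hg x
        rw [Phi_cls] at h2
        exact h2
      have h2 := H.unramified v hqv 𝔞 (Mq_cop 𝔞) h1
      change Phi hbot htop H (cls (pi1 htop) 𝔞) = 1
      rw [Phi_cls, h2])
      g (by
      intro x
      rw [hcardz]
      have h1 := H.frobenius 𝔭 hp hc v hv x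
      have h2 : Phi hbot htop H (cls (pi1 htop) ⟨𝔭, hc⟩) x - x ^ Ideal.absNorm 𝔭 ∈ v.asIdeal := by
        rw [Phi_cls]
        exact h1
      rw [← hg] at h2
      exact h2)
    have hog : orderOf g = orderOf (Phi hbot htop H (cls (pi1 htop) ⟨𝔭, hc⟩)) := by
      rw [← hg, Subgroup.orderOf_coe]
    rw [hcardz, hog] at h5
    refine ⟨?_, h5.2⟩
    rw [Ideal.absNorm_apply, Submodule.cardQuot_apply]
    exact h5.1
  -- existence of a place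
  have hne : ∀ P : Ideal (𝓞 K), P.LiesOver 𝔭 → P ≠ ⊥ := by
    intro P hP hPb
    apply hp0
    rw [hP.over, hPb, eq_bot_iff]
    intro a ha
    rw [Ideal.mem_comap, Ideal.mem_bot, halg] at ha
    rw [Ideal.mem_bot]
    exact hιinj (by rw [ha, map_zero])
  have hex : ∃ v : HeightOneSpectrum (𝓞 K), 𝔭.map ι ≤ v.asIdeal := by
    have hint : Algebra.IsIntegral (𝓞 M) (𝓞 K) := Algebra.IsInvariant.isIntegral (𝓞 M) (𝓞 K) G
    have hfs : FaithfulSMul (𝓞 M) (𝓞 K) := by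
      rw [faithfulSMul_iff_algebraMap_injective]
      exact hιinj
    obtain ⟨P, hPm, hPo⟩ := Ideal.exists_maximal_ideal_liesOver_of_isIntegral (S := 𝓞 K) 𝔭
    refine ⟨⟨P, hPm.isPrime, hne P hPo⟩, ?_⟩
    rw [Ideal.map_le_iff_le_comap]
    exact hPo.over.le
  obtain ⟨v0, hv0⟩ := hex
  refine ⟨fun v hv => (key v hv).1, ?_⟩
  have h6 := (key v0 hv0).2
  have h7 : Nat.card {v : HeightOneSpectrum (𝓞 K) // 𝔭.map ι ≤ v.asIdeal} =
      (𝔭.primesOver (𝓞 K)).ncard := by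
    rw [← Nat.card_coe_set_eq]
    refine Nat.card_congr
      { toFun := fun v => ⟨v.1.asIdeal, v.1.isPrime, hunder _ v.1.isPrime v.2⟩
        invFun := fun P => ⟨⟨P.1, P.2.1, hne _ P.2.2⟩, by
          rw [Ideal.map_le_iff_le_comap]
          exact P.2.2.over.le⟩
        left_inv := fun v => rfl
        right_inv := fun P => rfl }
  rw [h7, h6]

/-- **The degree of the extension.** -/
theorem ab_deg (hbot : 𝔮 ≠ ⊥) (htop : 𝔮 ≠ ⊤) (H : IsAb 𝔮 K ι art) :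
    Module.finrank ℚ K = Module.finrank ℚ M * Nat.card (GQ hbot htop H) := by
  have hfQ := finite_GQ hbot htop H
  let Ψ : GQ hbot htop H →* (𝓞 K ≃+* 𝓞 K) := QuotientGroup.kerLift (Phi hbot htop H)
  have hΨi : Function.Injective Ψ := QuotientGroup.kerLift_injective _
  have hΨ : ∀ c : Cls (pi1 htop), Ψ (QuotientGroup.mk c) = Phi hbot htop H c := fun c => rfl
  have hfix : ∀ (c : GQ hbot htop H) (x : 𝓞 M), Ψ c (ι x) = ι x := fun c x => by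
    obtain ⟨c, rfl⟩ := QuotientGroup.mk_surjective c
    rw [hΨ]
    exact (H.invariants (ι x)).2 ⟨x, rfl⟩ _ (exists_rep hbot htop c).choose.2
  have hinv : ∀ x : 𝓞 K, (∀ c, Ψ c x = x) → ∃ y, ι y = x := by
    intro x hx
    refine (H.invariants x).1 fun 𝔞 h𝔞 => ?_
    have h1 := hx (QuotientGroup.mk (cls (pi1 htop) ⟨𝔞, h𝔞⟩))
    rw [hΨ, Phi_cls] at h1
    exact h1
  -- the field embedding
  have hιi : Function.Injective ι := iota_inj ι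
  have hinj : Function.Injective ((algebraMap (𝓞 K) K).comp ι) :=
    (IsFractionRing.injective (𝓞 K) K).comp hιi
  let : Algebra M K := (IsFractionRing.lift (K := M) hinj).toAlgebra
  have halg : ∀ x : 𝓞 M, algebraMap (𝓞 M) (𝓞 K) x = ι x := by
    intro x
    apply IsFractionRing.injective (𝓞 K) K
    rw [← IsScalarTower.algebraMap_apply (𝓞 M) (𝓞 K) K, IsScalarTower.algebraMap_apply (𝓞 M) M K]
    exact IsFractionRing.lift_algebraMap hinj x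
  let : MulSemiringAction (GQ hbot htop H) (𝓞 K) := MulSemiringAction.compHom (𝓞 K) Ψ
  have hsm : ∀ (c : GQ hbot htop H) (x : 𝓞 K), c • x = Ψ c x := fun c x => rfl
  have hG : IsGaloisGroup (GQ hbot htop H) (𝓞 M) (𝓞 K) :=
    { faithful := ⟨fun {c c'} hcc => hΨi (RingEquiv.ext fun x => hcc x)⟩
      commutes := ⟨fun c a b => by
        rw [Algebra.smul_def, Algebra.smul_def, hsm, hsm, map_mul, halg, hfix]⟩
      isInvariant := ⟨fun b hb => by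
        obtain ⟨y, hy⟩ := hinv b hb
        exact ⟨y, by rw [halg, hy]⟩⟩ }
  have h1 := IsGaloisGroup.card_eq_finrank' (GQ hbot htop H) (𝓞 M) (𝓞 K)
  rw [h1, ← IsFractionRing.finrank_eq (𝓞 M) M (𝓞 K) K, Module.finrank_mul_finrank]

/-- the character `F₁ χ` of the ideals, `χ` a character of the Galois group -/
noncomputable def tw (hbot : 𝔮 ≠ ⊥) (htop : 𝔮 ≠ ⊤) (H : IsAb 𝔮 K ι art) (F₁ : Mq 𝔮 →* ℂˣ)
    (lam : GQ hbot htop H →* ℂˣ) : Mq 𝔮 →* ℂˣ :=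
  (lam.comp (QuotientGroup.mk' _)).comp (cls (pi1 htop)) * F₁

theorem tw_apply (hbot : 𝔮 ≠ ⊥) (htop : 𝔮 ≠ ⊤) (H : IsAb 𝔮 K ι art) (F₁ : Mq 𝔮 →* ℂˣ)
    (lam : GQ hbot htop H →* ℂˣ) (x : Mq 𝔮) :
    tw hbot htop H F₁ lam x = lam (QuotientGroup.mk' _ (cls (pi1 htop) x)) * F₁ x := rfl

theorem tw_inj (hbot : 𝔮 ≠ ⊥) (htop : 𝔮 ≠ ⊤) (H : IsAb 𝔮 K ι art) (F₁ : Mq 𝔮 →* ℂˣ) :
    Function.Injective (tw hbot htop H F₁) := by
  intro l l' h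
  refine MonoidHom.ext fun c => ?_
  obtain ⟨c, rfl⟩ := QuotientGroup.mk'_surjective _ c
  obtain ⟨𝔞, rfl⟩ := exists_rep hbot htop c
  have h2 := DFunLike.congr_fun h 𝔞
  rw [tw_apply, tw_apply] at h2
  exact mul_right_cancel h2

theorem tw_mem {n : (M →+* ℂ) → ℕ} (hbot : 𝔮 ≠ ⊥) (htop : 𝔮 ≠ ⊤) (H : IsAb 𝔮 K ι art)
    {F₁ : Mq 𝔮 →* ℂˣ} (hF₁ : F₁ ∈ Dn n htop) (lam : GQ hbot htop H →* ℂˣ) :
    tw hbot htop H F₁ lam ∈ Dn n htop := by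
  intro x
  rw [tw_apply, cls_pi, map_one, map_one, one_mul]
  exact hF₁ x

/-- the product over all the characters at one ideal -/
theorem tw_local (hbot : 𝔮 ≠ ⊥) (htop : 𝔮 ≠ ⊤) (H : IsAb 𝔮 K ι art) (F₁ : Mq 𝔮 →* ℂˣ)
    (x : Mq 𝔮) (Y : ℂ) :
    ∏ᶠ lam : GQ hbot htop H →* ℂˣ, (1 - ((tw hbot htop H F₁ lam x : ℂˣ) : ℂ) * Y) =
      (1 - (((F₁ x : ℂˣ) : ℂ) * Y) ^ orderOf (Phi hbot htop H (cls (pi1 htop) x))) ^
        (Nat.card (GQ hbot htop H) / orderOf (Phi hbot htop H (cls (pi1 htop) x))) := by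
  have hfQ := finite_GQ hbot htop H
  rw [← order_GQ, ← Pool.Agent.N717.CZ.prod_dual]
  refine finprod_congr fun lam => ?_
  rw [tw_apply, Units.val_mul, mul_assoc]

end

end Pool.Agent.Helper92.CM
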