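import Pool.Agent.Helper92.CM.Cu
import Pool.Agent.N784.CZ.Crx
import Pool.Agent.N784.CZ.Den

/-!
# The density of the zeros of all the characters of a type modulo `𝔮` in short windows, on both
sides of the critical line (helper92)
-/

set_option autoImplicit false
set_option linter.unusedSectionVars false

open NumberField Complex Filter Topology Set

namespace Pool.Agent.Helper92.CM

open Pool.Agent.Y773 (TPos LI)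
open Pool.Agent.Y767 (Mq Cls cls eq_of_LI)
open Pool.Agent.Y773.IQ (ofM' tM LL LL_eq absNorm_pos')
open Pool.Agent.N784.HC
open Pool.Agent.N784.AD (pi1 Un one_le_Un cls_card_le hK)
open Pool.Agent.N784.CZ
open Pool.Agent.N833.CZ (norm_ofM'_le)
open H370 (mult)
open Pool.Agent.H82R3.EK (cnt cnt_eq_sum)

/-- the window to the right of the line -/
def wr (t₁ H δ : ℝ) : Set ℂ := {s : ℂ | 1 / 2 + δ ≤ s.re ∧ s.re < 1 ∧ t₁ ≤ s.im ∧ s.im ≤ t₁ + H}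

/-- the window to the left of the line -/
def wl (t₁ H δ : ℝ) : Set ℂ := {s : ℂ | 0 < s.re ∧ s.re ≤ 1 / 2 - δ ∧ t₁ ≤ s.im ∧ s.im ≤ t₁ + H}

lemma wr_bx {t₁ H δ T : ℝ} (hH : H ≤ T) (ht : |t₁| ≤ T) (hδ : 0 ≤ δ) :
    wr t₁ H δ ⊆ bx T := by
  rintro s ⟨h1, h2, h3, h4⟩
  rw [abs_le] at ht
  refine ⟨by linarith, h2, ?_⟩
  rw [abs_le]
  constructor <;> linarith

lemma wl_bx {t₁ H δ T : ℝ} (hH : H ≤ T) (ht : |t₁| ≤ T) (hδ : 0 ≤ δ) :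
    wl t₁ H δ ⊆ bx T := by
  rintro s ⟨h1, h2, h3, h4⟩
  rw [abs_le] at ht
  refine ⟨h1, by linarith, ?_⟩
  rw [abs_le]
  constructor <;> linarith

lemma bx_bdd {T : ℝ} : ∀ s ∈ bx T, ‖s‖ ≤ 1 + 2 * T := by
  rintro s ⟨a, b, c⟩
  refine (Complex.norm_le_abs_re_add_abs_im s).trans (add_le_add ?_ c)
  rw [abs_of_pos a]
  exact b.le

/-- the counts on the two sides -/
lemma cnt_refl {f : ℂ → ℂ} (hf : Differentiable ℂ f)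
    (hs : ∀ s : ℂ, 0 < s.re → s.re < 1 → 1 ≤ s.im →
      analyticOrderAt f (1 - (starRingEnd ℂ) s) = analyticOrderAt f s) {t₁ H δ : ℝ} (ht : 1 ≤ t₁)
    (hδ : 0 ≤ δ) : cnt f (wl t₁ H δ) = cnt f (wr t₁ H δ) := by
  have hre : ∀ s : ℂ, (1 - (starRingEnd ℂ) s).re = 1 - s.re := fun s => by simp
  have him : ∀ s : ℂ, (1 - (starRingEnd ℂ) s).im = s.im := fun s => by simp
  have hrr : ∀ s : ℂ, 1 - (starRingEnd ℂ) (1 - (starRingEnd ℂ) s) = s := fun s => by simp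
  have hz : ∀ s : ℂ, 0 < s.re → s.re < 1 → 1 ≤ s.im → (f (1 - (starRingEnd ℂ) s) = 0 ↔ f s = 0) := by
    intro s h1 h2 h3
    rw [← not_iff_not, ← Ne, ← Ne, ← (hf.analyticAt _).analyticOrderAt_eq_zero,
      ← (hf.analyticAt s).analyticOrderAt_eq_zero, hs s h1 h2 h3]
  unfold cnt
  have h1 : {s : ℂ | s ∈ wl t₁ H δ ∧ f s = 0} =
      (fun s : ℂ => 1 - (starRingEnd ℂ) s) '' {s : ℂ | s ∈ wr t₁ H δ ∧ f s = 0} := by
    ext s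
    constructor
    · rintro ⟨⟨a, b, c, d⟩, e⟩
      refine ⟨1 - (starRingEnd ℂ) s, ⟨⟨?_, ?_, ?_, ?_⟩, ?_⟩, hrr s⟩
      · rw [hre]; linarith
      · rw [hre]; linarith
      · rw [him]; exact c
      · rw [him]; exact d
      · exact (hz s a (by linarith) (by linarith)).2 e
    · rintro ⟨t, ⟨⟨a, b, c, d⟩, e⟩, rfl⟩
      refine ⟨⟨?_, ?_, ?_, ?_⟩, ?_⟩
      · show 0 < (1 - (starRingEnd ℂ) t).re
        rw [hre]; linarith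
      · show (1 - (starRingEnd ℂ) t).re ≤ 1 / 2 - δ
        rw [hre]; linarith
      · show t₁ ≤ (1 - (starRingEnd ℂ) t).im
        rw [him]; exact c
      · show (1 - (starRingEnd ℂ) t).im ≤ t₁ + H
        rw [him]; exact d
      · exact (hz t (by linarith) b (by linarith)).2 e
  rw [h1, finsum_mem_image (fun a _ b _ h => by
    have h2 : 1 - (starRingEnd ℂ) a = 1 - (starRingEnd ℂ) b := h
    rw [← hrr a, h2, hrr b])]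
  refine finsum_mem_congr rfl fun s hs' => ?_
  obtain ⟨⟨a, b, c, d⟩, -⟩ := hs'
  unfold mult analyticOrderNatAt
  rw [hs s (by linarith) b (by linarith)]

section
variable {K : Type} [Field K] [NumberField K] {n : (K →+* ℂ) → ℕ}

/-- the L-functions of the primitive characters -/
theorem LL_fam (hn : CTyp n) {𝔮 : Ideal (𝓞 K)} {ψ : Ideal (𝓞 K) →*₀ ℂ} (hψ : ψ ∈ FamN n 𝔮) :
    Differentiable ℂ (LL K ψ) ∧ ∀ s : ℂ, 1 < s.re → LL K ψ s = LI ψ s := by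
  obtain ⟨A, hA, hprim⟩ := primF K hn
  obtain ⟨𝔣, h1, h2, h3⟩ := hψ
  obtain ⟨-, G, g1, g2, -⟩ := hprim 𝔣 ψ h2 h3
  rw [LL_eq K g1 g2]
  exact ⟨g1, g2⟩

theorem LL_symm (hn : CTyp n) (hn0 : n ≠ 0) {𝔮 : Ideal (𝓞 K)} {ψ : Ideal (𝓞 K) →*₀ ℂ}
    (hψ : ψ ∈ FamN n 𝔮) (s : ℂ) (h0 : 0 < s.re) (h1 : s.re < 1) (hi : 1 ≤ s.im) :
    analyticOrderAt (LL K ψ) (1 - (starRingEnd ℂ) s) = analyticOrderAt (LL K ψ) s := by
  obtain ⟨A, hA, hgood⟩ := goodH K hn hn0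
  obtain ⟨𝔣, k1, k2, k3⟩ := hψ
  obtain ⟨F, f1, f2, f3⟩ := hgood 𝔣 ψ k2 k3
  rw [LL_eq K f1 f2]
  exact f3.symm s h0 h1 hi

theorem LL_two_ne (hn : CTyp n) {𝔮 : Ideal (𝓞 K)} {ψ : Ideal (𝓞 K) →*₀ ℂ}
    (hψ : ψ ∈ FamN n 𝔮) : LL K ψ 2 ≠ 0 := by
  rw [(LL_fam hn hψ).2 2 (by norm_num)]
  exact LI_ne (FamN_norm_le hψ) (by norm_num)

/-- the degree is at least two -/
theorem two_le_deg (hn : CTyp n) (hn0 : n ≠ 0) : 2 ≤ Module.finrank ℚ K := by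
  classical
  rw [← Pool.Agent.Y773.G.card_emb]
  by_contra h
  apply hn0
  have h1 : Fintype.card (K →+* ℂ) ≤ 1 := by omega
  have h2 := Fintype.card_le_one_iff_subsingleton.mp h1
  funext φ
  rcases hn φ with h3 | h3
  · exact h3
  · rw [Subsingleton.elim (Pool.Agent.Y773.G.cj φ) φ] at h3
    exact h3

/-- few zeros of the L-functions of the characters of conductor one, in a box -/
theorem dn0_box (hn : CTyp n) (hn0 : n ≠ 0) :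
    ∃ B : ℝ, 0 ≤ B ∧ ∀ (𝔮 : Ideal (𝓞 K)) (_ : 𝔮 ≠ ⊥) (htop : 𝔮 ≠ ⊤) (F : Mq 𝔮 →* ℂˣ),
      F ∈ Dn0 n 𝔮 → ∀ L : ℂ → ℂ, Differentiable ℂ L → (∀ s : ℂ, 1 < s.re → L s = LI (ofM' htop F) s) →
      ∀ T : ℝ, 1 ≤ T → ∀ W : Set ℂ, W ⊆ bx T → (cnt L W : ℝ) ≤ B * T ^ 2 ∧
        (cnt (cf L) W : ℝ) ≤ B * T ^ 2 := by
  classical
  obtain ⟨b2, t2⟩ := span_two K
  obtain ⟨A₀, hA₀, hD⟩ := Pool.Agent.Y772.DK.t_dirK K
  obtain ⟨hfin, -⟩ := Dn_card_le (n := n) b2 t2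
  have hex : ∀ F'' : Mq (Ideal.span {(2 : 𝓞 K)}) →* ℂˣ, ∃ (L : ℂ → ℂ) (C' : ℝ),
      F'' ∈ Dn n t2 → Differentiable ℂ L ∧ (∀ s : ℂ, 1 < s.re → L s = LI (ofM' t2 F'') s) ∧
      L 2 ≠ 0 ∧ ∀ T : ℝ, 1 ≤ T →
        ∑ᶠ s ∈ {s : ℂ | 0 < s.re ∧ s.re < 1 ∧ |s.im| ≤ 2 * T ∧ L s = 0},
          (analyticOrderNatAt L s : ℝ) ≤ C' * T ^ 2 := by
    intro F''
    by_cases h : F'' ∈ Dn n t2
    · obtain ⟨L, C, h1, h2, h3⟩ := Pool.Agent.N603.CZ.t_gro K n hn hn0 _ b2 t2 F'' h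
      have hn1 := norm_ofM'_le b2 t2 h
      obtain ⟨-, -, d3, -, -, d6, -⟩ := hD _ hn1
      obtain ⟨C', hC'⟩ := Pool.Agent.N768.CZ.t_cru L C A₀⁻¹ h1 (by positivity) (fun s hs => by
        rw [h2 s (by rw [hs]; norm_num)]
        exact d6 s hs.ge) h3
      refine ⟨L, C', fun _ => ⟨h1, h2, ?_, fun T hT => (hC' T hT).2⟩⟩
      rw [h2 2 (by norm_num)]
      exact d3 2 (by norm_num)
    · exact ⟨fun _ => 0, 0, fun h' => absurd h' h⟩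
  choose L2 C2 h2 using hex
  refine ⟨∑ F'' ∈ hfin.toFinset, |C2 F''|, Finset.sum_nonneg fun _ _ => abs_nonneg _, ?_⟩
  intro 𝔮 hbot htop F hF L hL hLs T hT
  obtain ⟨F'', hF'', hord⟩ := dn0_red hbot htop hF
  obtain ⟨g1, g2, g3, g4⟩ := h2 F'' hF''
  have ho := hord L (L2 F'') hL g1 hLs g2
  have hT2 : 0 ≤ T ^ 2 := by positivity
  have hC : C2 F'' ≤ ∑ F'' ∈ hfin.toFinset, |C2 F''| :=
    (le_abs_self _).trans (Finset.single_le_sum (f := fun F => |C2 F|) (fun _ _ => abs_nonneg _)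
      (hfin.mem_toFinset.mpr hF''))
  have hbfin : {s : ℂ | s ∈ bx T ∧ L2 F'' s = 0}.Finite := zeros_bdd g1 g3 bx_bdd
  have hcnt : (cnt (L2 F'') (bx T) : ℝ) ≤ C2 F'' * T ^ 2 := by
    refine le_trans (le_of_eq ?_) (g4 T hT)
    have hset : {s : ℂ | 0 < s.re ∧ s.re < 1 ∧ |s.im| ≤ 2 * T ∧ L2 F'' s = 0} =
        {s : ℂ | s ∈ bx T ∧ L2 F'' s = 0} := by
      ext s
      simp only [bx, Set.mem_ofPred_eq, and_assoc]
    unfold cnt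
    rw [hset, finsum_mem_eq_finite_toFinset_sum _ hbfin,
      finsum_mem_eq_finite_toFinset_sum _ hbfin]
    push_cast
    rfl
  have hgen : ∀ W : Set ℂ, W ⊆ bx T → (cnt L W : ℝ) ≤
      (∑ F'' ∈ hfin.toFinset, |C2 F''|) * T ^ 2 := by
    intro W hW
    have h5 : cnt L W = cnt (L2 F'') W := cnt_congr hL g1 fun s hs => ho s (hW hs).1
    have h6 : cnt (L2 F'') W ≤ cnt (L2 F'') (bx T) := cnt_mono hW hbfin
    calc (cnt L W : ℝ) = cnt (L2 F'') W := by rw [h5]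
      _ ≤ cnt (L2 F'') (bx T) := by exact_mod_cast h6
      _ ≤ C2 F'' * T ^ 2 := hcnt
      _ ≤ _ := mul_le_mul_of_nonneg_right hC hT2
  intro W hW
  constructor
  · exact hgen W hW
  · rw [cnt_cf hL]
    apply hgen
    intro s hs
    obtain ⟨a, b, c⟩ := hW hs
    rw [Complex.conj_re] at a b
    rw [Complex.conj_im, abs_neg] at c
    exact ⟨a, b, c⟩

end

/-- the density bound for the primitive characters -/
theorem fam_den (K : Type) [Field K] [NumberField K] {n : (K →+* ℂ) → ℕ} (hn : CTyp n)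
    (h c : ℝ) (hh1 : h ≤ 1) (hc0 : 0 < c) (hc : c < 2 * h - 1) :
    ∃ A : ℝ, 1 ≤ A ∧ ∀ (𝔮 : Ideal (𝓞 K)) (_ : 𝔮 ≠ ⊥) (_ : 𝔮 ≠ ⊤) (T H : ℝ), 1 ≤ H → H ≤ T →
      ((Ideal.absNorm 𝔮 : ℝ) * T ^ Module.finrank ℚ K) ^ h ≤ (Ideal.absNorm 𝔮 : ℝ) →
      ∀ J : Finset (Ideal (𝓞 K) →*₀ ℂ), (∀ ψ ∈ J, ψ ∈ FamN n 𝔮) →
      ∀ t₁ : ℝ, |t₁| ≤ T → ∀ δ : ℝ, 0 ≤ δ →
      ∑ ψ ∈ J, (cnt (LL K ψ) (wr t₁ H δ) : ℝ) ≤
        A * ((Ideal.absNorm 𝔮 : ℝ) * H *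
          Real.log ((Ideal.absNorm 𝔮 : ℝ) * T ^ Module.finrank ℚ K) *
          ((Ideal.absNorm 𝔮 : ℝ) * T ^ Module.finrank ℚ K) ^ (-(c * δ))) := by
  classical
  obtain ⟨A, hA, hden⟩ := den_core tt_lsp K hn h c hh1 hc0 hc
  obtain ⟨h₀, hh₀⟩ : ∃ h₀ : ℝ, h₀ = (hK K : ℝ) := ⟨_, rfl⟩
  have hh0 : 0 ≤ h₀ := by rw [hh₀]; exact Nat.cast_nonneg _
  refine ⟨A * (1 + h₀), one_le_mul_of_one_le_of_one_le hA (by linarith), ?_⟩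
  intro 𝔮 hbot htop T H hH hHT hX J hJ t₁ ht₁ δ hδ
  have hT : 1 ≤ T := hH.trans hHT
  have hfin : ∀ ψ ∈ J, {s : ℂ | s ∈ wr t₁ H δ ∧ LL K ψ s = 0}.Finite := fun ψ hψ =>
    zeros_bdd (LL_fam hn (hJ ψ hψ)).1 (LL_two_ne hn (hJ ψ hψ))
      (fun s hs => bx_bdd s (wr_bx hHT ht₁ hδ hs))
  have hexZ : ∀ ψ : Ideal (𝓞 K) →*₀ ℂ, ∃ Z : Finset ℂ, ψ ∈ J →
      ∀ s, s ∈ Z ↔ s ∈ wr t₁ H δ ∧ LL K ψ s = 0 := by
    intro ψ
    by_cases hψ : ψ ∈ J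
    · exact ⟨(hfin ψ hψ).toFinset, fun _ s => by rw [Set.Finite.mem_toFinset]; rfl⟩
    · exact ⟨∅, fun h => absurd h hψ⟩
  choose Z hZ using hexZ
  have h1 := hden 𝔮 hbot htop T H hH hHT hX J hJ (fun ψ => LL K ψ)
    (fun ψ hψ => LL_fam hn (hJ ψ hψ)) t₁ ht₁ δ hδ Z (fun ψ hψ z hz => by
      obtain ⟨⟨a, b, c, d⟩, -⟩ := (hZ ψ hψ z).1 hz
      exact ⟨a, c, d⟩)
  have h2 : ∑ ψ ∈ J, (cnt (LL K ψ) (wr t₁ H δ) : ℝ) =
      ∑ ψ ∈ J, ∑ z ∈ Z ψ, (analyticOrderNatAt (LL K ψ) z : ℝ) := by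
    refine Finset.sum_congr rfl fun ψ hψ => ?_
    rw [cnt_eq_sum (Z ψ) (fun s hs => ((hZ ψ hψ s).1 hs).1)
      (fun s hs h0 => (hZ ψ hψ s).2 ⟨hs, h0⟩)
      (fun s _ => (LL_fam hn (hJ ψ hψ)).1.analyticAt s)]
    push_cast
    rfl
  rw [h2]
  refine h1.trans ?_
  have h3 : (Nat.card (Cls (pi1 htop)) : ℝ) * Un 𝔮 ≤ h₀ * (Ideal.absNorm 𝔮 : ℝ) := by
    have e1 := cls_mul_Un hbot htop
    have e2 := card_units_le_norm hbot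
    have e3 : Nat.card (Cls (pi1 htop)) * Un 𝔮 ≤ Ideal.absNorm 𝔮 * hK K :=
      e1.trans (Nat.mul_le_mul_right _ e2)
    have e4 : ((Nat.card (Cls (pi1 htop)) * Un 𝔮 : ℕ) : ℝ) ≤ ((Ideal.absNorm 𝔮 * hK K : ℕ) : ℝ) := by
      exact_mod_cast e3
    push_cast at e4
    rw [← hh₀] at e4
    linarith
  have hN1 : (1 : ℝ) ≤ (Ideal.absNorm 𝔮 : ℝ) := by exact_mod_cast absNorm_pos' hbot
  have hX1 : 1 ≤ (Ideal.absNorm 𝔮 : ℝ) * T ^ Module.finrank ℚ K :=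
    one_le_mul_of_one_le_of_one_le hN1 (one_le_pow₀ hT)
  have hlog : 0 ≤ Real.log ((Ideal.absNorm 𝔮 : ℝ) * T ^ Module.finrank ℚ K) := Real.log_nonneg hX1
  have hp : 0 ≤ ((Ideal.absNorm 𝔮 : ℝ) * T ^ Module.finrank ℚ K) ^ (-(c * δ)) := by positivity
  have h4 : (Nat.card (Cls (pi1 htop)) : ℝ) * Un 𝔮 ≤ (1 + h₀) * (Ideal.absNorm 𝔮 : ℝ) := by
    linarith
  have h5 : 0 ≤ H * Real.log ((Ideal.absNorm 𝔮 : ℝ) * T ^ Module.finrank ℚ K) *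
      ((Ideal.absNorm 𝔮 : ℝ) * T ^ Module.finrank ℚ K) ^ (-(c * δ)) := by positivity
  calc A * (Nat.card (Cls (pi1 htop)) * Un 𝔮 * H *
          Real.log ((Ideal.absNorm 𝔮 : ℝ) * T ^ Module.finrank ℚ K) *
          ((Ideal.absNorm 𝔮 : ℝ) * T ^ Module.finrank ℚ K) ^ (-(c * δ)))
      = A * ((Nat.card (Cls (pi1 htop)) * Un 𝔮) * (H *
          Real.log ((Ideal.absNorm 𝔮 : ℝ) * T ^ Module.finrank ℚ K) *
          ((Ideal.absNorm 𝔮 : ℝ) * T ^ Module.finrank ℚ K) ^ (-(c * δ)))) := by ring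
    _ ≤ A * (((1 + h₀) * (Ideal.absNorm 𝔮 : ℝ)) * (H *
          Real.log ((Ideal.absNorm 𝔮 : ℝ) * T ^ Module.finrank ℚ K) *
          ((Ideal.absNorm 𝔮 : ℝ) * T ^ Module.finrank ℚ K) ^ (-(c * δ)))) := by
        refine mul_le_mul_of_nonneg_left ?_ (by linarith)
        exact mul_le_mul_of_nonneg_right h4 h5
    _ = _ := by ring

/-- the crude bound is small -/
lemma crude_small {N T X h c δ H : ℝ} {d : ℕ} (hN : 2 ≤ N) (hT : 1 ≤ T) (hd : 2 ≤ d)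
    (hX : X = N * T ^ d) (hh : X ^ h ≤ N) (hh1 : h ≤ 1) (hc0 : 0 < c) (hc : c < 2 * h - 1)
    (_hδ0 : 0 ≤ δ) (hδ : δ ≤ 1 / 2) (hH : 1 ≤ H) :
    T ^ 2 ≤ 2 * (N * H * Real.log X * X ^ (-(c * δ))) := by
  have hTd : T ^ 2 ≤ T ^ d := pow_le_pow_right₀ hT hd
  have hTd1 : 1 ≤ T ^ d := one_le_pow₀ hT
  have hX2 : 2 ≤ X := by rw [hX]; nlinarith
  have hX0 : 0 < X := by linarith
  have hX1 : 1 ≤ X := by linarith
  have hlog : 1 / 2 ≤ Real.log X := by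
    have h1 : Real.log 2 ≤ Real.log X := Real.log_le_log (by norm_num) hX2
    have h2 := Real.log_two_gt_d9
    linarith
  -- T ^ d ≤ X ^ (1 - h)
  have h1 : T ^ d ≤ X ^ (1 - h) := by
    rw [Real.rpow_sub hX0, Real.rpow_one, le_div_iff₀ (Real.rpow_pos_of_pos hX0 _)]
    calc T ^ d * X ^ h ≤ T ^ d * N := mul_le_mul_of_nonneg_left hh (by positivity)
      _ = X := by rw [hX]; ring
  have h2 : X ^ (1 - h) ≤ X ^ (h - c / 2) :=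
    Real.rpow_le_rpow_of_exponent_le hX1 (by linarith)
  have h3 : X ^ (h - c / 2) ≤ N * X ^ (-(c * δ)) := by
    have e1 : X ^ (h - c / 2) = X ^ h * X ^ (-(c / 2)) := by
      rw [← Real.rpow_add hX0]
      congr 1
    rw [e1]
    have e2 : X ^ (-(c / 2)) ≤ X ^ (-(c * δ)) :=
      Real.rpow_le_rpow_of_exponent_le hX1 (by nlinarith)
    exact mul_le_mul hh e2 (by positivity) (by linarith)
  have h4 : 0 ≤ N * X ^ (-(c * δ)) := by positivity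
  have h5 : 1 ≤ 2 * (H * Real.log X) := by nlinarith
  calc T ^ 2 ≤ N * X ^ (-(c * δ)) := hTd.trans (h1.trans (h2.trans h3))
    _ ≤ (N * X ^ (-(c * δ))) * (2 * (H * Real.log X)) := le_mul_of_one_le_right h4 h5
    _ = _ := by ring

/-- **the density bound for all the characters of a type modulo `𝔮`** -/
theorem prod_den (K : Type) [Field K] [NumberField K] {n : (K →+* ℂ) → ℕ} (hn : CTyp n)
    (hn0 : n ≠ 0) (h c : ℝ) (hh1 : h ≤ 1) (hc0 : 0 < c) (hc : c < 2 * h - 1) :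
    ∃ A : ℝ, 1 ≤ A ∧ ∀ (𝔮 : Ideal (𝓞 K)) (_ : 𝔮 ≠ ⊥) (htop : 𝔮 ≠ ⊤) (T H : ℝ), 1 ≤ H → H ≤ T →
      ((Ideal.absNorm 𝔮 : ℝ) * T ^ Module.finrank ℚ K) ^ h ≤ (Ideal.absNorm 𝔮 : ℝ) →
      ∀ J : Finset (Mq 𝔮 →* ℂˣ), (∀ F ∈ J, F ∈ Dn n htop) →
      ∀ L : (Mq 𝔮 →* ℂˣ) → ℂ → ℂ,
      (∀ F ∈ J, Differentiable ℂ (L F) ∧ ∀ s : ℂ, 1 < s.re → L F s = LI (ofM' htop F) s) →
      ∀ t₁ : ℝ, |t₁| ≤ T → ∀ δ : ℝ, 0 ≤ δ →
      ∑ F ∈ J, ((cnt (L F) (wr t₁ H δ) : ℝ) + (cnt (cf (L F)) (wr t₁ H δ) : ℝ)) ≤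
        A * ((Ideal.absNorm 𝔮 : ℝ) * H *
          Real.log ((Ideal.absNorm 𝔮 : ℝ) * T ^ Module.finrank ℚ K) *
          ((Ideal.absNorm 𝔮 : ℝ) * T ^ Module.finrank ℚ K) ^ (-(c * δ))) ∧
      (1 ≤ t₁ → ∑ F ∈ J, ((cnt (L F) (wl t₁ H δ) : ℝ) + (cnt (cf (L F)) (wl t₁ H δ) : ℝ)) ≤
        A * ((Ideal.absNorm 𝔮 : ℝ) * H *
          Real.log ((Ideal.absNorm 𝔮 : ℝ) * T ^ Module.finrank ℚ K) *
          ((Ideal.absNorm 𝔮 : ℝ) * T ^ Module.finrank ℚ K) ^ (-(c * δ)))) := by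
  classical
  obtain ⟨A₁, hA₁, H1⟩ := fam_den K hn h c hh1 hc0 hc
  obtain ⟨A₂, hA₂, H2⟩ := fam_den K (CTyp_nc hn) h c hh1 hc0 hc
  obtain ⟨B, hB0, hB⟩ := dn0_box (K := K) hn hn0
  obtain ⟨h₀, hh₀⟩ : ∃ h₀ : ℝ, h₀ = (hK K : ℝ) := ⟨_, rfl⟩
  have hh0 : 0 ≤ h₀ := by rw [hh₀]; exact Nat.cast_nonneg _
  have hd2 := two_le_deg hn hn0
  refine ⟨A₁ + A₂ + h₀ * (2 * (B * 2)), by nlinarith [mul_nonneg hh0 hB0], ?_⟩
  intro 𝔮 hbot htop T H hH hHT hX J hJ L hL t₁ ht₁ δ hδ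
  have hT : 1 ≤ T := hH.trans hHT
  obtain ⟨X, hXd⟩ : ∃ X : ℝ, X = (Ideal.absNorm 𝔮 : ℝ) * T ^ Module.finrank ℚ K := ⟨_, rfl⟩
  have hN2 : (2 : ℝ) ≤ (Ideal.absNorm 𝔮 : ℝ) := by
    exact_mod_cast Pool.Agent.N784.CZ.two_le_absNorm hbot htop
  have H1' := H1 𝔮 hbot htop T H hH hHT hX
  have H2' := H2 𝔮 hbot htop T H hH hHT hX
  rw [← hXd] at hX H1' H2' ⊢
  obtain ⟨Y, hY⟩ : ∃ Y : ℝ, Y = (Ideal.absNorm 𝔮 : ℝ) * H * Real.log X * X ^ (-(c * δ)) := ⟨_, rfl⟩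
  rw [← hY]
  have hX1 : 1 ≤ X := by
    rw [hXd]
    exact one_le_mul_of_one_le_of_one_le (by linarith) (one_le_pow₀ hT)
  have hY0 : 0 ≤ Y := by
    rw [hY]
    have := Real.log_nonneg hX1
    positivity
  -- far from the line there is nothing
  by_cases hδ1 : 1 / 2 < δ
  · have e1 : wr t₁ H δ = ∅ := by
      ext s
      simp only [wr, Set.mem_ofPred_eq, Set.mem_empty_iff_false, iff_false]
      rintro ⟨a, b, -⟩
      linarith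
    have e2 : wl t₁ H δ = ∅ := by
      ext s
      simp only [wl, Set.mem_ofPred_eq, Set.mem_empty_iff_false, iff_false]
      rintro ⟨a, b, -⟩
      linarith
    have e3 : ∀ f : ℂ → ℂ, cnt f ∅ = 0 := by
      intro f
      unfold cnt
      simp
    have hA0 : 0 ≤ A₁ + A₂ + h₀ * (2 * (B * 2)) := by nlinarith [mul_nonneg hh0 hB0]
    rw [e1, e2]
    simp only [e3, Nat.cast_zero, add_zero, Finset.sum_const_zero]
    exact ⟨by positivity, fun _ => by positivity⟩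
  push Not at hδ1
  have hcr : T ^ 2 ≤ 2 * Y := by
    rw [hY]
    exact crude_small hN2 hT hd2 hXd hX hh1 hc0 hc hδ hδ1 hH
  -- the characters of conductor one and the others
  obtain ⟨J0, hJ0⟩ : ∃ J0 : Finset (Mq 𝔮 →* ℂˣ), J0 = J.filter (fun F => F ∈ Dn0 n 𝔮) := ⟨_, rfl⟩
  obtain ⟨J1, hJ1⟩ : ∃ J1 : Finset (Mq 𝔮 →* ℂˣ), J1 = J.filter (fun F => ¬ F ∈ Dn0 n 𝔮) := ⟨_, rfl⟩
  have hsplit : ∀ g : (Mq 𝔮 →* ℂˣ) → ℝ, ∑ F ∈ J, g F = ∑ F ∈ J0, g F + ∑ F ∈ J1, g F := by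
    intro g
    rw [hJ0, hJ1, Finset.sum_filter_add_sum_filter_not]
  have hJ0c : (J0.card : ℝ) ≤ h₀ := by
    have h1 : J0.card ≤ hK K := by
      refine le_trans ?_ (Dn0_card (n := n) hbot htop)
      rw [← Set.ncard_coe_finset]
      refine Set.ncard_le_ncard (fun F hF => ?_)
        ((Dn_card_le (n := n) hbot htop).1.subset (Dn0_sub htop))
      rw [Finset.mem_coe, hJ0, Finset.mem_filter] at hF
      exact hF.2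
    rw [hh₀]
    exact_mod_cast h1
  have hbox : ∀ W : Set ℂ, W ⊆ bx T →
      ∑ F ∈ J0, ((cnt (L F) W : ℝ) + (cnt (cf (L F)) W : ℝ)) ≤ h₀ * (2 * (B * 2)) * Y := by
    intro W hW
    calc ∑ F ∈ J0, ((cnt (L F) W : ℝ) + (cnt (cf (L F)) W : ℝ))
        ≤ ∑ F ∈ J0, (2 * (B * T ^ 2)) := by
          refine Finset.sum_le_sum fun F hF => ?_
          rw [hJ0, Finset.mem_filter] at hF
          obtain ⟨k1, k2⟩ := hL F hF.1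
          obtain ⟨k3, k4⟩ := hB 𝔮 hbot htop F hF.2 (L F) k1 k2 T hT W hW
          linarith
      _ = (J0.card : ℝ) * (2 * (B * T ^ 2)) := by rw [Finset.sum_const, nsmul_eq_mul]
      _ ≤ h₀ * (2 * (B * T ^ 2)) := mul_le_mul_of_nonneg_right hJ0c (by positivity)
      _ ≤ h₀ * (2 * (B * (2 * Y))) := by gcongr
      _ = _ := by ring
  -- the primitive characters
  have hexP : ∀ F : Mq 𝔮 →* ℂˣ, ∃ ψ : Ideal (𝓞 K) →*₀ ℂ, F ∈ J1 → ψ ∈ FamN n 𝔮 ∧ tM 𝔮 ψ = F := by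
    intro F
    by_cases hF : F ∈ J1
    · rw [hJ1, Finset.mem_filter] at hF
      rcases dn_cases hbot htop (hJ F hF.1) with h | ⟨ψ, h2, h3⟩
      · exact absurd h hF.2
      · exact ⟨ψ, fun _ => ⟨h2, h3⟩⟩
    · exact ⟨Pool.Agent.Y773.IQ.ofM' htop F, fun h => absurd h hF⟩
  choose P hP using hexP
  have hPinj : Set.InjOn P (J1 : Set (Mq 𝔮 →* ℂˣ)) := by
    intro F hF F' hF' h
    rw [← (hP F hF).2, h, (hP F' hF').2]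
  obtain ⟨Fs, hFs⟩ : ∃ Fs : Finset (Ideal (𝓞 K) →*₀ ℂ), Fs = J1.image P := ⟨_, rfl⟩
  have hFm : ∀ ψ ∈ Fs, ψ ∈ FamN n 𝔮 := by
    intro ψ hψ
    rw [hFs, Finset.mem_image] at hψ
    obtain ⟨F, h1, rfl⟩ := hψ
    exact (hP F h1).1
  have hmain : ∀ W : Set ℂ, W ⊆ bx T →
      ∑ F ∈ J1, ((cnt (L F) W : ℝ) + (cnt (cf (L F)) W : ℝ)) =
      ∑ ψ ∈ Fs, (cnt (LL K ψ) W : ℝ) + ∑ ψ ∈ Fs.image cc', (cnt (LL K ψ) W : ℝ) := by
    intro W hW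
    rw [Finset.sum_image (fun a _ b _ h => cc'_inj h), hFs, Finset.sum_image hPinj,
      Finset.sum_image hPinj, ← Finset.sum_add_distrib]
    refine Finset.sum_congr rfl fun F hF => ?_
    obtain ⟨k1, k2⟩ := hP F hF
    have hFJ : F ∈ J := by
      rw [hJ1, Finset.mem_filter] at hF
      exact hF.1
    obtain ⟨m1, m2⟩ := hL F hFJ
    obtain ⟨l1, l2⟩ := LL_fam hn k1
    have := cnt_tM hbot htop k1 (L := L F) m1 (by rw [k2]; exact m2) l1 l2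
      (W := W) (fun s hs => (hW hs).1)
    rw [this.1, this.2]
  have hFm' : ∀ ψ ∈ Fs.image cc', ψ ∈ FamN (nc n) 𝔮 := by
    intro ψ hψ
    obtain ⟨ψ', h1, rfl⟩ := Finset.mem_image.mp hψ
    rw [FamN_cc']
    exact ⟨ψ', hFm ψ' h1, rfl⟩
  have q1 := H1' Fs hFm t₁ ht₁ δ hδ
  have q2 := H2' (Fs.image cc') hFm' t₁ ht₁ δ hδ
  rw [← hY] at q1 q2
  constructor
  · have hW := wr_bx (t₁ := t₁) (H := H) (δ := δ) hHT ht₁ hδ
    rw [hsplit, hmain _ hW]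
    have := hbox _ hW
    linarith
  · intro ht1
    have hW := wl_bx (t₁ := t₁) (H := H) (δ := δ) hHT ht₁ hδ
    rw [hsplit, hmain _ hW]
    have := hbox _ hW
    have e1 : ∑ ψ ∈ Fs, (cnt (LL K ψ) (wl t₁ H δ) : ℝ) = ∑ ψ ∈ Fs, (cnt (LL K ψ) (wr t₁ H δ) : ℝ) := by
      refine Finset.sum_congr rfl fun ψ hψ => ?_
      rw [cnt_refl (LL_fam hn (hFm ψ hψ)).1 (LL_symm hn hn0 (hFm ψ hψ)) ht1 hδ]
    have e2 : ∑ ψ ∈ Fs.image cc', (cnt (LL K ψ) (wl t₁ H δ) : ℝ) =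
        ∑ ψ ∈ Fs.image cc', (cnt (LL K ψ) (wr t₁ H δ) : ℝ) := by
      refine Finset.sum_congr rfl fun ψ hψ => ?_
      rw [cnt_refl (LL_fam (CTyp_nc hn) (hFm' ψ hψ)).1
        (LL_symm (CTyp_nc hn) (nc_ne hn0) (hFm' ψ hψ)) ht1 hδ]
    rw [e1, e2]
    linarith

end Pool.Agent.Helper92.CM
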