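import Pool.Agent.Helper92.CM.Glue
import Pool.Agent.Helper92.CM.Dens

/-!
# The density of the zeros of `L(E/K, s)`, `K` an abelian extension of a number field `M`, `E` with
complex multiplication defined over `M` (helper92)
-/

set_option autoImplicit false
set_option linter.unusedSectionVars false

open NumberField Complex Filter Topology Set IsDedekindDomain

namespace Pool.Agent.Helper92.CM

open Pool.Agent.Y773 (TPos LI)
open Pool.Agent.Y767 (Mq Cls cls eq_of_LI finite_dual card_dual)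
open Pool.Agent.Y773.IQ (ofM' tM LL LL_eq absNorm_pos')
open Pool.Agent.N784.HC
open Pool.Agent.N784.AD (pi1 Un one_le_Un cls_card_le hK)
open Pool.Agent.N784.CZ
open Pool.Agent.N833.CZ (norm_ofM'_le)
open H370 (mult)
open Pool.Agent.H82R3.EK (cnt cnt_eq_sum cnt_prod)
open Pool.Agent.W164.RC (lpoly cnt_mul)

section
variable {M : Type} [Field M] [NumberField M] {a b : ℤ} {n : (M →+* ℂ) → ℕ}
    {𝔪 : Ideal (𝓞 M)} {ψ : Ideal (𝓞 M) → ℂ} {𝔮 : Ideal (𝓞 M)} {K : Type} [Field K]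
    [NumberField K] {ι : 𝓞 M →+* 𝓞 K} {art : Ideal (𝓞 M) → (𝓞 K ≃+* 𝓞 K)}

/-- a prime of `M` above two -/
theorem IsCM.ne_top (h : IsCM a b n 𝔪 ψ) : 𝔪 ≠ ⊤ := by
  have h2 : Ideal.span {(2 : 𝓞 M)} ≠ ⊤ := (span_two M).2
  obtain ⟨𝔭, h3, h4⟩ := Ideal.exists_le_maximal _ h2
  have h5 : (2 : 𝓞 M) ∈ 𝔭 := h4 (Ideal.mem_span_singleton_self _)
  have h6 := h.bad 𝔭 h3.isPrime (Ideal.mul_mem_right _ _ h5)
  intro h7
  rw [h7, top_le_iff] at h6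
  exact h3.ne_top h6

open Classical in
/-- the characters and their L-functions -/
theorem ab_fun (h : IsCM a b n 𝔪 ψ) (hbot : 𝔮 ≠ ⊥) (htop : 𝔮 ≠ ⊤) (hle : 𝔮 ≤ 𝔪)
    (H : IsAb 𝔮 K ι art) :
    ∃ (J : Finset (Mq 𝔮 →* ℂˣ)) (L : (Mq 𝔮 →* ℂˣ) → ℂ → ℂ), (∀ F ∈ J, F ∈ Dn n htop) ∧
      J.card = Nat.card (GQ hbot htop H) ∧
      (∀ F ∈ J, Differentiable ℂ (L F) ∧ ∀ s : ℂ, 1 < s.re → L F s = LI (ofM' htop F) s) ∧
      ∀ s : ℂ, 3 / 2 < s.re → HasProd (fun v : HeightOneSpectrum (𝓞 K) =>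
        if 𝔮.map ι ≤ v.asIdeal then 1 else (lpoly (trv a b v) 1 (Ideal.absNorm v.asIdeal) s)⁻¹)
        (∏ F ∈ J, (L F (s - 1 / 2) * cf (L F) (s - 1 / 2))) := by
  obtain ⟨F₁, hF₁d⟩ : ∃ F₁ : Mq 𝔮 →* ℂˣ, F₁ = h.F hbot htop hle := ⟨_, rfl⟩
  have hF₁ : F₁ ∈ Dn n htop := by rw [hF₁d]; exact h.F_mem hbot htop hle
  have hfQ := finite_GQ hbot htop H
  have hfD := finite_dual (GQ hbot htop H)
  have hftD := Fintype.ofFinite (GQ hbot htop H →* ℂˣ)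
  have hex : ∀ F : Mq 𝔮 →* ℂˣ, ∃ L : ℂ → ℂ, F ∈ Dn n htop → (Differentiable ℂ L ∧
      ∀ s : ℂ, 1 < s.re → L s = LI (ofM' htop F) s) := by
    intro F
    by_cases h' : F ∈ Dn n htop
    · obtain ⟨L, h1, h2⟩ := ent_of h.ctyp h.ne hbot htop h'
      exact ⟨L, fun _ => ⟨h1, h2⟩⟩
    · exact ⟨fun _ => 0, fun h'' => absurd h'' h'⟩
  choose L hL using hex
  have hmem := tw_mem hbot htop H hF₁
  have hJm : ∀ F ∈ (Finset.univ.image (tw hbot htop H F₁)), F ∈ Dn n htop := by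
    intro F hF
    obtain ⟨lam, -, rfl⟩ := Finset.mem_image.mp hF
    exact hmem lam
  refine ⟨Finset.univ.image (tw hbot htop H F₁), L, hJm, ?_, fun F hF => hL F (hJm F hF), ?_⟩
  · rw [Finset.card_image_of_injective _ (tw_inj hbot htop H F₁), Finset.card_univ,
      ← Nat.card_eq_fintype_card, card_dual]
  · intro s hs
    have h1 := ab_glue h hbot htop hle H s hs
    rw [← hF₁d, finprod_eq_prod_of_fintype] at h1
    rw [Finset.prod_image (fun a _ b _ h => tw_inj hbot htop H F₁ h)]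
    have e0 : ∏ lam : GQ hbot htop H →* ℂˣ, (L (tw hbot htop H F₁ lam) (s - 1 / 2) *
        cf (L (tw hbot htop H F₁ lam)) (s - 1 / 2)) = ∏ lam : GQ hbot htop H →* ℂˣ,
        (LI (ofM' htop (tw hbot htop H F₁ lam)) (s - 1 / 2) *
          (starRingEnd ℂ) (LI (ofM' htop (tw hbot htop H F₁ lam))
            ((starRingEnd ℂ) s - 1 / 2))) := ?_
    · rw [e0]
      exact h1
    refine Finset.prod_congr rfl fun lam _ => ?_
    have hF' := hmem lam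
    have e1 : 1 < (s - 1 / 2).re := by
      have : (s - 1 / 2).re = s.re - 1 / 2 := by simp
      rw [this]; linarith
    have e3 : (starRingEnd ℂ) (s - 1 / 2) = (starRingEnd ℂ) s - 1 / 2 := by
      rw [map_sub, map_div₀, map_one, map_ofNat]
    have e2 : 1 < ((starRingEnd ℂ) s - 1 / 2).re := by
      rw [← e3, Complex.conj_re]; exact e1
    unfold cf
    rw [e3, (hL _ hF').2 _ e1, (hL _ hF').2 _ e2]

/-- the product -/
noncomputable def GG (J : Finset (Mq 𝔮 →* ℂˣ)) (L : (Mq 𝔮 →* ℂˣ) → ℂ → ℂ) (s : ℂ) : ℂ :=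
  ∏ F ∈ J, (L F s * cf (L F) s)

theorem GG_diff (htop : 𝔮 ≠ ⊤) (J : Finset (Mq 𝔮 →* ℂˣ)) (L : (Mq 𝔮 →* ℂˣ) → ℂ → ℂ)
    (hL : ∀ F ∈ J, Differentiable ℂ (L F) ∧ ∀ s : ℂ, 1 < s.re → L F s = LI (ofM' htop F) s) :
    Differentiable ℂ (GG J L) := by
  unfold GG
  exact Differentiable.fun_finsetProd fun F hF => (hL F hF).1.mul (cf_diff (hL F hF).1)

theorem GG_ne (hn : CTyp n) (hn0 : n ≠ 0) (hbot : 𝔮 ≠ ⊥) (htop : 𝔮 ≠ ⊤)
    (J : Finset (Mq 𝔮 →* ℂˣ)) (L : (Mq 𝔮 →* ℂˣ) → ℂ → ℂ) (hJ : ∀ F ∈ J, F ∈ Dn n htop)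
    (hL : ∀ F ∈ J, Differentiable ℂ (L F) ∧ ∀ s : ℂ, 1 < s.re → L F s = LI (ofM' htop F) s)
    (s : ℂ) (hs : 1 ≤ s.re) : GG J L s ≠ 0 := by
  unfold GG
  rw [Finset.prod_ne_zero_iff]
  intro F hF
  refine mul_ne_zero (nv_Dn hn hn0 hbot htop (hJ F hF) (hL F hF).1 (hL F hF).2 hs) ?_
  unfold cf
  rw [map_ne_zero]
  exact nv_Dn hn hn0 hbot htop (hJ F hF) (hL F hF).1 (hL F hF).2 (by rw [Complex.conj_re]; exact hs)

/-- the zeros of the product -/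
theorem GG_cnt (hn : CTyp n) (hn0 : n ≠ 0) (hbot : 𝔮 ≠ ⊥) (htop : 𝔮 ≠ ⊤)
    (J : Finset (Mq 𝔮 →* ℂˣ)) (L : (Mq 𝔮 →* ℂˣ) → ℂ → ℂ) (hJ : ∀ F ∈ J, F ∈ Dn n htop)
    (hL : ∀ F ∈ J, Differentiable ℂ (L F) ∧ ∀ s : ℂ, 1 < s.re → L F s = LI (ofM' htop F) s)
    {W : Set ℂ} {R : ℝ} (hW : ∀ s ∈ W, ‖s‖ ≤ R) :
    cnt (GG J L) W = ∑ F ∈ J, (cnt (L F) W + cnt (cf (L F)) W) := by
  have hne : ∀ F ∈ J, L F 2 ≠ 0 := fun F hF =>
    nv_Dn hn hn0 hbot htop (hJ F hF) (hL F hF).1 (hL F hF).2 (by norm_num)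
  have hne' : ∀ F ∈ J, cf (L F) 2 ≠ 0 := by
    intro F hF
    unfold cf
    rw [Ne, map_eq_zero, map_ofNat]
    exact hne F hF
  have hd : ∀ F ∈ J, Differentiable ℂ (L F) := fun F hF => (hL F hF).1
  have hd' : ∀ F ∈ J, Differentiable ℂ (cf (L F)) := fun F hF => cf_diff (hd F hF)
  have hone : ∀ F ∈ J, cnt (fun s => L F s * cf (L F) s) W = cnt (L F) W + cnt (cf (L F)) W := by
    intro F hF
    exact cnt_mul (fun s _ => (hd F hF).analyticAt s) (fun s _ => (hd' F hF).analyticAt s)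
      (fun s _ => Pool.Agent.N784.CZ.order_ne_top (hd F hF) (hne F hF) s)
      (fun s _ => Pool.Agent.N784.CZ.order_ne_top (hd' F hF) (hne' F hF) s)
      (zeros_bdd (hd F hF) (hne F hF) hW) (zeros_bdd (hd' F hF) (hne' F hF) hW)
  have hdm : ∀ F ∈ J, Differentiable ℂ (fun s => L F s * cf (L F) s) := fun F hF =>
    (hd F hF).mul (hd' F hF)
  have hnem : ∀ F ∈ J, (fun s => L F s * cf (L F) s) 2 ≠ 0 := fun F hF =>
    mul_ne_zero (hne F hF) (hne' F hF)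
  have h0 : GG J L = fun s => ∏ F ∈ J, (fun s => L F s * cf (L F) s) s := rfl
  rw [h0, cnt_prod J (fun F s => L F s * cf (L F) s) (fun F hF s _ => (hdm F hF).analyticAt s)
      (fun F hF s _ => Pool.Agent.N784.CZ.order_ne_top (hdm F hF) (hnem F hF) s)
      (fun F hF => zeros_bdd (hdm F hF) (hnem F hF) hW)]
  exact Finset.sum_congr rfl hone

end

/-- the window to the right of the line `Re s = 1` -/
def vr (t₁ H δ : ℝ) : Set ℂ := {s : ℂ | 1 + δ ≤ s.re ∧ t₁ ≤ s.im ∧ s.im ≤ t₁ + H}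

/-- the window outside a neighbourhood of the line `Re s = 1` -/
def vv (t₁ H δ : ℝ) : Set ℂ := {s : ℂ | 1 / 2 < s.re ∧ δ ≤ |s.re - 1| ∧ t₁ ≤ s.im ∧ s.im ≤ t₁ + H}

/-- counting in a union -/
lemma cnt_union_le {f : ℂ → ℂ} {V W : Set ℂ} (hV : {s : ℂ | s ∈ V ∧ f s = 0}.Finite)
    (hW : {s : ℂ | s ∈ W ∧ f s = 0}.Finite) : cnt f (V ∪ W) ≤ cnt f V + cnt f W := by
  classical
  unfold cnt
  have h1 : {s : ℂ | s ∈ V ∪ W ∧ f s = 0} = {s : ℂ | s ∈ V ∧ f s = 0} ∪ {s : ℂ | s ∈ W ∧ f s = 0} := by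
    ext s
    constructor
    · rintro ⟨h1 | h1, h2⟩
      · exact Or.inl ⟨h1, h2⟩
      · exact Or.inr ⟨h1, h2⟩
    · rintro (⟨h1, h2⟩ | ⟨h1, h2⟩)
      · exact ⟨Or.inl h1, h2⟩
      · exact ⟨Or.inr h1, h2⟩
  rw [h1, finsum_mem_eq_finite_toFinset_sum _ (hV.union hW),
    finsum_mem_eq_finite_toFinset_sum _ hV, finsum_mem_eq_finite_toFinset_sum _ hW,
    Set.Finite.toFinset_union, ← Finset.sum_union_inter]
  exact Nat.le_add_right _ _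

/-- **the density of the zeros of `L(E/K, s)`** -/
theorem cm_dens (M : Type) [Field M] [NumberField M] (n : (M →+* ℂ) → ℕ) (hn : CTyp n)
    (hn0 : n ≠ 0) (h c : ℝ) (hh1 : h ≤ 1) (hc0 : 0 < c) (hc : c < 2 * h - 1) :
    ∃ A : ℝ, 1 ≤ A ∧ ∀ (a b : ℤ) (𝔪 : Ideal (𝓞 M)) (ψ : Ideal (𝓞 M) → ℂ), IsCM a b n 𝔪 ψ →
    ∀ 𝔮 : Ideal (𝓞 M), 𝔮 ≠ ⊥ → 𝔮 ≤ 𝔪 →
    ∀ (K : Type) [Field K] [NumberField K] (ι : 𝓞 M →+* 𝓞 K)
      (art : Ideal (𝓞 M) → (𝓞 K ≃+* 𝓞 K)), IsAb 𝔮 K ι art →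
    ∃ G : ℂ → ℂ, Differentiable ℂ G ∧
      (∀ s : ℂ, 3 / 2 < s.re → HasProd (open Classical in fun v : HeightOneSpectrum (𝓞 K) =>
        if 𝔮.map ι ≤ v.asIdeal then 1
        else (lpoly (trv a b v) 1 (Ideal.absNorm v.asIdeal) s)⁻¹) (G s)) ∧
      (∀ s : ℂ, 3 / 2 ≤ s.re → G s ≠ 0) ∧
      ∀ T H : ℝ, 1 ≤ H → H ≤ T →
      ((Ideal.absNorm 𝔮 : ℝ) * T ^ Module.finrank ℚ M) ^ h ≤ (Ideal.absNorm 𝔮 : ℝ) →
      ∀ t₁ : ℝ, |t₁| ≤ T → ∀ δ : ℝ, 0 ≤ δ →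
        (cnt G (vr t₁ H δ) : ℝ) ≤ A * ((Ideal.absNorm 𝔮 : ℝ) * H *
          Real.log ((Ideal.absNorm 𝔮 : ℝ) * T ^ Module.finrank ℚ M) *
          ((Ideal.absNorm 𝔮 : ℝ) * T ^ Module.finrank ℚ M) ^ (-(c * δ))) ∧
        (1 ≤ t₁ → (cnt G (vv t₁ H δ) : ℝ) ≤ A * ((Ideal.absNorm 𝔮 : ℝ) * H *
          Real.log ((Ideal.absNorm 𝔮 : ℝ) * T ^ Module.finrank ℚ M) *
          ((Ideal.absNorm 𝔮 : ℝ) * T ^ Module.finrank ℚ M) ^ (-(c * δ)))) := by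
  classical
  obtain ⟨A, hA, hden⟩ := prod_den M hn hn0 h c hh1 hc0 hc
  refine ⟨2 * A, by linarith, ?_⟩
  intro a b 𝔪 ψ hcm 𝔮 hbot hle K _ _ ι art HK
  have htop : 𝔮 ≠ ⊤ := fun h => hcm.ne_top (top_le_iff.mp (by rw [← h]; exact hle))
  obtain ⟨J, L, hJ, -, hL, hprod⟩ := ab_fun hcm hbot htop hle HK
  have hGd := GG_diff htop J L hL
  have hGne := GG_ne hn hn0 hbot htop J L hJ hL
  have hre : ∀ s : ℂ, (s - 1 / 2).re = s.re - 1 / 2 := fun s => by simp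
  have him : ∀ s : ℂ, (s - 1 / 2).im = s.im := fun s => by simp
  refine ⟨fun s => GG J L (s - 1 / 2), hGd.comp (differentiable_id.sub_const _), hprod, ?_, ?_⟩
  · intro s hs
    exact hGne _ (by rw [hre]; linarith)
  intro T H hH hHT hX t₁ ht₁ δ hδ
  have hT : 1 ≤ T := hH.trans hHT
  obtain ⟨q1, q2⟩ := hden 𝔮 hbot htop T H hH hHT hX J hJ L hL t₁ ht₁ δ hδ
  obtain ⟨Y, hY⟩ : ∃ Y : ℝ, Y = (Ideal.absNorm 𝔮 : ℝ) * H *
    Real.log ((Ideal.absNorm 𝔮 : ℝ) * T ^ Module.finrank ℚ M) *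
    ((Ideal.absNorm 𝔮 : ℝ) * T ^ Module.finrank ℚ M) ^ (-(c * δ)) := ⟨_, rfl⟩
  rw [← hY] at q1 q2 ⊢
  have hN1 : (1 : ℝ) ≤ (Ideal.absNorm 𝔮 : ℝ) := by exact_mod_cast absNorm_pos' hbot
  have hX1 : 1 ≤ (Ideal.absNorm 𝔮 : ℝ) * T ^ Module.finrank ℚ M :=
    one_le_mul_of_one_le_of_one_le hN1 (one_le_pow₀ hT)
  have hY0 : 0 ≤ Y := by
    rw [hY]
    have := Real.log_nonneg hX1
    positivity
  have hWr := wr_bx (t₁ := t₁) (H := H) (δ := δ) hHT ht₁ hδ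
  have hWl := wl_bx (t₁ := t₁) (H := H) (δ := δ) hHT ht₁ hδ
  have hbr : ∀ s ∈ wr t₁ H δ, ‖s‖ ≤ 1 + 2 * T := fun s hs => bx_bdd s (hWr hs)
  have hbl : ∀ s ∈ wl t₁ H δ, ‖s‖ ≤ 1 + 2 * T := fun s hs => bx_bdd s (hWl hs)
  have hG2 : GG J L 2 ≠ 0 := hGne 2 (by norm_num)
  have hcr : (cnt (GG J L) (wr t₁ H δ) : ℝ) ≤ A * Y := by
    rw [GG_cnt hn hn0 hbot htop J L hJ hL hbr]
    push_cast
    exact q1
  have hk1 : cnt (fun s => GG J L (s - 1 / 2)) (vr t₁ H δ) = cnt (GG J L) (wr t₁ H δ) := by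
    apply cnt_shift
    intro s
    refine ⟨fun ⟨⟨b1, b2, b3⟩, b4⟩ => ⟨⟨?_, ?_, ?_, ?_⟩, b4⟩, fun ⟨⟨b1, b2, b3, b4⟩, b5⟩ =>
      ⟨⟨?_, ?_, ?_⟩, b5⟩⟩
    · rw [hre]; linarith
    · by_contra hcon
      exact hGne _ (not_lt.mp hcon) b4
    · rw [him]; exact b2
    · rw [him]; exact b3
    · rw [hre] at b1; linarith
    · rw [him] at b3; exact b3
    · rw [him] at b4; exact b4
  constructor
  · rw [hk1]
    nlinarith
  · intro ht1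
    have hcl : (cnt (GG J L) (wl t₁ H δ) : ℝ) ≤ A * Y := by
      rw [GG_cnt hn hn0 hbot htop J L hJ hL hbl]
      push_cast
      exact q2 ht1
    have hk2 : cnt (fun s => GG J L (s - 1 / 2)) (vv t₁ H δ) =
        cnt (GG J L) (wl t₁ H δ ∪ wr t₁ H δ) := by
      apply cnt_shift
      intro s
      constructor
      · rintro ⟨⟨b1, b2, b3, b4⟩, b5⟩
        refine ⟨?_, b5⟩
        rcases le_total 1 s.re with h1 | h1
        · right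
          rw [abs_of_nonneg (by linarith)] at b2
          refine ⟨by rw [hre]; linarith, ?_, by rw [him]; exact b3, by rw [him]; exact b4⟩
          by_contra hcon
          exact hGne _ (not_lt.mp hcon) b5
        · left
          rw [abs_of_nonpos (by linarith)] at b2
          exact ⟨by rw [hre]; linarith, by rw [hre]; linarith, by rw [him]; exact b3,
            by rw [him]; exact b4⟩
      · rintro ⟨⟨b1, b2, b3, b4⟩ | ⟨b1, b2, b3, b4⟩, b5⟩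
        · rw [hre] at b1 b2
          rw [him] at b3 b4
          refine ⟨⟨by linarith, ?_, b3, b4⟩, b5⟩
          rw [abs_of_nonpos (by linarith)]
          linarith
        · rw [hre] at b1 b2
          rw [him] at b3 b4
          refine ⟨⟨by linarith, ?_, b3, b4⟩, b5⟩
          rw [abs_of_nonneg (by linarith)]
          linarith
    rw [hk2]
    have h3 := cnt_union_le (f := GG J L) (zeros_bdd hGd hG2 hbl) (zeros_bdd hGd hG2 hbr)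
    have h4 : (cnt (GG J L) (wl t₁ H δ ∪ wr t₁ H δ) : ℝ) ≤
        (cnt (GG J L) (wl t₁ H δ) : ℝ) + (cnt (GG J L) (wr t₁ H δ) : ℝ) := by exact_mod_cast h3
    linarith

end Pool.Agent.Helper92.CM
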