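import Pool.Agent.N784.AD.Cl

/-!
# The order of the ray class group and the number of the residue classes of the units (helper92)
-/

set_option autoImplicit false

open NumberField

namespace Pool.Agent.Helper92.CM

open Pool.Agent.Y773 (TPos)
open Pool.Agent.Y767 (Mq Mq_cop Mq_cancel isUnit_mk Cls cls)
open Pool.Agent.N784.AD

section
variable {K : Type} [Field K] [NumberField K]

/-- `h_𝔮 U(𝔮) ≤ 2^r h φ(𝔮)` -/
theorem cls_mul_Un {𝔮 : Ideal (𝓞 K)} (hbot : 𝔮 ≠ ⊥) (htop : 𝔮 ≠ ⊤) :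
    Nat.card (Cls (pi1 htop)) * Un 𝔮 ≤ Nat.card (𝓞 K ⧸ 𝔮)ˣ * hK K := by
  classical
  have : Finite (𝓞 K ⧸ 𝔮) := Ideal.finiteQuotientOfFreeOfNeBot 𝔮 hbot
  choose 𝔞 h𝔞 using exists_rep hbot htop
  obtain ⟨𝔟, h𝔟⟩ := exists_reps htop
  choose x' y' hx' hp hy' hxy using fun c => cg_eq hbot htop (h𝔟 (𝔞 c)).symm
  obtain ⟨R, hR⟩ : ∃ R : Set (𝓞 K ⧸ 𝔮),
    R = Set.range (fun u : (𝓞 K)ˣ => Ideal.Quotient.mk 𝔮 (u : 𝓞 K)) := ⟨_, rfl⟩
  have hex : ∀ r : R, ∃ u : (𝓞 K)ˣ, Ideal.Quotient.mk 𝔮 (u : 𝓞 K) = r := by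
    rintro ⟨r, hr⟩
    rw [hR] at hr
    exact hr
  choose u hu using hex
  have hspan : ∀ c (r : R), Ideal.span {y' c * (u r : 𝓞 K)} = Ideal.span {y' c} :=
    fun c r => Ideal.span_singleton_mul_right_unit (u r).isUnit (y' c)
  have hcop : ∀ c (r : R), IsCoprime (Ideal.span {y' c * (u r : 𝓞 K)}) 𝔮 := by
    intro c r
    rw [hspan]
    exact hy' c
  have hinj : Function.Injective (fun z : Cls (pi1 htop) × R =>
      ((isUnit_mk (hcop z.1 z.2)).unit, cg htop (𝔞 z.1), sgn (y' z.1 * (u z.2 : 𝓞 K)))) := by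
    rintro ⟨c, r⟩ ⟨c', r'⟩ h
    obtain ⟨h1, h2⟩ := Prod.ext_iff.mp h
    obtain ⟨h2, h2s⟩ := Prod.ext_iff.mp h2
    have h1' : (isUnit_mk (hcop c r)).unit = (isUnit_mk (hcop c' r')).unit := h1
    have h2' : cg htop (𝔞 c) = cg htop (𝔞 c') := h2
    have h2s' : sgn (y' c * (u r : 𝓞 K)) = sgn (y' c' * (u r' : 𝓞 K)) := h2s
    have h3 : y' c * (u r : 𝓞 K) - y' c' * (u r' : 𝓞 K) ∈ 𝔮 := by
      rw [← Ideal.Quotient.eq, ← IsUnit.unit_spec (isUnit_mk (hcop c r)), h1', IsUnit.unit_spec]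
    have h4 := cls_congr hbot htop (hcop c r) (hcop c' r') h3 (sameSign_of_sgn h2s')
    have h5 : ∀ c (r : R), cls (pi1 htop) ⟨Ideal.span {y' c * (u r : 𝓞 K)}, hcop c r⟩ =
        cls (pi1 htop) ⟨Ideal.span {y' c}, hy' c⟩ := by
      intro c r
      congr 1
      exact Subtype.ext (hspan c r)
    rw [h5, h5] at h4
    have h6 : c = c' := by
      rw [← h𝔞 c, ← h𝔞 c', cls_same htop (hx' c) (hp c) (hy' c) (hxy c),
        cls_same htop (hx' c') (hp c') (hy' c') (hxy c'), h4, h2']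
    subst h6
    have h7 : Ideal.Quotient.mk 𝔮 (y' c) * Ideal.Quotient.mk 𝔮 (u r : 𝓞 K) =
        Ideal.Quotient.mk 𝔮 (y' c) * Ideal.Quotient.mk 𝔮 (u r' : 𝓞 K) := by
      rw [← map_mul, ← map_mul]
      exact (Ideal.Quotient.eq (I := 𝔮)).mpr h3
    have h8 := (isUnit_mk (hy' c)).mul_left_cancel h7
    rw [hu, hu] at h8
    rw [Subtype.ext h8]
  have hfin := Finite.of_injective _ hinj
  have h := Nat.card_le_card_of_injective _ hinj
  rw [Nat.card_prod, Nat.card_prod, Nat.card_prod] at h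
  have hU : Nat.card R = Un 𝔮 := by
    unfold Un
    rw [← hR, Nat.card_coe_set_eq]
  rw [hU] at h
  exact h

theorem card_units_le_norm {𝔮 : Ideal (𝓞 K)} (hbot : 𝔮 ≠ ⊥) :
    Nat.card (𝓞 K ⧸ 𝔮)ˣ ≤ Ideal.absNorm 𝔮 := by
  have : Finite (𝓞 K ⧸ 𝔮) := Ideal.finiteQuotientOfFreeOfNeBot 𝔮 hbot
  rw [Ideal.absNorm_apply, Submodule.cardQuot_apply]
  exact Nat.card_le_card_of_injective _ Units.val_injective

end

end Pool.Agent.Helper92.CM
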