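import Pool.Agent.Helper92.CM.Glue
import Pool.Agent.N492.CZ.G2
import Pool.Agent.N784.CZ.Ran

/-!
# The Hecke character of `y² = x³ - x` over the number fields containing `i` (helper92)
-/

set_option autoImplicit false

open NumberField IsDedekindDomain Complex

namespace Pool.Agent.Helper92.CM

open Pool.Agent.Y773 (TPos)
open Pool.Agent.Y767 (Mq Mq_cop)
open Pool.Agent.Y773.IQ (ofM' ofM'_pos cop_one)
open Pool.Agent.N784.AD (T1 pi1 pi1_coe)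
open Pool.Agent.N784.HC (Dn phT phT_coe ph)
open Pool.Agent.N784.CZ (tyi)
open Pool.Agent.H304R3.HK (tc tc_ne_zero tc_star_mul tc_re tc_im)
open H385 (nrm ZI)
open Pool.Agent.W164.RC (Ip Ip_spec Ip_exists dg dg_pos aD_roots)
open Pool.Agent.H921R2.TatePole (below deg nm nm_eq nm_summable two_le_nm)
open Pool.Agent.H82R3.EK (below_eq_of_mem luc luc_eq)
open Pool.Agent.N833.CZ (two_mem tc_star')

theorem ex_gauss (M : Type) [Field M] [NumberField M] (ι₀ : GaussianInt →+* 𝓞 M) :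
    ∃ (n : (M →+* ℂ) → ℕ) (ψ : Ideal (𝓞 M) → ℂ),
      (∀ φ : M →+* ℂ, n φ + n (ComplexEmbedding.conjugate φ) = 1) ∧
      (∀ 𝔞 𝔟 : Ideal (𝓞 M), IsCoprime 𝔞 (Ideal.span {ι₀ ⟨2, 2⟩}) →
        IsCoprime 𝔟 (Ideal.span {ι₀ ⟨2, 2⟩}) → ψ (𝔞 * 𝔟) = ψ 𝔞 * ψ 𝔟) ∧
      (∀ x : 𝓞 M, x - 1 ∈ Ideal.span {ι₀ ⟨2, 2⟩} → (∀ τ : M →+* ℝ, 0 < τ x) →
        ψ (Ideal.span {x}) = ∏ φ : M →+* ℂ, (φ x / (‖φ x‖ : ℂ)) ^ n φ) ∧
      (∀ 𝔭 : Ideal (𝓞 M), 𝔭.IsPrime →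
        (2 * (4 * ((-1 : ℤ) : 𝓞 M) ^ 3 + 27 * ((0 : ℤ) : 𝓞 M) ^ 2)) ∈ 𝔭 →
        Ideal.span {ι₀ ⟨2, 2⟩} ≤ 𝔭) ∧
      ∀ 𝔭 : Ideal (𝓞 M), 𝔭.IsPrime → 𝔭 ≠ ⊥ → IsCoprime 𝔭 (Ideal.span {ι₀ ⟨2, 2⟩}) →
        ((trc (𝓞 M ⧸ 𝔭) (-1) 0 : ℤ) : ℂ) = (Real.sqrt (Ideal.absNorm 𝔭) : ℂ) *
          (ψ 𝔭 + (starRingEnd ℂ) (ψ 𝔭)) := by
  classical
  have htop : Ideal.span {ι₀ ⟨2, 2⟩} ≠ ⊤ := Pool.Agent.N784.CZ.le_ne_top ι₀ le_rfl
  have h22 : ι₀ ⟨2, 2⟩ ≠ 0 := by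
    intro h
    have h1 : ι₀ (⟨2, 2⟩ * ⟨2, -2⟩) = 0 := by rw [map_mul, h, zero_mul]
    have h2 : (⟨2, 2⟩ * ⟨2, -2⟩ : GaussianInt) = ((8 : ℕ) : GaussianInt) := by decide
    rw [h2, map_natCast] at h1
    have h3 : (8 : ℕ) = 0 := by exact_mod_cast h1
    omega
  have hbot : Ideal.span {ι₀ ⟨2, 2⟩} ≠ ⊥ := by
    rw [Ne, Ideal.span_singleton_eq_bot]
    exact h22
  obtain ⟨F, hF, hv⟩ := Pool.Agent.N492.CZ.t_char M ι₀ _ hbot htop le_rfl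
  refine ⟨tyi ι₀, fun 𝔞 => ofM' htop F 𝔞, ?_, ?_, ?_, ?_, ?_⟩
  · intro φ
    have hsq : φ ((ι₀ ⟨0, 1⟩ : 𝓞 M) : M) * φ ((ι₀ ⟨0, 1⟩ : 𝓞 M) : M) = -1 := by
      rw [← map_mul]
      have h1 : ((ι₀ ⟨0, 1⟩ : 𝓞 M) : M) * ((ι₀ ⟨0, 1⟩ : 𝓞 M) : M) = -1 := by
        have h2 : ι₀ ⟨0, 1⟩ * ι₀ ⟨0, 1⟩ = -1 := by
          rw [← map_mul]
          have h3 : (⟨0, 1⟩ * ⟨0, 1⟩ : GaussianInt) = -1 := by decide
          rw [h3, map_neg, map_one]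
        have h4 := congrArg (algebraMap (𝓞 M) M) h2
        rw [map_mul, map_neg, map_one] at h4
        exact h4
      rw [h1, map_neg, map_one]
    have hcj : (ComplexEmbedding.conjugate φ) ((ι₀ ⟨0, 1⟩ : 𝓞 M) : M) =
        (starRingEnd ℂ) (φ ((ι₀ ⟨0, 1⟩ : 𝓞 M) : M)) := rfl
    have hI : φ ((ι₀ ⟨0, 1⟩ : 𝓞 M) : M) = I ∨ φ ((ι₀ ⟨0, 1⟩ : 𝓞 M) : M) = -I := by
      have h1 : (φ ((ι₀ ⟨0, 1⟩ : 𝓞 M) : M) - I) * (φ ((ι₀ ⟨0, 1⟩ : 𝓞 M) : M) + I) = 0 := by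
        linear_combination hsq - Complex.I_mul_I
      rcases mul_eq_zero.mp h1 with h | h
      · exact Or.inl (sub_eq_zero.mp h)
      · exact Or.inr (eq_neg_of_add_eq_zero_left h)
    have hne : -I ≠ I := by
      intro h
      have := congrArg Complex.im h
      simp at this
      norm_num at this
    unfold tyi
    rw [hcj]
    rcases hI with h | h
    · rw [h, Complex.conj_I, if_pos rfl, if_neg hne]
    · rw [h, map_neg, Complex.conj_I, neg_neg, if_pos rfl, if_neg hne]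
  · intro 𝔞 𝔟 _ _
    exact map_mul _ _ _
  · intro x hx hp
    have hc := cop_one hx
    change ofM' htop F (Ideal.span {x}) = _
    rw [ofM'_pos htop F hc]
    have h1 : ((F (pi1 htop ⟨x, hx, hp⟩) : ℂˣ) : ℂ) = ((phT (tyi ι₀) htop ⟨x, hx, hp⟩ : ℂˣ) : ℂ) := by
      rw [hF ⟨x, hx, hp⟩]
    rw [phT_coe] at h1
    exact h1
  · intro 𝔭 hp h
    have h1 : (2 * (4 * ((-1 : ℤ) : 𝓞 M) ^ 3 + 27 * ((0 : ℤ) : 𝓞 M) ^ 2)) = -((2 : ℕ) : 𝓞 M) ^ 3 := by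
      push_cast
      ring
    rw [h1, neg_mem_iff] at h
    have h2 := hp.mem_of_pow_mem 3 h
    rw [Ideal.span_singleton_le_iff_mem]
    exact two_mem ι₀ 𝔭 h2
  · intro 𝔭 hpr hp0 hc
    obtain ⟨v, hv𝔭⟩ : ∃ v : HeightOneSpectrum (𝓞 M), v.asIdeal = 𝔭 := ⟨⟨𝔭, hpr, hp0⟩, rfl⟩
    obtain ⟨p, hpd⟩ : ∃ p : Nat.Primes, p = below v := ⟨_, rfl⟩
    have hpm : ((p : ℕ) : 𝓞 M) ∈ 𝔭 := by
      rw [hpd, ← hv𝔭]
      exact (nm_eq v).2.2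
    have hp2 : (p : ℕ) ≠ 2 := by
      intro hp2
      rw [hp2] at hpm
      have h4 := two_mem ι₀ 𝔭 hpm
      rw [Ideal.isCoprime_iff_sup_eq, sup_eq_left.2 ((Ideal.span_singleton_le_iff_mem _).2 h4)] at hc
      exact hpr.ne_top hc
    obtain ⟨z, hz, hzp⟩ := Ip_exists p.2 hp2 ι₀ 𝔭 hpm
    obtain ⟨g, hg0, hg1, hg2⟩ := hv 𝔭 hpr hp0 hc p z hz hzp
    have hpd2 : ¬ (below v : ℕ) ∣ 2 * 1 := by
      rw [mul_one, Nat.prime_dvd_prime_iff_eq (below v).2 Nat.prime_two, ← hpd]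
      exact hp2
    have htr := Pool.Agent.H82R3.EK.trace_good (D := 1) v hpd2
    obtain ⟨α, β, h3, h4, h5, h6⟩ := aD_roots p.2 hp2 hz
    have h7 := luc_eq h3 h4 (deg v)
    rw [hpd, ← htr] at h7
    have hdeg : deg v = dg p * g := by
      have h1 := (nm_eq v).1
      rw [← hpd] at h1
      have h8 : nm v = Ideal.absNorm 𝔭 := by
        rw [← hv𝔭]
        rfl
      rw [h8, hg1, (Ip_spec p.2 hz).2.2.1, ← pow_mul] at h1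
      exact (Nat.pow_right_injective p.2.two_le h1).symm
    rw [hdeg, pow_mul, pow_mul, h5, h6] at h7
    -- the two sides
    have hcard : trc (𝓞 M ⧸ 𝔭) (-1) 0 = (((Ideal.absNorm v.asIdeal : ℕ) : ℤ) -
        Nat.card {x : (𝓞 M ⧸ v.asIdeal) × (𝓞 M ⧸ v.asIdeal) //
          x.2 ^ 2 = x.1 ^ 3 - ((1 : ℕ) : 𝓞 M ⧸ v.asIdeal) ^ 2 * x.1}) := by
      subst hv𝔭
      unfold trc
      rw [Ideal.absNorm_apply, Submodule.cardQuot_apply]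
      congr 2
      apply Nat.card_congr
      refine Equiv.subtypeEquivRight (fun x => ?_)
      push_cast
      constructor
      · intro h; rw [h]; ring
      · intro h; rw [h]; ring
    rw [hcard, h7]
    change _ = (Real.sqrt (Ideal.absNorm 𝔭) : ℂ) *
      (ofM' htop F 𝔭 + (starRingEnd ℂ) (ofM' htop F 𝔭))
    rw [ofM'_pos htop F hc, hg2]
    have hz0 : tc z ≠ 0 := tc_ne_zero (Ip_spec p.2 hz).2.1.ne_zero
    have hzn : (‖tc z‖ : ℂ) ≠ 0 := by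
      rw [Complex.ofReal_ne_zero, norm_ne_zero_iff]
      exact hz0
    have hsq : Real.sqrt (Ideal.absNorm 𝔭) = ‖tc z‖ ^ g := by
      rw [hg1]
      have h2 := tc_star_mul z
      have h5' : ((z.norm : ℤ) : ℝ) = ((nrm z : ℕ) : ℝ) := by
        have h5 : z.norm = ((nrm z : ℕ) : ℤ) := (GaussianInt.abs_natCast_norm z).symm
        rw [h5]
        push_cast
        rfl
      rw [h5'] at h2
      push_cast
      rw [← h2, ← pow_mul, mul_comm 2 g, pow_mul, Real.sqrt_sq (by positivity)]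
    rw [hsq, map_pow, map_div₀, Complex.conj_ofReal, ← tc_star', div_pow, div_pow]
    push_cast
    field_simp

end Pool.Agent.Helper92.CM
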