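import Pool.Agent.Helper92.CM.Pts
import Pool.Agent.Helper92.CM.Abel
import Pool.Agent.N833.CZ.Glue
import Pool.Agent.W164.RC.Bad

/-!
# The L-function of an elliptic curve with complex multiplication over an abelian extension of a
number field containing the field of complex multiplication (helper92)
-/

set_option autoImplicit false
set_option linter.unusedSectionVars false

open NumberField IsDedekindDomain Complex

namespace Pool.Agent.Helper92.CM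

open Pool.Agent.Y773 (TPos LI zz norm_zz_lt natCast_pow_cpow)
open Pool.Agent.Y767 (Mq Mq_cop Mq_cancel Cls cls finite_dual)
open Pool.Agent.Y773.IQ (ofM' ofM'_pos ofM'_supp ne_zero_of_cop)
open Pool.Agent.N784.AD (T1 T1_cop T1_one T1_tp pi1 pi1_coe cls_card_le exists_compl)
open Pool.Agent.N784.HC (Dn Dn_card phT phT_coe ph norm_ph coe_ne CTyp ph_ne)
open Pool.Agent.W164.RC (lpoly lpoly_ne Poss)
open Pool.Agent.H921R2.TatePole (below deg nm nm_eq nm_summable two_le_nm)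
open Pool.Agent.H82R3.EK (luc luc_eq)
open Pool.Agent.N833.CZ (norm_Dn norm_ofM'_le hasProd_M hasProd_Mc natCast_cpow_conj bM bM_iff)

/-- `ψ` is the (unitary) Hecke character of `y² = x³ + a x + b` over `M`: of infinity type `n`,
defined on the ideals prime to `𝔪` -/
structure IsCM {M : Type} [Field M] [NumberField M] (a b : ℤ) (n : (M →+* ℂ) → ℕ)
    (𝔪 : Ideal (𝓞 M)) (ψ : Ideal (𝓞 M) → ℂ) : Prop where
  ctyp : CTyp n
  ne : n ≠ 0
  mul : ∀ 𝔞 𝔟 : Ideal (𝓞 M), IsCoprime 𝔞 𝔪 → IsCoprime 𝔟 𝔪 → ψ (𝔞 * 𝔟) = ψ 𝔞 * ψ 𝔟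
  prin : ∀ x : 𝓞 M, x - 1 ∈ 𝔪 → TPos M x → ψ (Ideal.span {x}) = ph n (x : M)
  bad : ∀ 𝔭 : Ideal (𝓞 M), 𝔭.IsPrime → (2 * (4 * (a : 𝓞 M) ^ 3 + 27 * (b : 𝓞 M) ^ 2)) ∈ 𝔭 → 𝔪 ≤ 𝔭
  points : ∀ 𝔭 : Ideal (𝓞 M), 𝔭.IsPrime → 𝔭 ≠ ⊥ → IsCoprime 𝔭 𝔪 →
    ((trc (𝓞 M ⧸ 𝔭) a b : ℤ) : ℂ) = (Real.sqrt (Ideal.absNorm 𝔭) : ℂ) *
      (ψ 𝔭 + (starRingEnd ℂ) (ψ 𝔭))

section
variable {M : Type} [Field M] [NumberField M] {a b : ℤ} {n : (M →+* ℂ) → ℕ}
    {𝔪 : Ideal (𝓞 M)} {ψ : Ideal (𝓞 M) → ℂ}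

theorem IsCM.val_ne (h : IsCM a b n 𝔪 ψ) {𝔮 : Ideal (𝓞 M)} (hbot : 𝔮 ≠ ⊥) (htop : 𝔮 ≠ ⊤)
    (hle : 𝔮 ≤ 𝔪) (x : Mq 𝔮) : ψ (x : Ideal (𝓞 M)) ≠ 0 := by
  obtain ⟨y, 𝔠, h1, h2, h3, -⟩ := exists_compl hbot htop x
  have hc1 : IsCoprime (x : Ideal (𝓞 M)) 𝔪 :=
    Pool.Agent.Y773.IQ.cop_mono hle (Mq_cop x)
  have hc2 : IsCoprime (𝔠 : Ideal (𝓞 M)) 𝔪 :=
    Pool.Agent.Y773.IQ.cop_mono hle (Mq_cop 𝔠)
  have h4 := h.prin y (hle h1) h2
  rw [h3, h.mul _ _ hc1 hc2] at h4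
  have h5 : y ≠ 0 := by
    intro h0
    rw [h0, Ideal.span_singleton_zero] at h3
    have h6 : ((x * 𝔠 : Mq 𝔮) : Ideal (𝓞 M)) = ⊥ := h3.symm
    exact Pool.Agent.Y767.Mq_ne_bot htop _ h6
  intro h0
  rw [h0, zero_mul] at h4
  exact ph_ne n (coe_ne h5) h4.symm

/-- the character modulo `𝔮` -/
noncomputable def IsCM.F (h : IsCM a b n 𝔪 ψ) {𝔮 : Ideal (𝓞 M)} (hbot : 𝔮 ≠ ⊥) (htop : 𝔮 ≠ ⊤)
    (hle : 𝔮 ≤ 𝔪) : Mq 𝔮 →* ℂˣ where
  toFun x := Units.mk0 (ψ (x : Ideal (𝓞 M))) (h.val_ne hbot htop hle x)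
  map_one' := by
    ext
    rw [Units.val_mk0, Units.val_one]
    have h1 := h.prin 1 (by rw [sub_self]; exact zero_mem _) (Pool.Agent.Y767.tpos_one)
    rw [Ideal.span_singleton_one] at h1
    have h2 : ((1 : Mq 𝔮) : Ideal (𝓞 M)) = ⊤ := by rw [Submonoid.coe_one, Ideal.one_eq_top]
    rw [h2, h1]
    have h3 : ((1 : 𝓞 M) : M) = 1 := map_one (algebraMap (𝓞 M) M)
    rw [h3]
    unfold ph
    simp
  map_mul' x y := by
    ext
    rw [Units.val_mk0, Units.val_mul, Units.val_mk0, Units.val_mk0, Submonoid.coe_mul]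
    exact h.mul _ _ (Pool.Agent.Y773.IQ.cop_mono hle (Mq_cop x))
      (Pool.Agent.Y773.IQ.cop_mono hle (Mq_cop y))

theorem IsCM.F_coe (h : IsCM a b n 𝔪 ψ) {𝔮 : Ideal (𝓞 M)} (hbot : 𝔮 ≠ ⊥) (htop : 𝔮 ≠ ⊤)
    (hle : 𝔮 ≤ 𝔪) (x : Mq 𝔮) : ((h.F hbot htop hle x : ℂˣ) : ℂ) = ψ (x : Ideal (𝓞 M)) := rfl

theorem IsCM.F_mem (h : IsCM a b n 𝔪 ψ) {𝔮 : Ideal (𝓞 M)} (hbot : 𝔮 ≠ ⊥) (htop : 𝔮 ≠ ⊤)
    (hle : 𝔮 ≤ 𝔪) : h.F hbot htop hle ∈ Dn n htop := by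
  intro x
  ext
  rw [F_coe, phT_coe, pi1_coe]
  exact h.prin _ (hle (T1_one x)) (T1_tp x)

/-- good reduction -/
theorem IsCM.good (h : IsCM a b n 𝔪 ψ) {𝔭 : Ideal (𝓞 M)} (hp : 𝔭.IsPrime)
    (hc : IsCoprime 𝔭 𝔪) : (2 * (4 * (a : 𝓞 M) ^ 3 + 27 * (b : 𝓞 M) ^ 2)) ∉ 𝔭 := by
  intro h1
  have h2 := h.bad 𝔭 hp h1
  rw [Ideal.isCoprime_iff_sup_eq, sup_eq_left.2 h2] at hc
  exact hp.ne_top hc

end

/-- the local factor from the trace -/
theorem lpoly_split {t : ℤ} {Q : ℕ} (hQ : Q ≠ 0) {α β : ℂ} (h1 : α + β = t) (h2 : α * β = Q)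
    (s : ℂ) : lpoly t 1 Q s = (1 - α * (Q : ℂ) ^ (-s)) * (1 - β * (Q : ℂ) ^ (-s)) := by
  unfold lpoly
  rw [Pool.Agent.H82R3.EK.prime_cpow Q hQ s, ← h1]
  push_cast
  rw [← h2]
  ring

/-- the distance to one -/
theorem lpoly_sub_bound {t : ℤ} {Q : ℕ} (hQ : 2 ≤ Q) (ht : t ^ 2 ≤ 4 * (Q : ℤ)) (s : ℂ)
    (hs : 3 / 2 < s.re) (hsmall : (Q : ℝ) ^ (-(s.re - 1 / 2)) ≤ 1 / 6) :
    ‖(lpoly t 1 Q s)⁻¹ - 1‖ ≤ 6 * (Q : ℝ) ^ (-(s.re - 1 / 2)) := by
  have hn0 : (0 : ℝ) < Q := by exact_mod_cast (by omega : 0 < Q)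
  have hn1 : (1 : ℝ) ≤ Q := by exact_mod_cast (by omega : 1 ≤ Q)
  obtain ⟨w, hw⟩ : ∃ w : ℝ, w = (Q : ℝ) ^ (-(s.re - 1 / 2)) := ⟨_, rfl⟩
  rw [← hw] at hsmall ⊢
  have hw0 : 0 < w := by rw [hw]; positivity
  have e1 : ‖(Q : ℂ) ^ (-s)‖ = (Q : ℝ) ^ (-s.re) := by
    have := Complex.norm_natCast_cpow_of_pos (n := Q) (by omega) (-s)
    rw [Complex.neg_re] at this
    exact this
  have e2 : ‖(Q : ℂ) ^ (1 - 2 * s)‖ = (Q : ℝ) ^ (1 - 2 * s.re) := by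
    have := Complex.norm_natCast_cpow_of_pos (n := Q) (by omega) (1 - 2 * s)
    have h2 : (1 - 2 * s).re = 1 - 2 * s.re := by simp
    rw [h2] at this
    exact this
  have hb : |(t : ℝ)| ≤ 2 * Real.sqrt Q := by
    apply abs_le_of_sq_le_sq _ (by positivity)
    rw [mul_pow, Real.sq_sqrt hn0.le]
    have : ((t ^ 2 : ℤ) : ℝ) ≤ ((4 * (Q : ℤ) : ℤ) : ℝ) := by exact_mod_cast ht
    push_cast at this
    linarith
  set u : ℂ := -((t : ℂ) * (Q : ℂ) ^ (-s)) + (Q : ℂ) ^ (1 - 2 * s) with hu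
  have hu1 : ‖u‖ ≤ 3 * w := by
    have h1 : ‖(t : ℂ) * (Q : ℂ) ^ (-s)‖ ≤ 2 * w := by
      rw [norm_mul, e1, Complex.norm_intCast]
      calc |(t : ℝ)| * (Q : ℝ) ^ (-s.re) ≤ (2 * Real.sqrt Q) * (Q : ℝ) ^ (-s.re) :=
            mul_le_mul_of_nonneg_right hb (by positivity)
        _ = 2 * w := by
            rw [hw, Real.sqrt_eq_rpow, mul_assoc, ← Real.rpow_add hn0]
            congr 2
            ring
    have h2 : ‖(Q : ℂ) ^ (1 - 2 * s)‖ ≤ w := by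
      rw [e2, hw]
      apply Real.rpow_le_rpow_of_exponent_le hn1
      linarith
    calc ‖u‖ ≤ ‖-((t : ℂ) * (Q : ℂ) ^ (-s))‖ + _ := norm_add_le _ _
      _ ≤ 2 * w + w := add_le_add (by rwa [norm_neg]) h2
      _ = 3 * w := by ring
  have e3 : lpoly t 1 Q s = 1 + u := by
    rw [hu]
    unfold lpoly
    push_cast
    ring
  rw [e3]
  have hu2 : ‖u‖ ≤ 1 / 2 := by linarith
  have h3 : 1 / 2 ≤ ‖1 + u‖ := by
    have := norm_sub_norm_le (1 : ℂ) (-u)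
    rw [sub_neg_eq_add, norm_neg, norm_one] at this
    linarith
  have hne : 1 + u ≠ 0 := by
    intro h
    rw [h, norm_zero] at h3
    linarith
  have e4 : (1 + u)⁻¹ - 1 = -u / (1 + u) := by field_simp; ring
  rw [e4, norm_div, norm_neg, div_le_iff₀ (by linarith)]
  nlinarith [norm_nonneg u]

section
variable {M : Type} [Field M] [NumberField M] {K : Type} [Field K] [NumberField K]

/-- the trace at a place -/
noncomputable def trv (a b : ℤ) (v : HeightOneSpectrum (𝓞 K)) : ℤ := trc (𝓞 K ⧸ v.asIdeal) a b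

/-- the trace at a place of `K` above `𝔭` -/
theorem trv_above (ι : 𝓞 M →+* 𝓞 K) {𝔭 : Ideal (𝓞 M)} (hp : 𝔭.IsPrime) (hp0 : 𝔭 ≠ ⊥) (a b : ℤ)
    (hg : (2 * (4 * (a : 𝓞 M) ^ 3 + 27 * (b : 𝓞 M) ^ 2)) ∉ 𝔭)
    (v : HeightOneSpectrum (𝓞 K)) (hv : 𝔭.map ι ≤ v.asIdeal) (f : ℕ)
    (hf : Ideal.absNorm v.asIdeal = Ideal.absNorm 𝔭 ^ f) :
    trv a b v = luc (trc (𝓞 M ⧸ 𝔭) a b) (Ideal.absNorm 𝔭) f := by
  have hmax : 𝔭.IsMaximal := hp.isMaximal hp0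
  have hvmax : v.asIdeal.IsMaximal := v.isPrime.isMaximal v.ne_bot
  letI : Field (𝓞 M ⧸ 𝔭) := Ideal.Quotient.field 𝔭
  letI : Field (𝓞 K ⧸ v.asIdeal) := Ideal.Quotient.field v.asIdeal
  have hfz : Finite (𝓞 M ⧸ 𝔭) := Ideal.finiteQuotientOfFreeOfNeBot 𝔭 hp0
  have hfv : Finite (𝓞 K ⧸ v.asIdeal) := Ideal.finiteQuotientOfFreeOfNeBot v.asIdeal v.ne_bot
  have hcardz : Nat.card (𝓞 M ⧸ 𝔭) = Ideal.absNorm 𝔭 := by
    rw [Ideal.absNorm_apply, Submodule.cardQuot_apply]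
  have hcardv : Nat.card (𝓞 K ⧸ v.asIdeal) = Ideal.absNorm v.asIdeal := by
    rw [Ideal.absNorm_apply, Submodule.cardQuot_apply]
  letI : Algebra (𝓞 M ⧸ 𝔭) (𝓞 K ⧸ v.asIdeal) :=
    (Ideal.quotientMap v.asIdeal ι (Ideal.map_le_iff_le_comap.1 hv)).toAlgebra
  have h2' : ((2 : ℕ) : 𝓞 M ⧸ 𝔭) * ((4 * (a : 𝓞 M ⧸ 𝔭) ^ 3 + 27 * (b : 𝓞 M ⧸ 𝔭) ^ 2)) ≠ 0 := by
    intro h
    apply hg
    rw [← Ideal.Quotient.eq_zero_iff_mem, ← h]
    simp only [map_mul, map_add, map_pow, map_ofNat, map_intCast]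
    rfl
  have h2 : (2 : 𝓞 M ⧸ 𝔭) ≠ 0 := by
    have := left_ne_zero_of_mul h2'
    exact_mod_cast this
  have hD := right_ne_zero_of_mul h2'
  have h5 := trc_ext (F := 𝓞 M ⧸ 𝔭) (E := 𝓞 K ⧸ v.asIdeal) h2 a b hD
  have hfr : Module.finrank (𝓞 M ⧸ 𝔭) (𝓞 K ⧸ v.asIdeal) = f := by
    have h6 : Nat.card (𝓞 K ⧸ v.asIdeal) = Nat.card (𝓞 M ⧸ 𝔭) ^
        Module.finrank (𝓞 M ⧸ 𝔭) (𝓞 K ⧸ v.asIdeal) := Module.natCard_eq_pow_finrank
    rw [hcardz, hcardv, hf] at h6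
    have h7 : 2 ≤ Ideal.absNorm 𝔭 := by
      rw [← hcardz]
      have : 1 < Nat.card (𝓞 M ⧸ 𝔭) := Finite.one_lt_card
      omega
    exact (Nat.pow_right_injective h7 h6).symm
  rw [hfr, hcardz] at h5
  exact h5

/-- Hasse's bound at a place of good reduction -/
theorem trv_poss (a b : ℤ) (v : HeightOneSpectrum (𝓞 K)) (h2 : (2 : 𝓞 K) ∉ v.asIdeal) :
    (trv a b v) ^ 2 ≤ 4 * ((Ideal.absNorm v.asIdeal : ℕ) : ℤ) := by
  have hvmax : v.asIdeal.IsMaximal := v.isPrime.isMaximal v.ne_bot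
  letI : Field (𝓞 K ⧸ v.asIdeal) := Ideal.Quotient.field v.asIdeal
  have hfv : Finite (𝓞 K ⧸ v.asIdeal) := Ideal.finiteQuotientOfFreeOfNeBot v.asIdeal v.ne_bot
  have hcardv : Nat.card (𝓞 K ⧸ v.asIdeal) = Ideal.absNorm v.asIdeal := by
    rw [Ideal.absNorm_apply, Submodule.cardQuot_apply]
  have h3 : (2 : 𝓞 K ⧸ v.asIdeal) ≠ 0 := by
    intro h
    apply h2
    rw [← Ideal.Quotient.eq_zero_iff_mem, ← h]
    simp only [map_ofNat]
  have h4 := trc_sq_le h3 a b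
  rw [hcardv] at h4
  exact h4

/-- a place not dividing `𝔮` is not above `2` -/
theorem two_notMem {a b : ℤ} {n : (M →+* ℂ) → ℕ} {𝔪 𝔮 : Ideal (𝓞 M)} {ψ : Ideal (𝓞 M) → ℂ}
    (h : IsCM a b n 𝔪 ψ) (hle : 𝔮 ≤ 𝔪) (ι : 𝓞 M →+* 𝓞 K) (v : HeightOneSpectrum (𝓞 K))
    (hv : ¬ 𝔮.map ι ≤ v.asIdeal) : (2 : 𝓞 K) ∉ v.asIdeal := by
  intro h2
  apply hv
  have := v.isPrime
  have h3 : (v.asIdeal.comap ι).IsPrime := Ideal.comap_isPrime ι v.asIdeal
  have h4 := h.bad (v.asIdeal.comap ι) h3 (by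
    apply Ideal.mul_mem_right
    rw [Ideal.mem_comap, map_ofNat]
    exact h2)
  rw [Ideal.map_le_iff_le_comap]
  exact hle.trans h4

end

section
variable {M : Type} [Field M] [NumberField M] {a b : ℤ} {n : (M →+* ℂ) → ℕ}
    {𝔪 : Ideal (𝓞 M)} {ψ : Ideal (𝓞 M) → ℂ} {𝔮 : Ideal (𝓞 M)} {K : Type} [Field K]
    [NumberField K] {ι : 𝓞 M →+* 𝓞 K} {art : Ideal (𝓞 M) → (𝓞 K ≃+* 𝓞 K)}

open Classical in
/-- **The Euler product.** -/
theorem ab_glue (h : IsCM a b n 𝔪 ψ) (hbot : 𝔮 ≠ ⊥) (htop : 𝔮 ≠ ⊤) (hle : 𝔮 ≤ 𝔪)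
    (H : IsAb 𝔮 K ι art) (s : ℂ) (hs : 3 / 2 < s.re) :
    HasProd (fun v : HeightOneSpectrum (𝓞 K) =>
      if 𝔮.map ι ≤ v.asIdeal then 1 else (lpoly (trv a b v) 1 (Ideal.absNorm v.asIdeal) s)⁻¹)
      (∏ᶠ lam : GQ hbot htop H →* ℂˣ,
        (LI (ofM' htop (tw hbot htop H (h.F hbot htop hle) lam)) (s - 1 / 2) *
        (starRingEnd ℂ) (LI (ofM' htop (tw hbot htop H (h.F hbot htop hle) lam))
          ((starRingEnd ℂ) s - 1 / 2)))) := by
  have hre : 1 < (s - 1 / 2).re := by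
    have : (s - 1 / 2).re = s.re - 1 / 2 := by simp
    rw [this]; linarith
  have hre' : 1 < ((starRingEnd ℂ) s - 1 / 2).re := by
    have : ((starRingEnd ℂ) s - 1 / 2).re = s.re - 1 / 2 := by simp
    rw [this]; linarith
  have hs' : 1 / 2 < s.re := by linarith
  obtain ⟨F₁, hF₁d⟩ : ∃ F₁ : Mq 𝔮 →* ℂˣ, F₁ = h.F hbot htop hle := ⟨_, rfl⟩
  have hF₁ : F₁ ∈ Dn n htop := by rw [hF₁d]; exact h.F_mem hbot htop hle
  have hF₁v : ∀ x : Mq 𝔮, ((F₁ x : ℂˣ) : ℂ) = ψ (x : Ideal (𝓞 M)) := by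
    intro x
    rw [hF₁d]
    rfl
  rw [← hF₁d]
  have hfQ := finite_GQ hbot htop H
  have hfD := finite_dual (GQ hbot htop H)
  have hftD := Fintype.ofFinite (GQ hbot htop H →* ℂˣ)
  have hcfin := (cls_card_le hbot htop).1
  have hmem := tw_mem hbot htop H hF₁
  -- the product over the characters
  have hP : HasProd (fun 𝔭 : {𝔭 : Ideal (𝓞 M) // Prime 𝔭} => ∏ᶠ lam : GQ hbot htop H →* ℂˣ,
      ((1 - zz (ofM' htop (tw hbot htop H F₁ lam)) (s - 1 / 2) 𝔭)⁻¹ *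
        (starRingEnd ℂ) (1 - zz (ofM' htop (tw hbot htop H F₁ lam))
          ((starRingEnd ℂ) s - 1 / 2) 𝔭)⁻¹))
      (∏ᶠ lam : GQ hbot htop H →* ℂˣ, (LI (ofM' htop (tw hbot htop H F₁ lam)) (s - 1 / 2) *
        (starRingEnd ℂ) (LI (ofM' htop (tw hbot htop H F₁ lam))
          ((starRingEnd ℂ) s - 1 / 2)))) := by
    simp_rw [finprod_eq_prod_of_fintype]
    apply hasProd_prod
    intro lam _
    have hF' := norm_ofM'_le hbot htop (hmem lam)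
    exact (hasProd_M hF' hre).mul (hasProd_Mc hF' hre')
  -- the local identity
  have hloc : ∀ 𝔭 : {𝔭 : Ideal (𝓞 M) // Prime 𝔭},
      HasProd (fun v : {v : HeightOneSpectrum (𝓞 K) // bM ι v = 𝔭} =>
        if 𝔮.map ι ≤ v.1.asIdeal then 1
        else (lpoly (trv a b v.1) 1 (Ideal.absNorm v.1.asIdeal) s)⁻¹)
      (∏ᶠ lam : GQ hbot htop H →* ℂˣ,
      ((1 - zz (ofM' htop (tw hbot htop H F₁ lam)) (s - 1 / 2) 𝔭)⁻¹ *
        (starRingEnd ℂ) (1 - zz (ofM' htop (tw hbot htop H F₁ lam))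
          ((starRingEnd ℂ) s - 1 / 2) 𝔭)⁻¹)) := by
    intro 𝔭
    have hpr : 𝔭.1.IsPrime := Ideal.isPrime_of_prime 𝔭.2
    have hmax : 𝔭.1.IsMaximal := hpr.isMaximal 𝔭.2.ne_zero
    by_cases hc : IsCoprime 𝔭.1 𝔮
    · -- good primes
      obtain ⟨hN, hcard⟩ := ab_split hbot htop H 𝔭.1 hpr 𝔭.2.ne_zero hc
      set f := orderOf (Phi hbot htop H (cls (pi1 htop) ⟨𝔭.1, hc⟩)) with hf
      have hcm' : IsCoprime 𝔭.1 𝔪 := Pool.Agent.Y773.IQ.cop_mono hle hc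
      have hgood := h.good hpr hcm'
      have hpts := h.points 𝔭.1 hpr 𝔭.2.ne_zero hcm'
      set Q := Ideal.absNorm 𝔭.1 with hQ
      have hQ2 : 2 ≤ Q := by
        have hfz : Finite (𝓞 M ⧸ 𝔭.1) := Ideal.finiteQuotientOfFreeOfNeBot 𝔭.1 𝔭.2.ne_zero
        have hnt : Nontrivial (𝓞 M ⧸ 𝔭.1) := Ideal.Quotient.nontrivial_iff.2 hpr.ne_top
        have hcardz : Nat.card (𝓞 M ⧸ 𝔭.1) = Ideal.absNorm 𝔭.1 := by
          rw [Ideal.absNorm_apply, Submodule.cardQuot_apply]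
        rw [hQ, ← hcardz]
        have : 1 < Nat.card (𝓞 M ⧸ 𝔭.1) := Finite.one_lt_card
        omega
      have hQ0 : Q ≠ 0 := by omega
      have hQr : (0 : ℝ) < Q := by exact_mod_cast (by omega : 0 < Q)
      -- the number `z = ψ(𝔭)`
      obtain ⟨z, hz⟩ : ∃ z : ℂ, z = ψ 𝔭.1 := ⟨_, rfl⟩
      have hF₁z : ((F₁ ⟨𝔭.1, hc⟩ : ℂˣ) : ℂ) = z := by rw [hF₁v, hz]
      have hzn : ‖z‖ = 1 := by rw [← hF₁z]; exact norm_Dn hbot htop hF₁ _
      rw [← hz] at hpts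
      obtain ⟨r, hr⟩ : ∃ r : ℂ, r = (Real.sqrt (Q : ℝ) : ℂ) := ⟨_, rfl⟩
      rw [← hr] at hpts
      have hr2 : r * r = Q := by
        rw [hr, ← Complex.ofReal_mul, Real.mul_self_sqrt hQr.le]
        push_cast
        rfl
      have hzz : z * (starRingEnd ℂ) z = 1 := by
        rw [Complex.mul_conj, Complex.normSq_eq_norm_sq, hzn]
        norm_num
      have hab1 : r * z + r * (starRingEnd ℂ) z = ((trc (𝓞 M ⧸ 𝔭.1) a b : ℤ) : ℂ) := by
        rw [hpts]; ring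
      have hab2 : (r * z) * (r * (starRingEnd ℂ) z) = (((Q : ℕ) : ℤ) : ℂ) := by
        push_cast
        rw [← hr2]
        linear_combination (r * r) * hzz
      have hf0 : 0 < f := by
        rw [hf, ← order_GQ]
        exact orderOf_pos _
      -- the power of `Q`
      have hQs : ∀ w : ℂ, r * (Q : ℂ) ^ (-w) = (Q : ℂ) ^ (-(w - 1 / 2)) := by
        intro w
        have hQc : (Q : ℂ) ≠ 0 := Nat.cast_ne_zero.2 hQ0
        have e1 : -(w - 1 / 2) = (1 / 2 : ℂ) + -w := by ring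
        rw [e1, Complex.cpow_add _ _ hQc]
        congr 1
        rw [hr, Real.sqrt_eq_rpow, Complex.ofReal_cpow hQr.le]
        push_cast
        rfl
      -- the value of the local factor at one place above
      have hval : ∀ v : {v : HeightOneSpectrum (𝓞 K) // bM ι v = 𝔭},
          (if 𝔮.map ι ≤ v.1.asIdeal then 1
            else (lpoly (trv a b v.1) 1 (Ideal.absNorm v.1.asIdeal) s)⁻¹) =
          ((1 - (z * (Q : ℂ) ^ (-(s - 1 / 2))) ^ f) *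
            (1 - ((starRingEnd ℂ) z * (Q : ℂ) ^ (-(s - 1 / 2))) ^ f))⁻¹ := by
        rintro ⟨v, hv⟩
        rw [bM_iff] at hv
        have h4 : ¬ 𝔮.map ι ≤ v.asIdeal := by
          intro h5
          have h6 : (𝔭.1 ⊔ 𝔮).map ι ≤ v.asIdeal := by
            rw [Ideal.map_sup]
            exact sup_le hv h5
          rw [Ideal.isCoprime_iff_sup_eq.1 hc, Ideal.map_top] at h6
          exact v.isPrime.ne_top (top_le_iff.1 h6)
        change (if 𝔮.map ι ≤ v.asIdeal then 1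
            else (lpoly (trv a b v) 1 (Ideal.absNorm v.asIdeal) s)⁻¹) = _
        rw [if_neg h4]
        congr 1
        have h7 := trv_above ι hpr 𝔭.2.ne_zero a b hgood v hv f (hN v hv)
        have h8 := luc_eq hab1 hab2 f
        rw [← h7] at h8
        have h9 : (r * z) ^ f * (r * (starRingEnd ℂ) z) ^ f = ((Q ^ f : ℕ) : ℂ) := by
          rw [← mul_pow, hab2]
          push_cast
          rfl
        rw [hN v hv, lpoly_split (pow_ne_zero f hQ0) h8.symm h9 s, natCast_pow_cpow, ← mul_pow,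
          ← mul_pow, ← hQs s]
        congr 2
        · congr 1; ring
        · congr 1; ring
      have hcard' : Nat.card {v : HeightOneSpectrum (𝓞 K) // bM ι v = 𝔭} =
          Nat.card (GQ hbot htop H) / f := by
        have h4 : Nat.card {v : HeightOneSpectrum (𝓞 K) // bM ι v = 𝔭} =
            Nat.card {v : HeightOneSpectrum (𝓞 K) // 𝔭.1.map ι ≤ v.asIdeal} :=
          Nat.card_congr (Equiv.subtypeEquivRight fun v => bM_iff v 𝔭)
        rw [h4, ← hcard, Nat.mul_div_cancel _ hf0]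
      have hcl0 : 0 < Nat.card (GQ hbot htop H) := Nat.card_pos
      have hv0 : Nat.card {v : HeightOneSpectrum (𝓞 K) // 𝔭.1.map ι ≤ v.asIdeal} ≠ 0 := by
        intro h0
        rw [h0, zero_mul] at hcard
        omega
      have hfinv : Finite {v : HeightOneSpectrum (𝓞 K) // bM ι v = 𝔭} := by
        have : Finite {v : HeightOneSpectrum (𝓞 K) // 𝔭.1.map ι ≤ v.asIdeal} :=
          Nat.finite_of_card_ne_zero hv0
        exact Finite.of_equiv _ (Equiv.subtypeEquivRight fun v => bM_iff v 𝔭).symm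
      have hft := Fintype.ofFinite {v : HeightOneSpectrum (𝓞 K) // bM ι v = 𝔭}
      have hprod := hasProd_fintype (fun v : {v : HeightOneSpectrum (𝓞 K) // bM ι v = 𝔭} =>
        if 𝔮.map ι ≤ v.1.asIdeal then 1
        else (lpoly (trv a b v.1) 1 (Ideal.absNorm v.1.asIdeal) s)⁻¹)
      have hval2 : (∏ v : {v : HeightOneSpectrum (𝓞 K) // bM ι v = 𝔭},
          (if 𝔮.map ι ≤ v.1.asIdeal then 1
            else (lpoly (trv a b v.1) 1 (Ideal.absNorm v.1.asIdeal) s)⁻¹)) =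
          (((1 - (z * (Q : ℂ) ^ (-(s - 1 / 2))) ^ f) *
            (1 - ((starRingEnd ℂ) z * (Q : ℂ) ^ (-(s - 1 / 2))) ^ f))⁻¹) ^
            (Nat.card (GQ hbot htop H) / f) := by
        rw [Finset.prod_congr rfl (fun v _ => hval v), Finset.prod_const, Finset.card_univ,
          ← Nat.card_eq_fintype_card, hcard']
      rw [hval2] at hprod
      -- the product over the characters
      have hside : ∀ w : ℂ, ∏ᶠ lam : GQ hbot htop H →* ℂˣ,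
          (1 - zz (ofM' htop (tw hbot htop H F₁ lam)) (w - 1 / 2) 𝔭) =
          (1 - (z * (Q : ℂ) ^ (-(w - 1 / 2))) ^ f) ^ (Nat.card (GQ hbot htop H) / f) := by
        intro w
        have h4 := tw_local hbot htop H F₁ ⟨𝔭.1, hc⟩ ((Q : ℂ) ^ (-(w - 1 / 2)))
        rw [hF₁z] at h4
        rw [← h4]
        refine finprod_congr fun lam => ?_
        unfold zz
        rw [ofM'_pos htop _ hc]
      have hA := hside s
      have hB := hside ((starRingEnd ℂ) s)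
      have hC := congrArg (starRingEnd ℂ) hB
      have hQc : (starRingEnd ℂ) ((Q : ℂ) ^ (-((starRingEnd ℂ) s - 1 / 2))) =
          (Q : ℂ) ^ (-(s - 1 / 2)) := by
        rw [natCast_cpow_conj]
        congr 1
        rw [map_neg, map_sub, Complex.conj_conj, map_div₀, map_one, map_ofNat]
      rw [map_pow, map_sub, map_one, map_pow, map_mul, hQc] at hC
      rw [finprod_eq_prod_of_fintype] at hA hC
      rw [finprod_eq_prod_of_fintype]
      rw [map_prod] at hC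
      have hD : ∏ lam : GQ hbot htop H →* ℂˣ,
          ((1 - zz (ofM' htop (tw hbot htop H F₁ lam)) (s - 1 / 2) 𝔭)⁻¹ *
          (starRingEnd ℂ) (1 - zz (ofM' htop (tw hbot htop H F₁ lam))
            ((starRingEnd ℂ) s - 1 / 2) 𝔭)⁻¹) =
          (((1 - (z * (Q : ℂ) ^ (-(s - 1 / 2))) ^ f) *
            (1 - ((starRingEnd ℂ) z * (Q : ℂ) ^ (-(s - 1 / 2))) ^ f))⁻¹) ^
            (Nat.card (GQ hbot htop H) / f) := by
        rw [Finset.prod_mul_distrib, Finset.prod_inv_distrib, hA]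
        simp_rw [map_inv₀]
        rw [Finset.prod_inv_distrib, hC]
        generalize (1 - (z * (Q : ℂ) ^ (-(s - 1 / 2))) ^ f) = u₁
        generalize (1 - ((starRingEnd ℂ) z * (Q : ℂ) ^ (-(s - 1 / 2))) ^ f) = u₂
        rw [mul_inv, mul_pow, inv_pow, inv_pow]
      rw [hD]
      exact hprod
    · -- bad primes
      have hle2 : 𝔮 ≤ 𝔭.1 := by
        by_contra h4
        apply hc
        rw [Ideal.isCoprime_iff_sup_eq]
        by_contra h5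
        apply h4
        rw [hmax.eq_of_le h5 le_sup_left]
        exact le_sup_right
      have h4 : ∀ v : {v : HeightOneSpectrum (𝓞 K) // bM ι v = 𝔭},
          (if 𝔮.map ι ≤ v.1.asIdeal then (1 : ℂ)
            else (lpoly (trv a b v.1) 1 (Ideal.absNorm v.1.asIdeal) s)⁻¹) = 1 := by
        rintro ⟨v, hv⟩
        rw [bM_iff] at hv
        rw [if_pos]
        exact (Ideal.map_mono hle2).trans hv
      have h5 : ∏ᶠ lam : GQ hbot htop H →* ℂˣ,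
          ((1 - zz (ofM' htop (tw hbot htop H F₁ lam)) (s - 1 / 2) 𝔭)⁻¹ *
          (starRingEnd ℂ) (1 - zz (ofM' htop (tw hbot htop H F₁ lam))
            ((starRingEnd ℂ) s - 1 / 2) 𝔭)⁻¹) = 1 := by
        apply finprod_eq_one_of_forall_eq_one
        intro lam
        have h6 : ofM' htop (tw hbot htop H F₁ lam) 𝔭.1 = 0 := by
          by_contra h7
          exact hc ((ofM'_supp htop _ 𝔭.1).1 h7)
        unfold zz
        rw [h6, zero_mul, zero_mul, sub_zero, inv_one, map_one, one_mul]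
      rw [h5]
      simp_rw [h4]
      exact hasProd_one
  -- multipliability
  have h4 : Multipliable (fun v : HeightOneSpectrum (𝓞 K) =>
      if 𝔮.map ι ≤ v.asIdeal then 1
      else (lpoly (trv a b v) 1 (Ideal.absNorm v.asIdeal) s)⁻¹) := by
    have hsum := nm_summable (K := K) (x := s.re - 1 / 2) (by linarith)
    have h5 : Summable (fun v : HeightOneSpectrum (𝓞 K) =>
        ‖(if 𝔮.map ι ≤ v.asIdeal then 1
          else (lpoly (trv a b v) 1 (Ideal.absNorm v.asIdeal) s)⁻¹) - 1‖) := by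
      refine Summable.of_norm_bounded_eventually (hsum.mul_left 6) ?_
      have h6 := hsum.tendsto_cofinite_zero.eventually (Iio_mem_nhds (by norm_num : (0 : ℝ) < 1 / 6))
      filter_upwards [h6] with v hv
      rw [norm_norm]
      split_ifs with hiq
      · rw [sub_self, norm_zero]
        positivity
      · exact lpoly_sub_bound (two_le_nm v) (trv_poss a b v (two_notMem h hle ι v hiq)) s hs
          (le_of_lt hv)
    have h7 := multipliable_one_add_of_summable h5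
    refine h7.congr (fun v => ?_)
    ring
  rw [← (Equiv.sigmaFiberEquiv (bM ι)).hasProd_iff]
  refine HasProd.sigma_of_hasProd hP (fun 𝔭 => hloc 𝔭) ?_
  exact (Equiv.sigmaFiberEquiv (bM ι)).multipliable_iff.2 h4

end

end Pool.Agent.Helper92.CM
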