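import Pool.Agent.Helper92.CM.Core

/-!
# The zeros of `L(E/K, s)` on the line `Re s = 1`, `K` a ray class field of a number field `M`, `E`
with complex multiplication defined over `M` (helper92)
-/

set_option autoImplicit false
set_option linter.unusedSectionVars false

open NumberField Complex Filter Topology Set IsDedekindDomain

namespace Pool.Agent.Helper92.CM

open Pool.Agent.Y773 (TPos LI)
open Pool.Agent.Y767 (Mq Cls cls eq_of_LI finite_dual card_dual)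
open Pool.Agent.Y773.IQ (ofM' tM LL LL_eq absNorm_pos')
open Pool.Agent.N784.HC
open Pool.Agent.N784.AD (pi1 Un one_le_Un cls_card_le hK)
open Pool.Agent.N784.CZ
open Pool.Agent.N833.CZ (norm_ofM'_le)
open Pool.Agent.N786 (kc)
open H370 (zset mult NN Nd Ns)
open Pool.Agent.H82R3.EK (cnt cnt_eq_sum cnt_prod NN_eq Ns_le strip line)
open Pool.Agent.W164.RC (lpoly cnt_mul)

/-- **the proportion on the line, any height exponent** -/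
theorem prod_prop (K : Type) [Field K] [NumberField K]
    {n : (K →+* ℂ) → ℕ} (hn : CTyp n) (hn0 : n ≠ 0) {γ h : ℝ} (hγ : 0 < γ) (hγ' : γ < Real.pi)
    (hh : 1 / 2 ≤ h) (hk0 : 0 ≤ kc γ h)
    (ε η : ℝ) (hε : 0 < ε) (hη : 0 < η) : ∃ δ X₀ : ℝ, 0 < δ ∧
    ∀ (𝔮 : Ideal (𝓞 K)) (_ : 𝔮 ≠ ⊥) (htop : 𝔮 ≠ ⊤), X₀ ≤ (Ideal.absNorm 𝔮 : ℝ) →
      (Dn n htop).Nonempty → (Un 𝔮 : ℝ) ≤ (Ideal.absNorm 𝔮 : ℝ) ^ δ →
      ∀ L : (Mq 𝔮 →* ℂˣ) → ℂ → ℂ,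
      (∀ F ∈ Dn n htop, Differentiable ℂ (L F) ∧ ∀ s : ℂ, 1 < s.re → L F s = LI (ofM' htop F) s) →
      ∀ J : Finset (Mq 𝔮 →* ℂˣ), (∀ F, F ∈ J ↔ F ∈ Dn n htop) →
      ∀ T : ℝ, (Ideal.absNorm 𝔮 : ℝ) ^ η ≤ T →
        ((Ideal.absNorm 𝔮 : ℝ) * T ^ Module.finrank ℚ K) ^ h ≤ (Ideal.absNorm 𝔮 : ℝ) →
        1 ≤ T ∧
        (1 - ε) * (Nat.card (Cls (pi1 htop)) * (T / Real.pi *
          Real.log ((Ideal.absNorm 𝔮 : ℝ) * T ^ Module.finrank ℚ K))) ≤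
          (cnt (GG J L) (strip T (2 * T)) : ℝ) ∧
        (2 - kc γ h - ε) * (cnt (GG J L) (strip T (2 * T)) : ℝ) ≤
          (cnt (GG J L) (line T (2 * T)) : ℝ) := by
  classical
  obtain ⟨B, hB0, hB⟩ := dn0_bound Pool.Agent.N603.CZ.t_gro Pool.Agent.N768.CZ.t_cru hn hn0
  obtain ⟨A, hA, hprim⟩ := primF K hn
  have hd2 := two_le_deg hn hn0
  obtain ⟨εm, hεm⟩ : ∃ εm : ℝ, εm = min (ε / 2) (1 / 4) := ⟨_, rfl⟩
  have hεm0 : 0 < εm := by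
    rw [hεm]
    exact lt_min (by positivity) (by norm_num)
  have hεm2 : εm ≤ ε / 2 := by rw [hεm]; exact min_le_left _ _
  have hεm3 : εm ≤ 1 / 4 := by rw [hεm]; exact min_le_right _ _
  have hπ3 := Real.pi_gt_three
  have hπ4 := Real.pi_lt_four
  obtain ⟨δ₁, X₁, hδ₁, -, hX₁, H1⟩ := mainN K n hn hn0 γ h εm η hγ hγ' (by linarith) hεm0 hη
  obtain ⟨δ₂, X₂, hδ₂, -, hX₂, H2⟩ := mainN K (nc n) (CTyp_nc hn) (nc_ne hn0) γ h εm η
    hγ hγ' (by linarith) hεm0 hη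
  obtain ⟨h₀, hh₀⟩ : ∃ h₀ : ℝ, h₀ = (hK K : ℝ) := ⟨_, rfl⟩
  have hh0 : 0 ≤ h₀ := by rw [hh₀]; exact Nat.cast_nonneg _
  obtain ⟨Q, hQ⟩ : ∃ Q : ℝ, Q = 64 * h₀ * B / ε + 2 * h₀ / ε + 1 := ⟨_, rfl⟩
  have hQ1 : 1 ≤ Q := by
    rw [hQ]
    have h1 : 0 ≤ 64 * h₀ * B / ε := by positivity
    have h2 : 0 ≤ 2 * h₀ / ε := by positivity
    linarith
  refine ⟨min δ₁ δ₂, max (max X₁ X₂) (max (Q ^ 4) 3), lt_min hδ₁ hδ₂, ?_⟩
  intro 𝔮 hbot htop hX hne hU L hL J hJ T hT hTh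
  obtain ⟨N, hN⟩ : ∃ N : ℝ, N = (Ideal.absNorm 𝔮 : ℝ) := ⟨_, rfl⟩
  rw [← hN] at hX hU hT hTh ⊢
  have hN3 : 3 ≤ N := (le_max_right _ _).trans ((le_max_right _ _).trans hX)
  have hNQ : Q ^ 4 ≤ N := (le_max_left _ _).trans ((le_max_right _ _).trans hX)
  have hN1 : 1 ≤ N := by linarith
  have hN0 : 0 < N := by linarith
  have hU1 : (Un 𝔮 : ℝ) ≤ N ^ δ₁ :=
    hU.trans (Real.rpow_le_rpow_of_exponent_le hN1 (min_le_left _ _))
  have hU2 : (Un 𝔮 : ℝ) ≤ N ^ δ₂ :=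
    hU.trans (Real.rpow_le_rpow_of_exponent_le hN1 (min_le_right _ _))
  have hT1 : 1 ≤ T := (Real.one_le_rpow hN1 hη.le).trans hT
  have hT0 : 0 < T := by linarith
  obtain ⟨d, hd⟩ : ∃ d : ℕ, d = Module.finrank ℚ K := ⟨_, rfl⟩
  rw [← hd] at hTh hd2 ⊢
  have hTd : T ^ 2 ≤ T ^ d := pow_le_pow_right₀ hT1 hd2
  have hTd1 : 1 ≤ T ^ d := one_le_pow₀ hT1
  have hR1 : 1 ≤ N * T ^ d := by nlinarith
  have hRa : (N * T ^ d) ^ h ≤ N := hTh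
  -- T is at most the square root of N
  have hTN : T ≤ N ^ (1 / 2 : ℝ) := by
    have h1 : (N * T ^ d) ^ (1 / 2 : ℝ) ≤ N :=
      (Real.rpow_le_rpow_of_exponent_le hR1 hh).trans hTh
    have h2 : N * T ^ d ≤ N ^ (2 : ℝ) := by
      have h3 := Real.rpow_le_rpow (by positivity) h1 (by norm_num : (0 : ℝ) ≤ 2)
      rw [← Real.rpow_mul (by positivity)] at h3
      norm_num at h3
      rw [Real.rpow_two]
      exact h3
    rw [Real.rpow_two] at h2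
    have h4 : T ^ d ≤ N := by
      have h5 : N * T ^ d ≤ N * N := by nlinarith
      exact le_of_mul_le_mul_left h5 hN0
    have h6 : T ^ 2 ≤ N := hTd.trans h4
    rw [← Real.sqrt_eq_rpow]
    exact Real.le_sqrt_of_sq_le h6
  -- the families
  have hX1 : X₁ ≤ N := (le_max_left _ _).trans ((le_max_left _ _).trans hX)
  have hX2 : X₂ ≤ N := (le_max_right _ _).trans ((le_max_left _ _).trans hX)
  obtain ⟨-, hfin, hf1, H1⟩ := H1 𝔮 hbot (by rw [← hN]; exact hX1) (fun _ => hne)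
    (by rw [← hN]; exact hU1)
  obtain ⟨-, -, -, H2⟩ := H2 𝔮 hbot (by rw [← hN]; exact hX2)
    (fun _ => Dn_nc_nonempty htop hne) (by rw [← hN]; exact hU2)
  rw [← hN, ← hd] at H1 H2
  rw [← hN] at hf1
  obtain ⟨Fs, hFs⟩ : ∃ Fs : Finset (Ideal (𝓞 K) →*₀ ℂ), Fs = hfin.toFinset := ⟨_, rfl⟩
  have hFm : ∀ ψ, ψ ∈ Fs ↔ ψ ∈ FamN n 𝔮 := fun ψ => by rw [hFs, Set.Finite.mem_toFinset]
  have hFc : (FamN n 𝔮).ncard = Fs.card := by rw [hFs, Set.ncard_eq_toFinset_card _ hfin]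
  have hFc' : (FamN (nc n) 𝔮).ncard = (Fs.image cc').card := by
    rw [FamN_cc', Set.ncard_image_of_injective _ cc'_inj, hFc,
      Finset.card_image_of_injective _ cc'_inj]
  have hFci : (Fs.image cc').card = Fs.card := Finset.card_image_of_injective _ cc'_inj
  rw [hFc] at hf1 H1
  rw [hFc'] at H2
  obtain ⟨f, hf⟩ : ∃ f : ℝ, f = (Fs.card : ℝ) := ⟨_, rfl⟩
  have hf0 : 0 ≤ f := by rw [hf]; exact Nat.cast_nonneg _
  obtain ⟨-, q1, q2, q3, -⟩ := H1 T hT hRa Fs (fun ψ hψ => (hFm ψ).mp hψ) (by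
    nlinarith [hf0, hf, hδ₁])
  obtain ⟨-, r1, r2, r3, -⟩ := H2 T hT hRa (Fs.image cc') (fun ψ hψ => by
    obtain ⟨ψ', h1, rfl⟩ := Finset.mem_image.mp hψ
    rw [FamN_cc']
    exact ⟨ψ', (hFm ψ').mp h1, rfl⟩) (by
    rw [hFci]
    nlinarith [hf0, hf, hδ₂])
  rw [Finset.sum_image (fun a _ b _ h => cc'_inj h), hFci] at r2
  rw [Finset.sum_image (fun a _ b _ h => cc'_inj h),
    Finset.sum_image (fun a _ b _ h => cc'_inj h)] at r3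
  have r1' : ∀ ψ ∈ Fs, (zset (LL K (cc' ψ)) T (2 * T)).Finite := fun ψ hψ =>
    r1 _ (Finset.mem_image_of_mem _ hψ)
  -- the sums over the family
  obtain ⟨S₁, hS₁⟩ : ∃ S₁ : ℝ, S₁ = ∑ ψ ∈ Fs, (NN (LL K ψ) T (2 * T) : ℝ) := ⟨_, rfl⟩
  obtain ⟨S₂, hS₂⟩ : ∃ S₂ : ℝ, S₂ = ∑ ψ ∈ Fs, (NN (LL K (cc' ψ)) T (2 * T) : ℝ) := ⟨_, rfl⟩
  obtain ⟨ℓ, hℓ⟩ : ∃ ℓ : ℝ, ℓ = Real.log (N * T ^ d) := ⟨_, rfl⟩
  rw [← hS₁] at q2 q3
  rw [← hS₂] at r2 r3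
  rw [← hℓ, ← hf] at q2 r2
  rw [← hf] at hf1
  have hℓ1 : 1 ≤ ℓ := by
    rw [hℓ, Real.le_log_iff_exp_le (by linarith)]
    have h1 := Real.exp_one_lt_d9
    nlinarith
  have hL' : ∀ ψ ∈ FamN n 𝔮, Differentiable ℂ (LL K ψ) ∧ ∀ s : ℂ, 1 < s.re → LL K ψ s = LI ψ s := by
    rintro ψ ⟨𝔣, h1, h2, h3⟩
    obtain ⟨-, G, g1, g2, -⟩ := hprim 𝔣 ψ h2 h3
    rw [LL_eq K g1 g2]
    exact ⟨g1, g2⟩
  obtain ⟨G, hG⟩ : ∃ G : ℂ → ℂ, G = GG J L := ⟨_, rfl⟩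
  have hG' : (fun s => ∏ F ∈ J, (L F s * cf (L F) s)) = G := by rw [hG]; rfl
  have hp1 := prod_cnt hbot htop L hL hL' J hJ Fs hFm (T := T) (W := strip T (2 * T)) le_rfl
  have hp2 := prod_cnt hbot htop L hL hL' J hJ Fs hFm (T := T) (W := line T (2 * T)) (by
    rintro s ⟨h1, h2, h3⟩
    exact ⟨by rw [h1]; norm_num, by rw [h1]; norm_num, h2, h3⟩)
  rw [hG'] at hp1 hp2
  rw [← hG]
  obtain ⟨hlow, hup⟩ := hp1
  obtain ⟨hlin, -⟩ := hp2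
  -- in real numbers
  have e1 : ((∑ ψ ∈ Fs, (cnt (LL K ψ) (strip T (2 * T)) +
      cnt (LL K (cc' ψ)) (strip T (2 * T))) : ℕ) : ℝ) = S₁ + S₂ := by
    push_cast
    rw [Finset.sum_add_distrib, hS₁, hS₂]
    congr 1 <;> exact Finset.sum_congr rfl fun ψ _ => by rw [NN_eq]
  have hlowR : S₁ + S₂ ≤ (cnt G (strip T (2 * T)) : ℝ) := by
    rw [← e1]
    exact_mod_cast hlow
  have hJ0 : (J.filter (fun F => F ∈ Dn0 n 𝔮)).card ≤ hK K := by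
    refine le_trans ?_ (Dn0_card (n := n) hbot htop)
    rw [← Set.ncard_coe_finset]
    refine Set.ncard_le_ncard (fun F hF => ?_)
      ((Dn_card_le (n := n) hbot htop).1.subset (Dn0_sub htop))
    rw [Finset.mem_coe, Finset.mem_filter] at hF
    exact hF.2
  have hupR : (cnt G (strip T (2 * T)) : ℝ) ≤ S₁ + S₂ + h₀ * (2 * (B * T ^ 2)) := by
    have h1 : (cnt G (strip T (2 * T)) : ℝ) ≤ ((∑ ψ ∈ Fs, (cnt (LL K ψ) (strip T (2 * T)) +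
      cnt (LL K (cc' ψ)) (strip T (2 * T))) : ℕ) : ℝ) +
      ((∑ F ∈ J.filter (fun F => F ∈ Dn0 n 𝔮), (cnt (L F) (strip T (2 * T)) +
        cnt (cf (L F)) (strip T (2 * T))) : ℕ) : ℝ) := by exact_mod_cast hup
    rw [e1] at h1
    refine h1.trans (add_le_add le_rfl ?_)
    push_cast
    calc ∑ F ∈ J.filter (fun F => F ∈ Dn0 n 𝔮), ((cnt (L F) (strip T (2 * T)) : ℝ) +
        (cnt (cf (L F)) (strip T (2 * T)) : ℝ))
        ≤ ∑ F ∈ J.filter (fun F => F ∈ Dn0 n 𝔮), (2 * (B * T ^ 2)) := by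
          refine Finset.sum_le_sum fun F hF => ?_
          rw [Finset.mem_filter] at hF
          obtain ⟨k1, k2⟩ := hL F ((hJ F).mp hF.1)
          obtain ⟨k3, k4⟩ := hB 𝔮 hbot htop F hF.2 (L F) k1 k2 T hT1
          linarith
      _ = ((J.filter (fun F => F ∈ Dn0 n 𝔮)).card : ℝ) * (2 * (B * T ^ 2)) := by
          rw [Finset.sum_const, nsmul_eq_mul]
      _ ≤ h₀ * (2 * (B * T ^ 2)) := by
          refine mul_le_mul_of_nonneg_right ?_ (by positivity)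
          rw [hh₀]
          exact_mod_cast hJ0
  have hS₁0 : 0 ≤ S₁ := by rw [hS₁]; exact Finset.sum_nonneg fun _ _ => Nat.cast_nonneg _
  have hS₂0 : 0 ≤ S₂ := by rw [hS₂]; exact Finset.sum_nonneg fun _ _ => Nat.cast_nonneg _
  have hlinR : (2 - kc γ h - ε / 2) * (S₁ + S₂) ≤ (cnt G (line T (2 * T)) : ℝ) := by
    have h1 : ((∑ ψ ∈ Fs, (cnt (LL K ψ) (line T (2 * T)) +
      cnt (LL K (cc' ψ)) (line T (2 * T))) : ℕ) : ℝ) ≤ (cnt G (line T (2 * T)) : ℝ) := by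
      exact_mod_cast hlin
    refine le_trans ?_ h1
    push_cast
    rw [Finset.sum_add_distrib]
    have h2 : ∑ ψ ∈ Fs, (Ns (LL K ψ) T (2 * T) : ℝ) ≤
        ∑ ψ ∈ Fs, (cnt (LL K ψ) (line T (2 * T)) : ℝ) :=
      Finset.sum_le_sum fun ψ hψ => by exact_mod_cast Ns_le _ _ _ (q1 ψ hψ)
    have h3 : ∑ ψ ∈ Fs, (Ns (LL K (cc' ψ)) T (2 * T) : ℝ) ≤
        ∑ ψ ∈ Fs, (cnt (LL K (cc' ψ)) (line T (2 * T)) : ℝ) :=
      Finset.sum_le_sum fun ψ hψ => by exact_mod_cast Ns_le _ _ _ (r1' ψ hψ)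
    have h4 : 2 - kc γ h - ε / 2 ≤ 2 - kc γ h - εm := by linarith
    have h5 : (2 - kc γ h - ε / 2) * S₁ ≤ ∑ ψ ∈ Fs, (Ns (LL K ψ) T (2 * T) : ℝ) :=
      (mul_le_mul_of_nonneg_right h4 hS₁0).trans q3
    have h6 : (2 - kc γ h - ε / 2) * S₂ ≤ ∑ ψ ∈ Fs, (Ns (LL K (cc' ψ)) T (2 * T) : ℝ) :=
      (mul_le_mul_of_nonneg_right h4 hS₂0).trans r3
    linarith
  -- numbers
  have hNq : 0 < N ^ (1 / 4 : ℝ) := Real.rpow_pos_of_pos hN0 _
  have hQN : Q ≤ N ^ (1 / 4 : ℝ) := by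
    have h1 := Real.rpow_le_rpow (by positivity) hNQ (by norm_num : (0 : ℝ) ≤ 1 / 4)
    rw [← Real.rpow_natCast, ← Real.rpow_mul (by linarith)] at h1
    norm_num at h1
    exact h1
  have hf34 : N ^ (3 / 4 : ℝ) ≤ f :=
    (Real.rpow_le_rpow_of_exponent_le hN1 (by linarith)).trans hf1
  have e34 : N ^ (3 / 4 : ℝ) = N ^ (1 / 4 : ℝ) * N ^ (1 / 2 : ℝ) := by
    rw [← Real.rpow_add hN0]
    norm_num
  have hNh : 1 ≤ N ^ (1 / 2 : ℝ) := Real.one_le_rpow hN1 (by norm_num)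
  have hSS : (1 - εm) * (f * (T / Real.pi * ℓ)) ≤ S₁ + S₂ := by
    have h1 : (1 - εm) * (f * (T / Real.pi * ℓ)) =
        (1 - εm) * (f * (T / (2 * Real.pi) * ℓ)) + (1 - εm) * (f * (T / (2 * Real.pi) * ℓ)) := by
      field_simp
      ring
    rw [h1]
    linarith
  have hTpi : T / 4 ≤ T / Real.pi * ℓ := by
    have h1 : T / 4 ≤ T / Real.pi := div_le_div_of_nonneg_left hT0.le Real.pi_pos hπ4.le
    have h2 : 0 ≤ T / Real.pi := by positivity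
    nlinarith
  have hSbig : N ^ (3 / 4 : ℝ) * T * (3 / 16) ≤ S₁ + S₂ := by
    refine le_trans ?_ hSS
    have h1 : N ^ (3 / 4 : ℝ) * (T / 4) ≤ f * (T / Real.pi * ℓ) :=
      mul_le_mul hf34 hTpi (by positivity) hf0
    have h2 : 3 / 4 ≤ 1 - εm := by linarith
    have h3 : 0 ≤ f * (T / Real.pi * ℓ) := le_trans (by positivity) h1
    nlinarith
  refine ⟨hT1, ?_, ?_⟩
  · -- the number of the zeros
    refine le_trans ?_ hlowR
    refine le_trans ?_ hSS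
    have hcls : (Nat.card (Cls (pi1 htop)) : ℝ) ≤ h₀ + f := by
      rw [hh₀, hf, ← hFc]
      exact_mod_cast cls_le_add hbot htop hne
    have h1 : 2 * h₀ / ε ≤ f := by
      have h2 : 2 * h₀ / ε ≤ Q := by
        rw [hQ]
        have : 0 ≤ 64 * h₀ * B / ε := by positivity
        linarith
      refine h2.trans (hQN.trans (le_trans ?_ hf34))
      rw [e34]
      exact le_mul_of_one_le_right hNq.le hNh
    have h3 : h₀ ≤ ε / 2 * f := by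
      rw [div_le_iff₀ hε] at h1
      linarith
    have h4 : 0 ≤ T / Real.pi * ℓ := by linarith
    by_cases hε1 : 1 ≤ ε
    · have h5 : (1 - ε) * (Nat.card (Cls (pi1 htop)) * (T / Real.pi * ℓ)) ≤ 0 :=
        mul_nonpos_of_nonpos_of_nonneg (by linarith) (by positivity)
      have h6 : 0 ≤ (1 - εm) * (f * (T / Real.pi * ℓ)) := by
        have : 0 ≤ 1 - εm := by linarith
        positivity
      rw [← hℓ]
      linarith
    · push Not at hε1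
      rw [← hℓ]
      have h5 : (1 - ε) * (Nat.card (Cls (pi1 htop)) : ℝ) ≤ (1 - εm) * f := by
        calc (1 - ε) * (Nat.card (Cls (pi1 htop)) : ℝ) ≤ (1 - ε) * (h₀ + f) :=
              mul_le_mul_of_nonneg_left hcls (by linarith)
          _ ≤ (1 - ε) * ((1 + ε / 2) * f) := by
              refine mul_le_mul_of_nonneg_left ?_ (by linarith)
              linarith
          _ ≤ (1 - εm) * f := by
              have : (1 - ε) * (1 + ε / 2) ≤ 1 - εm := by nlinarith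
              nlinarith
      calc (1 - ε) * (Nat.card (Cls (pi1 htop)) * (T / Real.pi * ℓ))
          = ((1 - ε) * (Nat.card (Cls (pi1 htop)) : ℝ)) * (T / Real.pi * ℓ) := by ring
        _ ≤ ((1 - εm) * f) * (T / Real.pi * ℓ) := mul_le_mul_of_nonneg_right h5 h4
        _ = _ := by ring
  · -- the proportion
    by_cases hκ : 2 - kc γ h - ε ≤ 0
    · exact (mul_nonpos_of_nonpos_of_nonneg hκ (Nat.cast_nonneg _)).trans (Nat.cast_nonneg _)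
    push Not at hκ
    refine le_trans ?_ hlinR
    have h1 : (2 - kc γ h - ε) * (cnt G (strip T (2 * T)) : ℝ) ≤
        (2 - kc γ h - ε) * (S₁ + S₂ + h₀ * (2 * (B * T ^ 2))) :=
      mul_le_mul_of_nonneg_left hupR hκ.le
    refine h1.trans ?_
    have h2 : 64 * h₀ * B / ε ≤ N ^ (1 / 4 : ℝ) := by
      refine le_trans ?_ hQN
      rw [hQ]
      have : 0 ≤ 2 * h₀ / ε := by positivity
      linarith
    rw [div_le_iff₀ hε] at h2
    have h3 : T ^ 2 ≤ N ^ (1 / 2 : ℝ) * T := by nlinarith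
    have h4 : h₀ * B * T ^ 2 ≤ h₀ * B * (N ^ (1 / 2 : ℝ) * T) :=
      mul_le_mul_of_nonneg_left h3 (by positivity)
    have h5 : 64 * h₀ * B * (N ^ (1 / 2 : ℝ) * T) ≤
        N ^ (1 / 4 : ℝ) * ε * (N ^ (1 / 2 : ℝ) * T) :=
      mul_le_mul_of_nonneg_right h2 (by positivity)
    have h6 : ε * (N ^ (3 / 4 : ℝ) * T * (3 / 16)) ≤ ε * (S₁ + S₂) :=
      mul_le_mul_of_nonneg_left hSbig hε.le
    rw [e34] at h6
    have h7 : N ^ (1 / 4 : ℝ) * ε * (N ^ (1 / 2 : ℝ) * T) * (3 / 16) ≤ ε * (S₁ + S₂) := by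
      refine le_trans (le_of_eq ?_) h6
      ring
    have h8 : 64 * (h₀ * B * T ^ 2) ≤ N ^ (1 / 4 : ℝ) * ε * (N ^ (1 / 2 : ℝ) * T) := by
      refine le_trans ?_ h5
      linarith
    have h11 : 0 ≤ h₀ * B * T ^ 2 := by positivity
    have h12 : 12 * (h₀ * B * T ^ 2) ≤ ε * (S₁ + S₂) := by linarith
    have h13 : (2 - kc γ h - ε) * (h₀ * (2 * (B * T ^ 2))) ≤ 2 * (h₀ * (2 * (B * T ^ 2))) :=
      mul_le_mul_of_nonneg_right (by linarith) (by positivity)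
    have h14 : 2 * (h₀ * (2 * (B * T ^ 2))) ≤ ε / 2 * (S₁ + S₂) := by nlinarith
    nlinarith

section
variable {M : Type} [Field M] [NumberField M] {𝔮 : Ideal (𝓞 M)} {K : Type} [Field K]
  [NumberField K] {ι : 𝓞 M →+* 𝓞 K} {art : Ideal (𝓞 M) → (𝓞 K ≃+* 𝓞 K)}

theorem IsAb.of_rcf (h : IsRCF 𝔮 K ι art) : IsAb 𝔮 K ι art where
  mul := h.mul
  invariants := h.invariants
  ray 𝔞 h𝔞 h' := (h.kernel 𝔞 h𝔞).2 h'
  unramified := h.unramified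
  frobenius := h.frobenius

theorem Phi_inj (hbot : 𝔮 ≠ ⊥) (htop : 𝔮 ≠ ⊤) (h : IsRCF 𝔮 K ι art) :
    Function.Injective (Phi hbot htop (IsAb.of_rcf h)) := by
  rw [injective_iff_map_eq_one]
  intro c hc
  obtain ⟨𝔞, rfl⟩ := Pool.Agent.N784.AD.exists_rep hbot htop c
  rw [Phi_cls] at hc
  exact (Pool.Agent.N134.CZ.art_cls htop h 𝔞).1 hc

theorem card_GQ_rcf (hbot : 𝔮 ≠ ⊥) (htop : 𝔮 ≠ ⊤) (h : IsRCF 𝔮 K ι art) :
    Nat.card (GQ hbot htop (IsAb.of_rcf h)) = Nat.card (Cls (pi1 htop)) := by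
  rw [card_GQ]
  exact Nat.card_congr (MonoidHom.ofInjective (Phi_inj hbot htop h)).symm.toEquiv

end

/-- **the zeros of `L(E/K, s)` on the line** -/
theorem cm_prop (M : Type) [Field M] [NumberField M] (n : (M →+* ℂ) → ℕ) (hn : CTyp n)
    (hn0 : n ≠ 0) {γ h : ℝ} (hγ : 0 < γ) (hγ' : γ < Real.pi) (hh : 1 / 2 ≤ h)
    (hk0 : 0 ≤ kc γ h) (ε η : ℝ) (hε : 0 < ε) (hη : 0 < η) :
    ∃ δ X₀ : ℝ, 0 < δ ∧ ∀ (a b : ℤ) (𝔪 : Ideal (𝓞 M)) (ψ : Ideal (𝓞 M) → ℂ), IsCM a b n 𝔪 ψ →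
    ∀ 𝔮 : Ideal (𝓞 M), 𝔮 ≠ ⊥ → 𝔮 ≤ 𝔪 → X₀ ≤ (Ideal.absNorm 𝔮 : ℝ) →
      (Un 𝔮 : ℝ) ≤ (Ideal.absNorm 𝔮 : ℝ) ^ δ →
    ∀ (K : Type) [Field K] [NumberField K] (ι : 𝓞 M →+* 𝓞 K)
      (art : Ideal (𝓞 M) → (𝓞 K ≃+* 𝓞 K)), IsRCF 𝔮 K ι art →
    ∃ G : ℂ → ℂ, Differentiable ℂ G ∧
      (∀ s : ℂ, 3 / 2 < s.re → HasProd (open Classical in fun v : HeightOneSpectrum (𝓞 K) =>
        if 𝔮.map ι ≤ v.asIdeal then 1
        else (lpoly (trv a b v) 1 (Ideal.absNorm v.asIdeal) s)⁻¹) (G s)) ∧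
      ∀ T : ℝ, (Ideal.absNorm 𝔮 : ℝ) ^ η ≤ T →
        ((Ideal.absNorm 𝔮 : ℝ) * T ^ Module.finrank ℚ M) ^ h ≤ (Ideal.absNorm 𝔮 : ℝ) →
        {s : ℂ | s ∈ hp T ∧ G s = 0}.Finite ∧
        (1 - ε) * ((Module.finrank ℚ K : ℝ) / (Module.finrank ℚ M : ℝ) * (T / Real.pi *
          Real.log ((Ideal.absNorm 𝔮 : ℝ) * T ^ Module.finrank ℚ M))) ≤ (cnt G (hp T) : ℝ) ∧
        (2 - kc γ h - ε) * (cnt G (hp T) : ℝ) ≤ (cnt G {s : ℂ | s ∈ hp T ∧ s.re = 1} : ℝ) := by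
  classical
  obtain ⟨δ, X₀, hδ, H0⟩ := prod_prop M hn hn0 hγ hγ' hh hk0 ε η hε hη
  refine ⟨δ, X₀, hδ, fun a b 𝔪 ψ hcm 𝔮 hbot hle hX hU K _ _ ι art hK => ?_⟩
  have htop : 𝔮 ≠ ⊤ := fun h => hcm.ne_top (top_le_iff.mp (by rw [← h]; exact hle))
  have HK := IsAb.of_rcf hK
  obtain ⟨J, L, hJ, hJc, hL, hprod⟩ := ab_fun hcm hbot htop hle HK
  have hcls := card_GQ_rcf hbot htop hK
  have hne : (Dn n htop).Nonempty := ⟨_, hcm.F_mem hbot htop hle⟩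
  obtain ⟨F₁, hF₁⟩ := hne
  obtain ⟨hfinD, hcD⟩ := Dn_card hbot htop hF₁
  have hJm : ∀ F, F ∈ J ↔ F ∈ Dn n htop := by
    have h1 : J = hfinD.toFinset := by
      apply Finset.eq_of_subset_of_card_le
      · intro F hF
        rw [Set.Finite.mem_toFinset]
        exact hJ F hF
      · rw [hJc, ← Set.ncard_eq_toFinset_card _ hfinD]
        have h2 : (Dn n htop).ncard = Nat.card (Cls (pi1 htop)) := hcD
        rw [h2, hcls]
    intro F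
    rw [h1, Set.Finite.mem_toFinset]
  have hGd := GG_diff htop J L hL
  have hGne := GG_ne hn hn0 hbot htop J L hJ hL
  have hL' : ∀ F ∈ Dn n htop, Differentiable ℂ (L F) ∧
      ∀ s : ℂ, 1 < s.re → L F s = LI (ofM' htop F) s := fun F hF => hL F ((hJm F).2 hF)
  have hHd : Differentiable ℂ (fun s => GG J L (s - 1 / 2)) := hGd.comp (differentiable_id.sub_const _)
  refine ⟨fun s => GG J L (s - 1 / 2), hHd, hprod, ?_⟩
  intro T hT hTh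
  obtain ⟨hT1, c1, c2⟩ := H0 𝔮 hbot htop hX ⟨F₁, hF₁⟩ hU L hL' J hJm T hT hTh
  have hre : ∀ s : ℂ, (s - 1 / 2).re = s.re - 1 / 2 := fun s => by simp
  have him : ∀ s : ℂ, (s - 1 / 2).im = s.im := fun s => by simp
  have k1 : cnt (fun s => GG J L (s - 1 / 2)) (hp T) = cnt (GG J L) (strip T (2 * T)) := by
    apply cnt_shift
    intro s
    refine ⟨fun ⟨⟨b1, b2, b3⟩, b4⟩ => ⟨⟨?_, ?_, ?_, ?_⟩, b4⟩, fun ⟨⟨b1, b2, b3, b4⟩, b5⟩ =>
      ⟨⟨?_, ?_, ?_⟩, b5⟩⟩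
    · rw [hre]; linarith
    · by_contra hcon
      exact hGne _ (not_lt.mp hcon) b4
    · rw [him]; exact b2
    · rw [him]; exact b3
    · rw [hre] at b1; linarith
    · rw [him] at b3; exact b3
    · rw [him] at b4; exact b4
  have k2 : cnt (fun s => GG J L (s - 1 / 2)) {s : ℂ | s ∈ hp T ∧ s.re = 1} =
      cnt (GG J L) (line T (2 * T)) := by
    apply cnt_shift
    intro s
    refine ⟨fun ⟨⟨⟨b1, b2, b3⟩, b5⟩, b4⟩ => ⟨⟨?_, ?_, ?_⟩, b4⟩, fun ⟨⟨b1, b2, b3⟩, b5⟩ =>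
      ⟨⟨⟨?_, ?_, ?_⟩, ?_⟩, b5⟩⟩
    · rw [hre, b5]; norm_num
    · rw [him]; exact b2
    · rw [him]; exact b3
    · rw [hre] at b1; linarith
    · rw [him] at b2; exact b2
    · rw [him] at b3; exact b3
    · rw [hre] at b1; linarith
  have hcard : (Nat.card (Cls (pi1 htop)) : ℝ) =
      (Module.finrank ℚ K : ℝ) / (Module.finrank ℚ M : ℝ) := by
    have h7 := ab_deg hbot htop HK
    have h8 : 0 < Module.finrank ℚ M := Module.finrank_pos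
    have h9 : (0 : ℝ) < Module.finrank ℚ M := by exact_mod_cast h8
    rw [h7, hcls]
    push_cast
    field_simp
  refine ⟨?_, ?_, ?_⟩
  · have h1 : ∀ s ∈ {s : ℂ | s ∈ hp T ∧ GG J L (s - 1 / 2) = 0}, ‖s‖ ≤ 2 + (|T| + |2 * T|) := by
      rintro s ⟨⟨b1, b2, b3⟩, b4⟩
      refine (Complex.norm_le_abs_re_add_abs_im s).trans (add_le_add ?_ ?_)
      · rw [abs_of_pos (by linarith)]
        by_contra hcon
        refine hGne (s - 1 / 2) ?_ b4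
        rw [hre]
        linarith [not_le.mp hcon]
      · rw [abs_of_pos (by linarith)]
        have := abs_nonneg T
        have := le_abs_self (2 * T)
        linarith
    have h2 : (fun s => GG J L (s - 1 / 2)) 2 ≠ 0 := hGne _ (by norm_num)
    refine (dz_finite hHd h2 0 (2 + (|T| + |2 * T|))).subset ?_
    intro s hs
    exact ⟨by rw [sub_zero]; exact h1 s hs, hs.2⟩
  · rw [k1, ← hcard]
    exact c1
  · rw [k1, k2]
    exact c2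

end Pool.Agent.Helper92.CM
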