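import Pool.Agent.W165.CE.FF

/-!
# Points of `y² = x³ + a x + b` over finite extensions of a finite field (helper92)
-/

set_option autoImplicit false

namespace Pool.Agent.Helper92.CM

open W165.CE Pool.Agent.H341R2.Sharp
open Pool.Agent.H82R3.EK (luc luc_eq card_points)

/-- `#k` minus the number of affine points of `y² = x³ + a x + b` over `k` -/
noncomputable def trc (k : Type) [CommRing k] (a b : ℤ) : ℤ :=
  (Nat.card k : ℤ) - (Nat.card {x : k × k // x.2 ^ 2 = x.1 ^ 3 + (a : k) * x.1 + (b : k)} : ℕ)

/-- the trace over an extension of degree `n` -/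
theorem trc_ext {F E : Type} [Field F] [Finite F] [Field E] [Finite E] [Algebra F E]
    (h2 : (2 : F) ≠ 0) (a b : ℤ) (hD : 4 * (a : F) ^ 3 + 27 * (b : F) ^ 2 ≠ 0) :
    trc E a b = luc (trc F a b) (Nat.card F) (Module.finrank F E) := by
  classical
  let : Fintype F := Fintype.ofFinite F
  let : Fintype E := Fintype.ofFinite E
  have hF : ringChar F ≠ 2 := by
    intro h
    apply h2
    have := ringChar.Nat.cast_ringChar (R := F)
    rw [h] at this
    exact_mod_cast this
  have key : ∀ {E : Type} [Field E] [Fintype E] [Algebra F E] [DecidableEq E],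
      (Fintype.card E : ℤ) - Nat.card {x : E × E // x.2 ^ 2 = x.1 ^ 3 + (a : E) * x.1 + (b : E)} =
      - T (wei (a : F) (b : F)) (Module.finrank F E) := by
    intro E _ _ _ _
    have hE : ringChar E ≠ 2 := by
      rwa [← Algebra.ringChar_eq F E]
    rw [card_points hE (fun x => x ^ 3 + (a : E) * x + (b : E)), T_eq_sum (E := E) hF]
    have : ∀ x : E, Polynomial.aeval x (wei (a : F) (b : F)) = x ^ 3 + (a : E) * x + (b : E) := by
      intro x
      rw [aeval_wei, map_intCast, map_intCast]
    simp_rw [this]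
    ring
  have h1 := key (E := F)
  rw [Module.finrank_self] at h1
  unfold trc
  rw [Nat.card_eq_fintype_card (α := E), Nat.card_eq_fintype_card (α := F), key (E := E), h1]
  have hpos : 0 < Module.finrank F E := Module.finrank_pos
  obtain ⟨n, hn⟩ := Nat.exists_eq_succ_of_ne_zero hpos.ne'
  rw [hn, Nat.succ_eq_add_one, T_luc hF (wei_natDegree _ _) (wei_monic _ _) n,
    A_two hF _ _ hD]
  ring

/-- Hasse -/
theorem trc_sq_le {k : Type} [Field k] [Finite k] (h2 : (2 : k) ≠ 0) (a b : ℤ) :
    (trc k a b) ^ 2 ≤ 4 * (Nat.card k : ℤ) := by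
  classical
  let : Fintype k := Fintype.ofFinite k
  have hk : ringChar k ≠ 2 := by
    intro h
    apply h2
    have := ringChar.Nat.cast_ringChar (R := k)
    rw [h] at this
    exact_mod_cast this
  have h := hasse hk (a : k) (b : k)
  have h1 : |((trc k a b : ℤ) : ℝ)| ≤ 2 * Real.sqrt (Nat.card k) := by
    unfold trc
    rw [Nat.card_eq_fintype_card (α := k)]
    push_cast
    push_cast at h
    exact h
  have h2 : ((trc k a b : ℤ) : ℝ) ^ 2 ≤ 4 * (Nat.card k : ℝ) := by
    have h4 := pow_le_pow_left₀ (abs_nonneg _) h1 2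
    rw [sq_abs, mul_pow, Real.sq_sqrt (Nat.cast_nonneg _)] at h4
    linarith
  exact_mod_cast h2

end Pool.Agent.Helper92.CM
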