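import Pool.Agent.Helper92.CM.Prop

/-!
# The share of the zeros of `L(E/K, s)` away from the line (helper92)
-/

set_option autoImplicit false
set_option linter.unusedSectionVars false

open NumberField Complex Filter Topology Set IsDedekindDomain

namespace Pool.Agent.Helper92.CM

open Pool.Agent.Y773 (TPos LI)
open Pool.Agent.Y767 (Mq Cls cls)
open Pool.Agent.Y773.IQ (absNorm_pos')
open Pool.Agent.N784.HC
open Pool.Agent.N784.AD (pi1 Un one_le_Un cls_card_le hK card_units_le)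
open Pool.Agent.N784.CZ
open Pool.Agent.N786 (kc)
open Pool.Agent.H82R3.EK (cnt)
open Pool.Agent.W164.RC (lpoly)

/-- two entire functions with the same Euler product are equal -/
theorem ent_unique {F G : ℂ → ℂ} (hF : Differentiable ℂ F) (hG : Differentiable ℂ G)
    (h : ∀ s : ℂ, 3 / 2 < s.re → F s = G s) : F = G := by
  have h1 : AnalyticOnNhd ℂ F univ := fun z _ => hF.analyticAt z
  have h2 : AnalyticOnNhd ℂ G univ := fun z _ => hG.analyticAt z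
  refine h1.eq_of_eventuallyEq h2 (z₀ := 2) ?_
  have h3 : {s : ℂ | 3 / 2 < s.re} ∈ 𝓝 (2 : ℂ) :=
    (isOpen_lt continuous_const Complex.continuous_re).mem_nhds (by norm_num)
  filter_upwards [h3] with s hs
  exact h s hs

/-- `T < Im s ≤ 2T`, `|Re s - 1| ≥ δ` -/
def vt (T δ : ℝ) : Set ℂ := {s : ℂ | s ∈ hp T ∧ δ ≤ |s.re - 1|}

/-- **the share of the zeros away from the line** -/
theorem cm_share (M : Type) [Field M] [NumberField M] (n : (M →+* ℂ) → ℕ) (hn : CTyp n)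
    (hn0 : n ≠ 0) (h c : ℝ) (hh1 : h ≤ 1) (hc0 : 0 < c) (hc : c < 2 * h - 1) :
    ∃ A : ℝ, 1 ≤ A ∧ ∀ η : ℝ, 0 < η → ∃ δ₀ X₀ : ℝ, 0 < δ₀ ∧
    ∀ (a b : ℤ) (𝔪 : Ideal (𝓞 M)) (ψ : Ideal (𝓞 M) → ℂ), IsCM a b n 𝔪 ψ →
    ∀ 𝔮 : Ideal (𝓞 M), 𝔮 ≠ ⊥ → 𝔮 ≤ 𝔪 → X₀ ≤ (Ideal.absNorm 𝔮 : ℝ) →
      (Un 𝔮 : ℝ) ≤ (Ideal.absNorm 𝔮 : ℝ) ^ δ₀ →
    ∀ (K : Type) [Field K] [NumberField K] (ι : 𝓞 M →+* 𝓞 K)
      (art : Ideal (𝓞 M) → (𝓞 K ≃+* 𝓞 K)), IsRCF 𝔮 K ι art →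
    ∀ G : ℂ → ℂ, Differentiable ℂ G →
      (∀ s : ℂ, 3 / 2 < s.re → HasProd (open Classical in fun v : HeightOneSpectrum (𝓞 K) =>
        if 𝔮.map ι ≤ v.asIdeal then 1
        else (lpoly (trv a b v) 1 (Ideal.absNorm v.asIdeal) s)⁻¹) (G s)) →
      ∀ T : ℝ, (Ideal.absNorm 𝔮 : ℝ) ^ η ≤ T →
        ((Ideal.absNorm 𝔮 : ℝ) * T ^ Module.finrank ℚ M) ^ h ≤ (Ideal.absNorm 𝔮 : ℝ) →
      ∀ δ : ℝ, 0 ≤ δ →
        (Nat.card (𝓞 M ⧸ 𝔮)ˣ : ℝ) * (cnt G (vt T δ) : ℝ) ≤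
          A * ((Ideal.absNorm 𝔮 : ℝ) * Un 𝔮 *
            ((Ideal.absNorm 𝔮 : ℝ) * T ^ Module.finrank ℚ M) ^ (-(c * δ))) * (cnt G (hp T) : ℝ) := by
  classical
  obtain ⟨A, hA, hd⟩ := cm_dens M n hn hn0 h c hh1 hc0 hc
  refine ⟨8 * A, by linarith, fun η hη => ?_⟩
  have hk0 : 0 ≤ kc 1 h := by
    unfold kc
    have h1 := H385.Rw_nonneg 1 (by norm_num) (by linarith [Real.pi_gt_three]) 0
    have h2 : 0 ≤ ∫ α in (0 : ℝ)..1, α * H385.Rw 1 α :=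
      intervalIntegral.integral_nonneg zero_le_one
        (fun α hα => mul_nonneg hα.1 (H385.Rw_nonneg 1 (by norm_num)
          (by linarith [Real.pi_gt_three]) α))
    have h3 : 0 < h := by linarith
    positivity
  obtain ⟨δ₀, X₀, hδ₀, H0⟩ := cm_prop M n hn hn0 (γ := 1) (h := h) (by norm_num)
    (by linarith [Real.pi_gt_three]) (by linarith) hk0 (1 / 2) η (by norm_num) hη
  refine ⟨δ₀, X₀, hδ₀, fun a b 𝔪 ψ hcm 𝔮 hbot hle hX hU K _ _ ι art hK G hG hprod T hT hTh δ hδ => ?_⟩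
  have htop : 𝔮 ≠ ⊤ := fun h => hcm.ne_top (top_le_iff.mp (by rw [← h]; exact hle))
  obtain ⟨G₁, g1, g2, g3⟩ := H0 a b 𝔪 ψ hcm 𝔮 hbot hle hX hU K ι art hK
  obtain ⟨G₂, k1, k2, k3, k4⟩ := hd a b 𝔪 ψ hcm 𝔮 hbot hle K ι art (IsAb.of_rcf hK)
  have e1 : G₁ = G := ent_unique g1 hG fun s hs => (g2 s hs).unique (hprod s hs)
  have e2 : G₂ = G := ent_unique k1 hG fun s hs => (k2 s hs).unique (hprod s hs)
  rw [e1] at g3
  rw [e2] at k3 k4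
  obtain ⟨m1, m2, -⟩ := g3 T hT hTh
  have hN1 : (1 : ℝ) ≤ (Ideal.absNorm 𝔮 : ℝ) := by exact_mod_cast absNorm_pos' hbot
  have hT1 : 1 ≤ T := (Real.one_le_rpow hN1 hη.le).trans hT
  have hT0 : 0 < T := by linarith
  obtain ⟨-, m3⟩ := k4 T T hT1 le_rfl hTh T (by rw [abs_of_pos hT0]) δ hδ
  have m3 := m3 hT1
  obtain ⟨X, hXd⟩ : ∃ X : ℝ, X = (Ideal.absNorm 𝔮 : ℝ) * T ^ Module.finrank ℚ M := ⟨_, rfl⟩
  rw [← hXd] at m2 m3 ⊢
  have hX1 : 1 ≤ X := by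
    rw [hXd]
    exact one_le_mul_of_one_le_of_one_le hN1 (one_le_pow₀ hT1)
  have hlog : 0 ≤ Real.log X := Real.log_nonneg hX1
  -- the counts
  have hsub : vt T δ ⊆ vv T T δ := by
    rintro s ⟨⟨b1, b2, b3⟩, b4⟩
    exact ⟨b1, b4, b2.le, by linarith⟩
  have hvfin : {s : ℂ | s ∈ vv T T δ ∧ G s = 0}.Finite := by
    have h2 : G 2 ≠ 0 := k3 2 (by norm_num)
    refine zeros_bdd (R := 2 + 2 * T) hG h2 (W := {s | s ∈ vv T T δ ∧ G s = 0}) ?_ |>.subset ?_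
    · rintro s ⟨⟨b1, b2, b3, b4⟩, b5⟩
      refine (Complex.norm_le_abs_re_add_abs_im s).trans (add_le_add ?_ ?_)
      · rw [abs_of_pos (by linarith)]
        by_contra hcon
        exact k3 s (by linarith [not_le.mp hcon]) b5
      · rw [abs_of_pos (by linarith)]
        linarith
    · rintro s hs
      exact ⟨hs, hs.2⟩
  have hle1 : (cnt G (vt T δ) : ℝ) ≤ (cnt G (vv T T δ) : ℝ) := by
    exact_mod_cast cnt_mono hsub hvfin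
  -- the class number
  have hcls : (Module.finrank ℚ K : ℝ) / (Module.finrank ℚ M : ℝ) = (Nat.card (Cls (pi1 htop)) : ℝ) := by
    have h7 := ab_deg hbot htop (IsAb.of_rcf hK)
    have h8 : 0 < Module.finrank ℚ M := Module.finrank_pos
    have h9 : (0 : ℝ) < Module.finrank ℚ M := by exact_mod_cast h8
    rw [h7, card_GQ_rcf hbot htop hK]
    push_cast
    field_simp
  rw [hcls] at m2
  have hphi : (Nat.card (𝓞 M ⧸ 𝔮)ˣ : ℝ) ≤ Un 𝔮 * Nat.card (Cls (pi1 htop)) := by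
    exact_mod_cast card_units_le hbot htop
  obtain ⟨P, hP⟩ : ∃ P : ℝ, P = (cnt G (hp T) : ℝ) := ⟨_, rfl⟩
  rw [← hP] at m2 ⊢
  obtain ⟨C, hC⟩ : ∃ C : ℝ, C = (Nat.card (Cls (pi1 htop)) : ℝ) := ⟨_, rfl⟩
  rw [← hC] at m2 hphi
  have hC0 : 0 ≤ C := by rw [hC]; exact Nat.cast_nonneg _
  have hU0 : (0 : ℝ) ≤ Un 𝔮 := Nat.cast_nonneg _
  have hπ4 := Real.pi_lt_four
  -- `C T log X ≤ 8 P`
  have h1 : C * (T * Real.log X) ≤ 8 * P := by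
    have h2 : T / 4 ≤ T / Real.pi := div_le_div_of_nonneg_left hT0.le Real.pi_pos hπ4.le
    have h3 : C * (T / 4 * Real.log X) ≤ C * (T / Real.pi * Real.log X) := by gcongr
    linarith
  have hXp : 0 ≤ X ^ (-(c * δ)) := by positivity
  calc (Nat.card (𝓞 M ⧸ 𝔮)ˣ : ℝ) * (cnt G (vt T δ) : ℝ)
      ≤ (Un 𝔮 * C) * (A * ((Ideal.absNorm 𝔮 : ℝ) * T * Real.log X * X ^ (-(c * δ)))) :=
        mul_le_mul hphi (hle1.trans m3) (Nat.cast_nonneg _) (by positivity)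
    _ = (A * ((Ideal.absNorm 𝔮 : ℝ) * Un 𝔮 * X ^ (-(c * δ)))) * (C * (T * Real.log X)) := by ring
    _ ≤ (A * ((Ideal.absNorm 𝔮 : ℝ) * Un 𝔮 * X ^ (-(c * δ)))) * (8 * P) :=
        mul_le_mul_of_nonneg_left h1 (by positivity)
    _ = _ := by ring

end Pool.Agent.Helper92.CM
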