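import Pool.Agent.Helper92.CM.Share

/-!
# Uniformity in the infinity type (helper92)
-/

set_option autoImplicit false
set_option linter.unusedSectionVars false

open NumberField Complex Filter Topology Set IsDedekindDomain

namespace Pool.Agent.Helper92.CM

open Pool.Agent.Y767 (Mq Cls cls)
open Pool.Agent.Y773.IQ (absNorm_pos')
open Pool.Agent.N784.HC
open Pool.Agent.N784.AD (pi1 Un)
open Pool.Agent.N784.CZ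
open Pool.Agent.N786 (kc)
open Pool.Agent.H82R3.EK (cnt)
open Pool.Agent.W164.RC (lpoly)

/-- the types with values zero and one are finitely many -/
theorem types_finite (M : Type) [Field M] [NumberField M] :
    {n : (M →+* ℂ) → ℕ | ∀ φ, n φ ≤ 1}.Finite := by
  classical
  have h : {n : (M →+* ℂ) → ℕ | ∀ φ, n φ ≤ 1} ⊆
      Set.range (fun f : (M →+* ℂ) → Fin 2 => fun φ => (f φ : ℕ)) := by
    intro n hn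
    refine ⟨fun φ => ⟨n φ, by have := hn φ; omega⟩, rfl⟩
  exact (Set.finite_range _).subset h

theorem cm_dens_unif (M : Type) [Field M] [NumberField M] (h c : ℝ) (hh1 : h ≤ 1) (hc0 : 0 < c)
    (hc : c < 2 * h - 1) :
    ∃ A : ℝ, 1 ≤ A ∧ ∀ (a b : ℤ) (n : (M →+* ℂ) → ℕ) (𝔪 : Ideal (𝓞 M)) (ψ : Ideal (𝓞 M) → ℂ),
    IsCM a b n 𝔪 ψ → (∀ φ, n φ ≤ 1) →
    ∀ 𝔮 : Ideal (𝓞 M), 𝔮 ≠ ⊥ → 𝔮 ≤ 𝔪 →
    ∀ (K : Type) [Field K] [NumberField K] (ι : 𝓞 M →+* 𝓞 K)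
      (art : Ideal (𝓞 M) → (𝓞 K ≃+* 𝓞 K)), IsAb 𝔮 K ι art →
    ∃ G : ℂ → ℂ, Differentiable ℂ G ∧
      (∀ s : ℂ, 3 / 2 < s.re → HasProd (open Classical in fun v : HeightOneSpectrum (𝓞 K) =>
        if 𝔮.map ι ≤ v.asIdeal then 1
        else (lpoly (trv a b v) 1 (Ideal.absNorm v.asIdeal) s)⁻¹) (G s)) ∧
      (∀ s : ℂ, 3 / 2 ≤ s.re → G s ≠ 0) ∧
      ∀ T H : ℝ, 1 ≤ H → H ≤ T →
      ((Ideal.absNorm 𝔮 : ℝ) * T ^ Module.finrank ℚ M) ^ h ≤ (Ideal.absNorm 𝔮 : ℝ) →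
      ∀ t₁ : ℝ, |t₁| ≤ T → ∀ δ : ℝ, 0 ≤ δ →
        (cnt G (vr t₁ H δ) : ℝ) ≤ A * ((Ideal.absNorm 𝔮 : ℝ) * H *
          Real.log ((Ideal.absNorm 𝔮 : ℝ) * T ^ Module.finrank ℚ M) *
          ((Ideal.absNorm 𝔮 : ℝ) * T ^ Module.finrank ℚ M) ^ (-(c * δ))) ∧
        (1 ≤ t₁ → (cnt G (vv t₁ H δ) : ℝ) ≤ A * ((Ideal.absNorm 𝔮 : ℝ) * H *
          Real.log ((Ideal.absNorm 𝔮 : ℝ) * T ^ Module.finrank ℚ M) *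
          ((Ideal.absNorm 𝔮 : ℝ) * T ^ Module.finrank ℚ M) ^ (-(c * δ)))) := by
  classical
  have hex : ∀ n : (M →+* ℂ) → ℕ, ∃ A : ℝ, 1 ≤ A ∧ (CTyp n → n ≠ 0 →
    ∀ (a b : ℤ) (𝔪 : Ideal (𝓞 M)) (ψ : Ideal (𝓞 M) → ℂ), IsCM a b n 𝔪 ψ →
    ∀ 𝔮 : Ideal (𝓞 M), 𝔮 ≠ ⊥ → 𝔮 ≤ 𝔪 →
    ∀ (K : Type) [Field K] [NumberField K] (ι : 𝓞 M →+* 𝓞 K)
      (art : Ideal (𝓞 M) → (𝓞 K ≃+* 𝓞 K)), IsAb 𝔮 K ι art →
    ∃ G : ℂ → ℂ, Differentiable ℂ G ∧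
      (∀ s : ℂ, 3 / 2 < s.re → HasProd (open Classical in fun v : HeightOneSpectrum (𝓞 K) =>
        if 𝔮.map ι ≤ v.asIdeal then 1
        else (lpoly (trv a b v) 1 (Ideal.absNorm v.asIdeal) s)⁻¹) (G s)) ∧
      (∀ s : ℂ, 3 / 2 ≤ s.re → G s ≠ 0) ∧
      ∀ T H : ℝ, 1 ≤ H → H ≤ T →
      ((Ideal.absNorm 𝔮 : ℝ) * T ^ Module.finrank ℚ M) ^ h ≤ (Ideal.absNorm 𝔮 : ℝ) →
      ∀ t₁ : ℝ, |t₁| ≤ T → ∀ δ : ℝ, 0 ≤ δ →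
        (cnt G (vr t₁ H δ) : ℝ) ≤ A * ((Ideal.absNorm 𝔮 : ℝ) * H *
          Real.log ((Ideal.absNorm 𝔮 : ℝ) * T ^ Module.finrank ℚ M) *
          ((Ideal.absNorm 𝔮 : ℝ) * T ^ Module.finrank ℚ M) ^ (-(c * δ))) ∧
        (1 ≤ t₁ → (cnt G (vv t₁ H δ) : ℝ) ≤ A * ((Ideal.absNorm 𝔮 : ℝ) * H *
          Real.log ((Ideal.absNorm 𝔮 : ℝ) * T ^ Module.finrank ℚ M) *
          ((Ideal.absNorm 𝔮 : ℝ) * T ^ Module.finrank ℚ M) ^ (-(c * δ))))) := by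
    intro n
    by_cases hn : CTyp n
    · by_cases hn0 : n ≠ 0
      · obtain ⟨A, hA, H0⟩ := cm_dens M n hn hn0 h c hh1 hc0 hc
        exact ⟨A, hA, fun _ _ => H0⟩
      · exact ⟨1, le_rfl, fun _ h => absurd h hn0⟩
    · exact ⟨1, le_rfl, fun h => absurd h hn⟩
  choose A hA H0 using hex
  have hfin := types_finite M
  have hle : ∀ n ∈ hfin.toFinset, A n ≤ 1 + ∑ n ∈ hfin.toFinset, A n := by
    intro n hn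
    have := Finset.single_le_sum (f := A) (fun m _ => by linarith [hA m]) hn
    linarith
  refine ⟨1 + ∑ n ∈ hfin.toFinset, A n, ?_, ?_⟩
  · have : 0 ≤ ∑ n ∈ hfin.toFinset, A n := Finset.sum_nonneg fun m _ => by linarith [hA m]
    linarith
  intro a b n 𝔪 ψ hcm hn1 𝔮 hbot hle' K _ _ ι art hK
  obtain ⟨G, g1, g2, g3, g4⟩ := H0 n hcm.ctyp hcm.ne a b 𝔪 ψ hcm 𝔮 hbot hle' K ι art hK
  refine ⟨G, g1, g2, g3, fun T H hH hHT hX t₁ ht₁ δ hδ => ?_⟩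
  obtain ⟨m1, m2⟩ := g4 T H hH hHT hX t₁ ht₁ δ hδ
  have hAn : A n ≤ 1 + ∑ n ∈ hfin.toFinset, A n := hle n (by
    rw [Set.Finite.mem_toFinset]
    exact hn1)
  have hT : 1 ≤ T := hH.trans hHT
  have hN1 : (1 : ℝ) ≤ (Ideal.absNorm 𝔮 : ℝ) := by exact_mod_cast absNorm_pos' hbot
  have hX1 : 1 ≤ (Ideal.absNorm 𝔮 : ℝ) * T ^ Module.finrank ℚ M :=
    one_le_mul_of_one_le_of_one_le hN1 (one_le_pow₀ hT)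
  have hlog : 0 ≤ Real.log ((Ideal.absNorm 𝔮 : ℝ) * T ^ Module.finrank ℚ M) := Real.log_nonneg hX1
  have hY0 : 0 ≤ ((Ideal.absNorm 𝔮 : ℝ) * H *
      Real.log ((Ideal.absNorm 𝔮 : ℝ) * T ^ Module.finrank ℚ M) *
      ((Ideal.absNorm 𝔮 : ℝ) * T ^ Module.finrank ℚ M) ^ (-(c * δ))) := by positivity
  exact ⟨m1.trans (mul_le_mul_of_nonneg_right hAn hY0),
    fun ht => (m2 ht).trans (mul_le_mul_of_nonneg_right hAn hY0)⟩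

theorem cm_share_unif (M : Type) [Field M] [NumberField M] (h c : ℝ) (hh1 : h ≤ 1) (hc0 : 0 < c)
    (hc : c < 2 * h - 1) :
    ∃ A : ℝ, 1 ≤ A ∧ ∀ η : ℝ, 0 < η → ∃ δ₀ X₀ : ℝ, 0 < δ₀ ∧
    ∀ (a b : ℤ) (n : (M →+* ℂ) → ℕ) (𝔪 : Ideal (𝓞 M)) (ψ : Ideal (𝓞 M) → ℂ),
    IsCM a b n 𝔪 ψ → (∀ φ, n φ ≤ 1) →
    ∀ 𝔮 : Ideal (𝓞 M), 𝔮 ≠ ⊥ → 𝔮 ≤ 𝔪 → X₀ ≤ (Ideal.absNorm 𝔮 : ℝ) →
      (Un 𝔮 : ℝ) ≤ (Ideal.absNorm 𝔮 : ℝ) ^ δ₀ →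
    ∀ (K : Type) [Field K] [NumberField K] (ι : 𝓞 M →+* 𝓞 K)
      (art : Ideal (𝓞 M) → (𝓞 K ≃+* 𝓞 K)), IsRCF 𝔮 K ι art →
    ∃ G : ℂ → ℂ, Differentiable ℂ G ∧
      (∀ s : ℂ, 3 / 2 < s.re → HasProd (open Classical in fun v : HeightOneSpectrum (𝓞 K) =>
        if 𝔮.map ι ≤ v.asIdeal then 1
        else (lpoly (trv a b v) 1 (Ideal.absNorm v.asIdeal) s)⁻¹) (G s)) ∧
      ∀ T : ℝ, (Ideal.absNorm 𝔮 : ℝ) ^ η ≤ T →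
        ((Ideal.absNorm 𝔮 : ℝ) * T ^ Module.finrank ℚ M) ^ h ≤ (Ideal.absNorm 𝔮 : ℝ) →
      ∀ δ : ℝ, 0 ≤ δ →
        (Nat.card (𝓞 M ⧸ 𝔮)ˣ : ℝ) * (cnt G (vt T δ) : ℝ) ≤
          A * ((Ideal.absNorm 𝔮 : ℝ) * Un 𝔮 *
            ((Ideal.absNorm 𝔮 : ℝ) * T ^ Module.finrank ℚ M) ^ (-(c * δ))) * (cnt G (hp T) : ℝ) := by
  classical
  obtain ⟨A₀, -, Hd⟩ := cm_dens_unif M h c hh1 hc0 hc
  have hex : ∀ n : (M →+* ℂ) → ℕ, ∃ A : ℝ, 1 ≤ A ∧ ∀ η : ℝ, ∃ δ₀ X₀ : ℝ, 0 < δ₀ ∧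
    (0 < η → CTyp n → n ≠ 0 →
    ∀ (a b : ℤ) (𝔪 : Ideal (𝓞 M)) (ψ : Ideal (𝓞 M) → ℂ), IsCM a b n 𝔪 ψ →
    ∀ 𝔮 : Ideal (𝓞 M), 𝔮 ≠ ⊥ → 𝔮 ≤ 𝔪 → X₀ ≤ (Ideal.absNorm 𝔮 : ℝ) →
      (Un 𝔮 : ℝ) ≤ (Ideal.absNorm 𝔮 : ℝ) ^ δ₀ →
    ∀ (K : Type) [Field K] [NumberField K] (ι : 𝓞 M →+* 𝓞 K)
      (art : Ideal (𝓞 M) → (𝓞 K ≃+* 𝓞 K)), IsRCF 𝔮 K ι art →
    ∀ G : ℂ → ℂ, Differentiable ℂ G →
      (∀ s : ℂ, 3 / 2 < s.re → HasProd (open Classical in fun v : HeightOneSpectrum (𝓞 K) =>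
        if 𝔮.map ι ≤ v.asIdeal then 1
        else (lpoly (trv a b v) 1 (Ideal.absNorm v.asIdeal) s)⁻¹) (G s)) →
      ∀ T : ℝ, (Ideal.absNorm 𝔮 : ℝ) ^ η ≤ T →
        ((Ideal.absNorm 𝔮 : ℝ) * T ^ Module.finrank ℚ M) ^ h ≤ (Ideal.absNorm 𝔮 : ℝ) →
      ∀ δ : ℝ, 0 ≤ δ →
        (Nat.card (𝓞 M ⧸ 𝔮)ˣ : ℝ) * (cnt G (vt T δ) : ℝ) ≤
          A * ((Ideal.absNorm 𝔮 : ℝ) * Un 𝔮 *
            ((Ideal.absNorm 𝔮 : ℝ) * T ^ Module.finrank ℚ M) ^ (-(c * δ))) *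
            (cnt G (hp T) : ℝ)) := by
    intro n
    by_cases hn : CTyp n
    · by_cases hn0 : n ≠ 0
      · obtain ⟨A, hA, H0⟩ := cm_share M n hn hn0 h c hh1 hc0 hc
        refine ⟨A, hA, fun η => ?_⟩
        by_cases hη : 0 < η
        · obtain ⟨δ₀, X₀, h1, h2⟩ := H0 η hη
          exact ⟨δ₀, X₀, h1, fun _ _ _ => h2⟩
        · exact ⟨1, 1, one_pos, fun h => absurd h hη⟩
      · exact ⟨1, le_rfl, fun _ => ⟨1, 1, one_pos, fun _ _ h => absurd h hn0⟩⟩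
    · exact ⟨1, le_rfl, fun _ => ⟨1, 1, one_pos, fun _ h => absurd h hn⟩⟩
  choose A hA H0 using hex
  have hfin := types_finite M
  have hle : ∀ n ∈ hfin.toFinset, A n ≤ 1 + ∑ n ∈ hfin.toFinset, A n := by
    intro n hn
    have := Finset.single_le_sum (f := A) (fun m _ => by linarith [hA m]) hn
    linarith
  refine ⟨1 + ∑ n ∈ hfin.toFinset, A n, ?_, ?_⟩
  · have : 0 ≤ ∑ n ∈ hfin.toFinset, A n := Finset.sum_nonneg fun m _ => by linarith [hA m]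
    linarith
  intro η hη
  choose D X hD H1 using fun n => H0 n η
  have hne : hfin.toFinset.Nonempty := ⟨0, by
    rw [Set.Finite.mem_toFinset]
    intro φ
    exact Nat.zero_le 1⟩
  refine ⟨hfin.toFinset.inf' hne D, hfin.toFinset.sup' hne X, ?_, ?_⟩
  · rw [Finset.lt_inf'_iff]
    exact fun n _ => hD n
  intro a b n 𝔪 ψ hcm hn1 𝔮 hbot hle' hX hU K _ _ ι art hK
  have hmem : n ∈ hfin.toFinset := by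
    rw [Set.Finite.mem_toFinset]
    exact hn1
  have hN1 : (1 : ℝ) ≤ (Ideal.absNorm 𝔮 : ℝ) := by exact_mod_cast absNorm_pos' hbot
  obtain ⟨G, g1, g2, -, -⟩ := Hd a b n 𝔪 ψ hcm hn1 𝔮 hbot hle' K ι art (IsAb.of_rcf hK)
  refine ⟨G, g1, g2, fun T hT hTX δ hδ => ?_⟩
  have m1 := H1 n hη hcm.ctyp hcm.ne a b 𝔪 ψ hcm 𝔮 hbot hle'
    ((Finset.le_sup' X hmem).trans hX)
    (hU.trans (Real.rpow_le_rpow_of_exponent_le hN1 (Finset.inf'_le D hmem)))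
    K ι art hK G g1 g2 T hT hTX δ hδ
  refine m1.trans ?_
  have hAn : A n ≤ 1 + ∑ n ∈ hfin.toFinset, A n := hle n hmem
  gcongr
  · have : 0 ≤ T := by
      have h1 : 0 ≤ (Ideal.absNorm 𝔮 : ℝ) ^ η := by positivity
      linarith
    positivity

end Pool.Agent.Helper92.CM
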