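import Pool.Agent.Helper92.CM.Unif
import Pool.Agent.N786.Fin

/-!
# Uniformity in the infinity type: the zeros on the line (helper92)
-/

set_option autoImplicit false
set_option linter.unusedSectionVars false

open NumberField Complex Filter Topology Set IsDedekindDomain

namespace Pool.Agent.Helper92.CM

open Pool.Agent.Y767 (Mq Cls cls)
open Pool.Agent.Y773.IQ (absNorm_pos')
open Pool.Agent.N784.HC
open Pool.Agent.N784.AD (pi1 Un)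
open Pool.Agent.N784.CZ
open Pool.Agent.N786 (kc)
open Pool.Agent.H82R3.EK (cnt)
open Pool.Agent.W164.RC (lpoly)

theorem kc_nonneg {γ h : ℝ} (hγ : 0 < γ) (hγ' : γ < Real.pi) (hh : 0 < h) : 0 ≤ kc γ h := by
  unfold kc
  have h1 := H385.Rw_nonneg γ hγ hγ' 0
  have h2 : 0 ≤ ∫ α in (0 : ℝ)..1, α * H385.Rw γ α :=
    intervalIntegral.integral_nonneg zero_le_one
      (fun α hα => mul_nonneg hα.1 (H385.Rw_nonneg γ hγ hγ' α))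
  positivity

/-- the constant for relative length close to one -/
theorem exists_h' : ∃ a e : ℝ, 0 < a ∧ a < 1 / 3 ∧ 0 < e ∧ kc 1.414 (1 - a) + e ≤ 1.3275 := by
  have hc := H385.Rw_const_d2
  obtain ⟨R0, hR0⟩ : ∃ R0 : ℝ, R0 = H385.Rw 1.414 0 := ⟨_, rfl⟩
  obtain ⟨J, hJ⟩ : ∃ J : ℝ, J = ∫ α in (0 : ℝ)..1, α * H385.Rw 1.414 α := ⟨_, rfl⟩
  rw [← hR0, ← hJ] at hc
  have h1 : ContinuousAt (fun a : ℝ => 1 / (1 - a) * R0 + 2 * (1 - a) * J) 0 := by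
    refine ContinuousAt.add (ContinuousAt.mul (ContinuousAt.div continuousAt_const ?_ ?_)
      continuousAt_const) ?_
    · fun_prop
    · norm_num
    · fun_prop
  have h2 : (fun a : ℝ => 1 / (1 - a) * R0 + 2 * (1 - a) * J) 0 < 1.3275 := by
    simp only [sub_zero]
    linarith
  have h3 := h1.eventually_lt continuousAt_const h2
  have h4' : ∀ᶠ a : ℝ in 𝓝 (0 : ℝ), a < 1 / 3 := Iio_mem_nhds (by norm_num)
  have h4 : ∀ᶠ a : ℝ in 𝓝[>] (0 : ℝ), a < 1 / 3 := h4'.filter_mono nhdsWithin_le_nhds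
  obtain ⟨a, h5, h6, h7⟩ :=
    ((h3.filter_mono nhdsWithin_le_nhds).and (h4.and self_mem_nhdsWithin)).exists
  refine ⟨a, 1.3275 - (1 / (1 - a) * R0 + 2 * (1 - a) * J), h7, h6, by linarith, ?_⟩
  unfold kc
  rw [← hR0, ← hJ]
  linarith

/-- **the zeros of `L(E/K, s)` on the line, uniformly in the type** -/
theorem cm_prop_unif (M : Type) [Field M] [NumberField M] {γ h : ℝ} (hγ : 0 < γ)
    (hγ' : γ < Real.pi) (hh : 1 / 2 ≤ h) (ε η : ℝ) (hε : 0 < ε) (hη : 0 < η) :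
    ∃ δ X₀ : ℝ, 0 < δ ∧ ∀ (a b : ℤ) (n : (M →+* ℂ) → ℕ) (𝔪 : Ideal (𝓞 M))
      (ψ : Ideal (𝓞 M) → ℂ), IsCM a b n 𝔪 ψ → (∀ φ, n φ ≤ 1) →
    ∀ 𝔮 : Ideal (𝓞 M), 𝔮 ≠ ⊥ → 𝔮 ≤ 𝔪 → X₀ ≤ (Ideal.absNorm 𝔮 : ℝ) →
      (Un 𝔮 : ℝ) ≤ (Ideal.absNorm 𝔮 : ℝ) ^ δ →
    ∀ (K : Type) [Field K] [NumberField K] (ι : 𝓞 M →+* 𝓞 K)
      (art : Ideal (𝓞 M) → (𝓞 K ≃+* 𝓞 K)), IsRCF 𝔮 K ι art →
    ∃ G : ℂ → ℂ, Differentiable ℂ G ∧
      (∀ s : ℂ, 3 / 2 < s.re → HasProd (open Classical in fun v : HeightOneSpectrum (𝓞 K) =>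
        if 𝔮.map ι ≤ v.asIdeal then 1
        else (lpoly (trv a b v) 1 (Ideal.absNorm v.asIdeal) s)⁻¹) (G s)) ∧
      ∀ T : ℝ, (Ideal.absNorm 𝔮 : ℝ) ^ η ≤ T →
        ((Ideal.absNorm 𝔮 : ℝ) * T ^ Module.finrank ℚ M) ^ h ≤ (Ideal.absNorm 𝔮 : ℝ) →
        {s : ℂ | s ∈ hp T ∧ G s = 0}.Finite ∧
        (1 - ε) * ((Module.finrank ℚ K : ℝ) / (Module.finrank ℚ M : ℝ) * (T / Real.pi *
          Real.log ((Ideal.absNorm 𝔮 : ℝ) * T ^ Module.finrank ℚ M))) ≤ (cnt G (hp T) : ℝ) ∧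
        (2 - kc γ h - ε) * (cnt G (hp T) : ℝ) ≤ (cnt G {s : ℂ | s ∈ hp T ∧ s.re = 1} : ℝ) := by
  classical
  have hk0 : 0 ≤ kc γ h := kc_nonneg hγ hγ' (by linarith)
  have hex : ∀ n : (M →+* ℂ) → ℕ, ∃ δ X₀ : ℝ, 0 < δ ∧ (CTyp n → n ≠ 0 →
    ∀ (a b : ℤ) (𝔪 : Ideal (𝓞 M)) (ψ : Ideal (𝓞 M) → ℂ), IsCM a b n 𝔪 ψ →
    ∀ 𝔮 : Ideal (𝓞 M), 𝔮 ≠ ⊥ → 𝔮 ≤ 𝔪 → X₀ ≤ (Ideal.absNorm 𝔮 : ℝ) →
      (Un 𝔮 : ℝ) ≤ (Ideal.absNorm 𝔮 : ℝ) ^ δ →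
    ∀ (K : Type) [Field K] [NumberField K] (ι : 𝓞 M →+* 𝓞 K)
      (art : Ideal (𝓞 M) → (𝓞 K ≃+* 𝓞 K)), IsRCF 𝔮 K ι art →
    ∃ G : ℂ → ℂ, Differentiable ℂ G ∧
      (∀ s : ℂ, 3 / 2 < s.re → HasProd (open Classical in fun v : HeightOneSpectrum (𝓞 K) =>
        if 𝔮.map ι ≤ v.asIdeal then 1
        else (lpoly (trv a b v) 1 (Ideal.absNorm v.asIdeal) s)⁻¹) (G s)) ∧
      ∀ T : ℝ, (Ideal.absNorm 𝔮 : ℝ) ^ η ≤ T →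
        ((Ideal.absNorm 𝔮 : ℝ) * T ^ Module.finrank ℚ M) ^ h ≤ (Ideal.absNorm 𝔮 : ℝ) →
        {s : ℂ | s ∈ hp T ∧ G s = 0}.Finite ∧
        (1 - ε) * ((Module.finrank ℚ K : ℝ) / (Module.finrank ℚ M : ℝ) * (T / Real.pi *
          Real.log ((Ideal.absNorm 𝔮 : ℝ) * T ^ Module.finrank ℚ M))) ≤ (cnt G (hp T) : ℝ) ∧
        (2 - kc γ h - ε) * (cnt G (hp T) : ℝ) ≤
          (cnt G {s : ℂ | s ∈ hp T ∧ s.re = 1} : ℝ)) := by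
    intro n
    by_cases hn : CTyp n
    · by_cases hn0 : n ≠ 0
      · obtain ⟨δ, X₀, h1, h2⟩ := cm_prop M n hn hn0 hγ hγ' hh hk0 ε η hε hη
        exact ⟨δ, X₀, h1, fun _ _ => h2⟩
      · exact ⟨1, 1, one_pos, fun _ h => absurd h hn0⟩
    · exact ⟨1, 1, one_pos, fun h => absurd h hn⟩
  choose D X hD H1 using hex
  have hfin := types_finite M
  have hne : hfin.toFinset.Nonempty := ⟨0, by
    rw [Set.Finite.mem_toFinset]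
    intro φ
    exact Nat.zero_le 1⟩
  refine ⟨hfin.toFinset.inf' hne D, hfin.toFinset.sup' hne X, ?_, ?_⟩
  · rw [Finset.lt_inf'_iff]
    exact fun n _ => hD n
  intro a b n 𝔪 ψ hcm hn1 𝔮 hbot hle' hX hU K _ _ ι art hK
  have hmem : n ∈ hfin.toFinset := by
    rw [Set.Finite.mem_toFinset]
    exact hn1
  have hN1 : (1 : ℝ) ≤ (Ideal.absNorm 𝔮 : ℝ) := by exact_mod_cast absNorm_pos' hbot
  exact H1 n hcm.ctyp hcm.ne a b 𝔪 ψ hcm 𝔮 hbot hle'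
    ((Finset.le_sup' X hmem).trans hX)
    (hU.trans (Real.rpow_le_rpow_of_exponent_le hN1 (Finset.inf'_le D hmem)))
    K ι art hK

end Pool.Agent.Helper92.CM
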