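import Pool.Agent.W164.RC.Bad
import Pool.Agent.N784.CZ.Cod

/-!
# Euler factors at the places dividing the modulus (helper92)
-/

set_option autoImplicit false

open NumberField Complex IsDedekindDomain

namespace Pool.Agent.Helper92.CM

open Pool.Agent.W164.RC (lpoly lpoly_diff lpoly_ne Poss places_finite order_mul_ne)
open Pool.Agent.H921R2.TatePole (two_le_nm)
open Pool.Agent.H82R3.EK (cnt)
open H370 (mult)

variable {M : Type} [Field M] [NumberField M] {K : Type} [Field K] [NumberField K]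

theorem iota_inj' (ι : 𝓞 M →+* 𝓞 K) : Function.Injective ι := by
  rw [injective_iff_map_eq_zero]
  intro a ha
  have h1 := Ideal.absNorm_mem (Ideal.span {a})
  obtain ⟨c, hc'⟩ := Ideal.mem_span_singleton'.1 h1
  have h2 := congrArg ι hc'
  rw [map_mul, ha, mul_zero, map_natCast] at h2
  have h3 : Ideal.absNorm (Ideal.span {a}) = 0 := by exact_mod_cast h2.symm
  rw [Ideal.absNorm_eq_zero_iff, Ideal.span_singleton_eq_bot] at h3
  exact h3

/-- finitely many places divide the modulus -/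
theorem exc_finite (ι : 𝓞 M →+* 𝓞 K) {𝔮 : Ideal (𝓞 M)} (hbot : 𝔮 ≠ ⊥) :
    {v : HeightOneSpectrum (𝓞 K) | 𝔮.map ι ≤ v.asIdeal}.Finite := by
  obtain ⟨x, hx, hx0⟩ := Submodule.exists_mem_ne_zero_of_ne_bot hbot
  have hιx : ι x ≠ 0 := fun h => hx0 (iota_inj' ι (by rw [h, map_zero]))
  refine (places_finite hιx).subset ?_
  intro v hv
  exact hv (Ideal.mem_map_of_mem ι hx)

open Classical in
/-- the L-function with arbitrary possible Euler factors at the places dividing `𝔮` -/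
theorem wrap (ι : 𝓞 M →+* 𝓞 K) {𝔮 : Ideal (𝓞 M)} (hbot : 𝔮 ≠ ⊥)
    (t : HeightOneSpectrum (𝓞 K) → ℤ) {G : ℂ → ℂ} (hG : Differentiable ℂ G)
    (hprod : ∀ s : ℂ, 3 / 2 < s.re → HasProd (fun v : HeightOneSpectrum (𝓞 K) =>
      if 𝔮.map ι ≤ v.asIdeal then 1 else (lpoly (t v) 1 (Ideal.absNorm v.asIdeal) s)⁻¹) (G s))
    (α β : HeightOneSpectrum (𝓞 K) → ℤ)
    (hpos : ∀ v : HeightOneSpectrum (𝓞 K), 𝔮.map ι ≤ v.asIdeal →
      Poss (Ideal.absNorm v.asIdeal) (α v) (β v)) :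
    ∃ L : ℂ → ℂ, AnalyticOnNhd ℂ L {s : ℂ | 1 / 2 < s.re} ∧
      (∀ s : ℂ, 3 / 2 < s.re → HasProd (fun v : HeightOneSpectrum (𝓞 K) =>
        if 𝔮.map ι ≤ v.asIdeal then (lpoly (α v) (β v) (Ideal.absNorm v.asIdeal) s)⁻¹
        else (lpoly (t v) 1 (Ideal.absNorm v.asIdeal) s)⁻¹) (L s)) ∧
      (∀ s : ℂ, 1 / 2 < s.re → G s = L s * ∏ᶠ v ∈ {v : HeightOneSpectrum (𝓞 K) |
        𝔮.map ι ≤ v.asIdeal}, lpoly (α v) (β v) (Ideal.absNorm v.asIdeal) s) ∧
      ∀ W : Set ℂ, (∀ s ∈ W, 1 / 2 < s.re) →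
        {s : ℂ | s ∈ W ∧ L s = 0} = {s : ℂ | s ∈ W ∧ G s = 0} ∧
        ∑ᶠ s ∈ {s : ℂ | s ∈ W ∧ L s = 0}, analyticOrderNatAt L s = cnt G W := by
  have hfin := exc_finite ι hbot
  obtain ⟨S, hS⟩ : ∃ S : Finset (HeightOneSpectrum (𝓞 K)), S = hfin.toFinset := ⟨_, rfl⟩
  have hmemS : ∀ v, v ∈ S ↔ 𝔮.map ι ≤ v.asIdeal := fun v => by
    rw [hS, Set.Finite.mem_toFinset]
    exact Iff.rfl
  have hn2 : ∀ v : HeightOneSpectrum (𝓞 K), 2 ≤ Ideal.absNorm v.asIdeal := fun v => two_le_nm v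
  obtain ⟨P, hP⟩ : ∃ P : HeightOneSpectrum (𝓞 K) → ℂ → ℂ,
    P = fun v s => lpoly (α v) (β v) (Ideal.absNorm v.asIdeal) s := ⟨_, rfl⟩
  have hPv : ∀ v s, P v s = lpoly (α v) (β v) (Ideal.absNorm v.asIdeal) s := fun v s => by rw [hP]
  have hPdiff : ∀ v, Differentiable ℂ (P v) := fun v => by
    rw [hP]
    exact lpoly_diff _ _ (hn2 v)
  have hPne : ∀ v ∈ S, ∀ s : ℂ, 1 / 2 < s.re → P v s ≠ 0 := by
    intro v hv s hs
    rw [hPv]
    exact lpoly_ne (hn2 v) (hpos v ((hmemS v).1 hv)) hs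
  obtain ⟨R, hR⟩ : ∃ R : ℂ → ℂ, R = fun s => ∏ v ∈ S, (P v s)⁻¹ := ⟨_, rfl⟩
  have hRan : ∀ s : ℂ, 1 / 2 < s.re → AnalyticAt ℂ R s := by
    intro s hs
    rw [hR]
    apply Finset.analyticAt_fun_prod
    intro v hv
    exact ((hPdiff v).analyticAt s).inv (hPne v hv s hs)
  have hRne : ∀ s : ℂ, 1 / 2 < s.re → R s ≠ 0 := by
    intro s hs
    rw [hR]
    simp only
    rw [Finset.prod_ne_zero_iff]
    intro v hv
    exact inv_ne_zero (hPne v hv s hs)
  refine ⟨fun s => G s * R s, ?_, ?_, ?_, ?_⟩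
  · intro s hs
    exact (hG.analyticAt s).mul (hRan s hs)
  · intro s hs
    have hs' : 1 / 2 < s.re := by linarith
    have h3 : HasProd (fun v : HeightOneSpectrum (𝓞 K) =>
        if v ∈ S then (P v s)⁻¹ else 1) (R s) := by
      have h4 : R s = ∏ v ∈ S, (if v ∈ S then (P v s)⁻¹ else 1) := by
        rw [hR]
        exact Finset.prod_congr rfl fun v hv => by rw [if_pos hv]
      rw [h4]
      apply hasProd_prod_of_ne_finset_one
      intro v hv
      rw [if_neg hv]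
    have h5 := (hprod s hs).mul h3
    refine h5.congr_fun ?_
    intro v
    by_cases hv : 𝔮.map ι ≤ v.asIdeal
    · rw [if_pos hv, if_pos hv, if_pos ((hmemS v).2 hv), one_mul, hPv]
    · have hvS : v ∉ S := fun h => hv ((hmemS v).1 h)
      rw [if_neg hv, if_neg hv, if_neg hvS, mul_one]
  · intro s hs
    have h3 : ∏ᶠ v ∈ {v : HeightOneSpectrum (𝓞 K) | 𝔮.map ι ≤ v.asIdeal},
        lpoly (α v) (β v) (Ideal.absNorm v.asIdeal) s = ∏ v ∈ S, P v s := by
      rw [← finprod_mem_coe_finset]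
      have : (S : Set (HeightOneSpectrum (𝓞 K))) = {v | 𝔮.map ι ≤ v.asIdeal} := by
        ext v
        exact hmemS v
      rw [this]
      exact finprod_mem_congr rfl fun v _ => (hPv v s).symm
    rw [h3]
    show G s = G s * R s * ∏ v ∈ S, P v s
    rw [hR, mul_assoc, ← Finset.prod_mul_distrib]
    have h4 : ∏ v ∈ S, ((P v s)⁻¹ * P v s) = 1 :=
      Finset.prod_eq_one fun v hv => inv_mul_cancel₀ (hPne v hv s hs)
    rw [h4, mul_one]
  · intro W hW
    have h1 : {s : ℂ | s ∈ W ∧ (fun s => G s * R s) s = 0} = {s : ℂ | s ∈ W ∧ G s = 0} := by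
      ext s
      constructor
      · rintro ⟨h1, h5⟩
        exact ⟨h1, (mul_eq_zero.1 h5).resolve_right (hRne s (hW s h1))⟩
      · rintro ⟨h1, h5⟩
        refine ⟨h1, ?_⟩
        show G s * R s = 0
        rw [h5, zero_mul]
    refine ⟨h1, ?_⟩
    rw [h1]
    unfold cnt mult
    refine finsum_mem_congr rfl fun s hs => ?_
    unfold analyticOrderNatAt
    rw [order_mul_ne (hG.analyticAt s) (hRan s (hW s hs.1)) (hRne s (hW s hs.1))]

/-- the zeros in a bounded window are finitely many -/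
theorem win_finite {G : ℂ → ℂ} (hG : Differentiable ℂ G) (hne : ∀ s : ℂ, 3 / 2 ≤ s.re → G s ≠ 0)
    (t₁ H : ℝ) : {s : ℂ | 1 / 2 < s.re ∧ t₁ ≤ s.im ∧ s.im ≤ t₁ + H ∧ G s = 0}.Finite := by
  have h2 : G 2 ≠ 0 := hne _ (by norm_num)
  refine (Pool.Agent.N784.CZ.dz_finite hG h2 0 (2 + (|t₁| + |t₁ + H|))).subset ?_
  rintro s ⟨b1, b2, b3, b4⟩
  refine ⟨?_, b4⟩
  rw [sub_zero]
  refine (Complex.norm_le_abs_re_add_abs_im s).trans (add_le_add ?_ ?_)
  · rw [abs_of_pos (by linarith)]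
    by_contra hcon
    exact hne s (by linarith [not_le.mp hcon]) b4
  · rw [abs_le]
    have h1 := neg_abs_le t₁
    have h3 := abs_nonneg (t₁ + H)
    have h4 := le_abs_self (t₁ + H)
    have h5 := abs_nonneg t₁
    constructor <;> linarith

end Pool.Agent.Helper92.CM
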